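import Pool.Agent.Lib_helper49.Dang.Setup

/-!
# Block da01: polarization on the sphere
-/

namespace Pool.Agent.Lib_helper49.Dang

open MvPolynomial Pool.Agent.Lib_helper26.Ebe

variable {n : ℕ}

theorem da01_real_zero (H : MvPolynomial (Fin n ⊕ Fin n) ℂ)
    (h : ∀ x y : Fin n → ℝ, eval (Sum.elim (fun i => (x i : ℂ)) (fun i => (y i : ℂ))) H = 0) :
    H = 0 := by
  apply MvPolynomial.funext_set (fun _ => Set.range (fun r : ℝ => (r : ℂ)))
  · intro _
    exact Set.infinite_range_of_injective Complex.ofReal_injective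
  · intro p hp
    rw [map_zero]
    have h1 : ∀ i, ∃ r : ℝ, (r : ℂ) = p i := fun i => hp i (Set.mem_univ i)
    choose r hr using h1
    have h2 := h (fun i => r (Sum.inl i)) (fun i => r (Sum.inr i))
    have h3 : (Sum.elim (fun i => ((r (Sum.inl i) : ℝ) : ℂ)) (fun i => ((r (Sum.inr i) : ℝ) : ℂ))) =
        p := by
      funext i
      rcases i with i | i
      · exact hr _
      · exact hr _
    rw [h3] at h2
    exact h2

/-- A polynomial that vanishes at all `(w, conj w)` vanishes. -/
theorem da01_conj_zero (H : MvPolynomial (Fin n ⊕ Fin n) ℂ)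
    (h : ∀ w : Fin n → ℂ, eval (Sum.elim w (fun i => (starRingEnd ℂ) (w i))) H = 0)
    (z v : Fin n → ℂ) : eval (Sum.elim z v) H = 0 := by
  have key : ∀ p : Fin n ⊕ Fin n → ℂ, eval p (bind₁ (Sum.elim
      (fun i => X (Sum.inl i) + C Complex.I * X (Sum.inr i))
      (fun i => X (Sum.inl i) - C Complex.I * X (Sum.inr i)) :
        Fin n ⊕ Fin n → MvPolynomial (Fin n ⊕ Fin n) ℂ) H) =
      eval (Sum.elim (fun i => p (Sum.inl i) + Complex.I * p (Sum.inr i))
        (fun i => p (Sum.inl i) - Complex.I * p (Sum.inr i))) H := by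
    intro p
    show eval₂Hom (RingHom.id ℂ) p (bind₁ _ H) = eval₂Hom (RingHom.id ℂ) _ H
    rw [MvPolynomial.eval₂Hom_bind₁]
    congr 1
    congr 1
    funext i
    rcases i with i | i <;> simp
  have h0 := da01_real_zero _ (fun x y => by
    rw [key]
    have := h (fun i => (x i : ℂ) + Complex.I * (y i : ℂ))
    rw [← this]
    congr 1
    congr 1
    funext i
    rcases i with i | i
    · simp
    · simp [sub_eq_add_neg])
  have h1 := key (Sum.elim (fun i => (z i + v i) / 2) (fun i => (z i - v i) / (2 * Complex.I)))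
  rw [h0, map_zero] at h1
  rw [h1]
  congr 1
  congr 1
  funext i
  have hI : Complex.I ≠ 0 := Complex.I_ne_zero
  rcases i with i | i
  · simp only [Sum.elim_inl, Sum.elim_inr]
    field_simp
    ring
  · simp only [Sum.elim_inl, Sum.elim_inr]
    field_simp
    ring

/-- Clearing the denominators of `G(z, v/τ)`. -/
theorem da01_clear (G : MvPolynomial (Fin n ⊕ Fin n) ℂ) :
    ∃ (D : ℕ) (K : MvPolynomial (Option (Fin n ⊕ Fin n)) ℂ), ∀ (τ : ℂ) (z v : Fin n → ℂ), τ ≠ 0 →
      eval (fun o => o.elim τ (Sum.elim z v)) K =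
        τ ^ D * eval (Sum.elim z (fun i => v i / τ)) G := by
  induction G using MvPolynomial.induction_on with
  | C a => exact ⟨0, C a, fun τ z v _ => by simp⟩
  | add p q hp hq =>
    obtain ⟨D1, K1, h1⟩ := hp
    obtain ⟨D2, K2, h2⟩ := hq
    refine ⟨D1 + D2, X none ^ D2 * K1 + X none ^ D1 * K2, fun τ z v hτ => ?_⟩
    rw [map_add, map_mul, map_mul, map_pow, map_pow, h1 τ z v hτ, h2 τ z v hτ, eval_X, map_add]
    simp only [Option.elim]
    ring
  | mul_X p i hp =>
    obtain ⟨D, K, h1⟩ := hp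
    rcases i with i | i
    · refine ⟨D, K * X (some (Sum.inl i)), fun τ z v hτ => ?_⟩
      rw [map_mul, h1 τ z v hτ, eval_X, map_mul, eval_X]
      simp only [Option.elim, Sum.elim_inl]
      ring
    · refine ⟨D + 1, K * X (some (Sum.inr i)), fun τ z v hτ => ?_⟩
      rw [map_mul, h1 τ z v hτ, eval_X, map_mul, eval_X]
      simp only [Option.elim, Sum.elim_inr]
      field_simp
      ring

/-- The torus trick. -/
theorem da01_torus (G : MvPolynomial (Fin n ⊕ Fin n) ℂ)
    (h : ∀ z : Fin n → ℂ, OnSphere z →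
      eval (Sum.elim z (fun i => (starRingEnd ℂ) (z i))) G = 0)
    (z : Fin n → ℂ) (hz : OnSphere z) (s : ℂ) (hs : s ≠ 0) :
    eval (Sum.elim (fun i => s * z i) (fun i => (starRingEnd ℂ) (z i) / s)) G = 0 := by
  obtain ⟨D, K, hK⟩ := da01_clear G
  set p : Polynomial ℂ := aeval (fun o : Option (Fin n ⊕ Fin n) => o.elim Polynomial.X
    (Sum.elim (fun i => Polynomial.X * Polynomial.C (z i))
      (fun i => Polynomial.C ((starRingEnd ℂ) (z i))))) K with hp
  have hpe : ∀ t : ℂ, p.eval t = eval (fun o : Option (Fin n ⊕ Fin n) => o.elim t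
      (Sum.elim (fun i => t * z i) (fun i => (starRingEnd ℂ) (z i)))) K := by
    intro t
    rw [hp, ← Polynomial.coe_evalRingHom, MvPolynomial.aeval_def, MvPolynomial.hom_eval₂]
    have e1 : (Polynomial.evalRingHom t).comp (algebraMap ℂ (Polynomial ℂ)) = RingHom.id ℂ := by
      ext a
      simp
    rw [e1]
    show eval₂ (RingHom.id ℂ) _ K = _
    rw [← MvPolynomial.eval₂_id]
    congr 1
    funext o
    rcases o with _ | i
    · simp
    · rcases i with i | i
      · show (Polynomial.evalRingHom t) (Polynomial.X * Polynomial.C (z i)) = t * z i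
        rw [Polynomial.coe_evalRingHom, Polynomial.eval_mul, Polynomial.eval_X, Polynomial.eval_C]
      · simp
  have hp0 : p = 0 := by
    apply Polynomial.eq_zero_of_infinite_isRoot
    have hinf : (Set.range (fun θ : ℝ => Complex.exp (θ * Complex.I))).Infinite := by
      have hsub : (fun θ : ℝ => Complex.exp (θ * Complex.I)) '' Set.Ioo (-1) 1 ⊆
          Set.range (fun θ : ℝ => Complex.exp (θ * Complex.I)) := Set.image_subset_range _ _
      apply Set.Infinite.mono hsub
      apply Set.Infinite.image _ (Set.Ioo_infinite (by norm_num))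
      intro a ha b hb hab
      have h1 : Complex.arg (Complex.exp (a * Complex.I)) = a := by
        rw [Complex.arg_exp_mul_I, toIocMod_eq_self]
        constructor <;> linarith [ha.1, ha.2, Real.pi_gt_three]
      have h2 : Complex.arg (Complex.exp (b * Complex.I)) = b := by
        rw [Complex.arg_exp_mul_I, toIocMod_eq_self]
        constructor <;> linarith [hb.1, hb.2, Real.pi_gt_three]
      have hab' : Complex.exp (a * Complex.I) = Complex.exp (b * Complex.I) := hab
      rw [← h1, ← h2, hab']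
    apply Set.Infinite.mono _ hinf
    rintro t ⟨θ, rfl⟩
    show Polynomial.IsRoot p _
    rw [Polynomial.IsRoot.def, hpe]
    have ht0 : Complex.exp (θ * Complex.I) ≠ 0 := Complex.exp_ne_zero _
    rw [hK _ _ _ ht0]
    have hn : ‖Complex.exp (θ * Complex.I)‖ = 1 := Complex.norm_exp_ofReal_mul_I θ
    have hsph : OnSphere (fun i => Complex.exp (θ * Complex.I) * z i) := by
      unfold OnSphere at hz ⊢
      simpa [norm_mul, hn] using hz
    have h1 := h _ hsph
    have h2 : (fun i => (starRingEnd ℂ) (Complex.exp (θ * Complex.I) * z i)) =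
        fun i => (starRingEnd ℂ) (z i) / Complex.exp (θ * Complex.I) := by
      funext i
      have hc : (starRingEnd ℂ) (Complex.exp (θ * Complex.I)) =
          (Complex.exp (θ * Complex.I))⁻¹ := by
        rw [Complex.inv_def, Complex.normSq_eq_norm_sq, hn]
        simp
      rw [map_mul, hc]
      ring
    rw [h2] at h1
    rw [h1, mul_zero]
  have h3 := hpe s
  rw [hp0, Polynomial.eval_zero, hK _ _ _ hs] at h3
  rcases mul_eq_zero.mp h3.symm with h4 | h4
  · exact absurd h4 (pow_ne_zero _ hs)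
  · exact h4

theorem polarization (G : MvPolynomial (Fin n ⊕ Fin n) ℂ)
    (h : ∀ z : Fin n → ℂ, OnSphere z →
      eval (Sum.elim z (fun i => (starRingEnd ℂ) (z i))) G = 0)
    (z v : Fin n → ℂ) (hzv : ∑ i, z i * v i = 1) : eval (Sum.elim z v) G = 0 := by
  obtain ⟨D, K, hK⟩ := da01_clear G
  set T : MvPolynomial (Fin n ⊕ Fin n) ℂ := ∑ i, X (Sum.inl i) * X (Sum.inr i) with hT
  have hTe : ∀ z v : Fin n → ℂ, eval (Sum.elim z v) T = ∑ i, z i * v i := by
    intro z v
    rw [hT, map_sum]
    simp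
  set H : MvPolynomial (Fin n ⊕ Fin n) ℂ :=
    T * bind₁ (fun o : Option (Fin n ⊕ Fin n) => o.elim T X) K with hH
  have hHe : ∀ z v : Fin n → ℂ, eval (Sum.elim z v) H = (∑ i, z i * v i) *
      eval (fun o : Option (Fin n ⊕ Fin n) => o.elim (∑ i, z i * v i) (Sum.elim z v)) K := by
    intro z v
    rw [hH, map_mul, hTe]
    congr 1
    show eval₂Hom (RingHom.id ℂ) _ (bind₁ _ K) = eval₂Hom (RingHom.id ℂ) _ K
    rw [MvPolynomial.eval₂Hom_bind₁]
    congr 1
    congr 1
    funext o
    rcases o with _ | i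
    · show eval (Sum.elim z v) T = _
      rw [hTe]
      rfl
    · simp
  have h0 : eval (Sum.elim z v) H = 0 := by
    apply da01_conj_zero
    intro w
    rw [hHe]
    have hτ : ∑ i, w i * (starRingEnd ℂ) (w i) = (((∑ i, ‖w i‖ ^ 2 : ℝ)) : ℂ) := by
      push_cast
      apply Finset.sum_congr rfl
      intro i _
      rw [Complex.mul_conj, Complex.normSq_eq_norm_sq]
      push_cast
      rfl
    rw [hτ]
    by_cases h1 : (∑ i, ‖w i‖ ^ 2 : ℝ) = 0
    · rw [h1]; simp
    · have hpos : 0 < (∑ i, ‖w i‖ ^ 2 : ℝ) :=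
        lt_of_le_of_ne (Finset.sum_nonneg fun i _ => sq_nonneg _) (Ne.symm h1)
      set r : ℝ := √(∑ i, ‖w i‖ ^ 2 : ℝ) with hr
      have hr0 : 0 < r := Real.sqrt_pos.mpr hpos
      have hr2 : r * r = (∑ i, ‖w i‖ ^ 2 : ℝ) := Real.mul_self_sqrt hpos.le
      have hrc : (r : ℂ) ≠ 0 := by exact_mod_cast hr0.ne'
      rw [← hr2]
      have hsph : OnSphere (fun i => w i / (r : ℂ)) := by
        unfold OnSphere
        simp only [norm_div, Complex.norm_real, Real.norm_eq_abs, div_pow, sq_abs]
        rw [← Finset.sum_div, ← hr2, ← sq]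
        exact div_self (pow_ne_zero _ hr0.ne')
      have h2 := da01_torus G h _ hsph (r : ℂ) hrc
      have h3 : (fun i => (r : ℂ) * (w i / (r : ℂ))) = w := by
        funext i
        field_simp
      have h4 : (fun i => (starRingEnd ℂ) (w i / (r : ℂ)) / (r : ℂ)) =
          fun i => (starRingEnd ℂ) (w i) / ((r * r : ℝ) : ℂ) := by
        funext i
        rw [map_div₀, Complex.conj_ofReal]
        push_cast
        field_simp
      rw [h3, h4] at h2
      have hrr : ((r * r : ℝ) : ℂ) ≠ 0 := by
        push_cast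
        exact mul_ne_zero hrc hrc
      rw [hK _ _ _ hrr, h2]
      ring
  rw [hHe, hzv, one_mul, hK 1 z v one_ne_zero] at h0
  simpa using h0

end Pool.Agent.Lib_helper49.Dang
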