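import Pool.Agent.Lib_helper49.Dang.Setup
import Pool.Agent.Lib_helper49.Dang.B01

/-!
# Block da02: Zariski density of the pairs `(a, x)` with `|a| = 1`, `x ⊥ a`
-/

namespace Pool.Agent.Lib_helper49.Dang

open MvPolynomial Pool.Agent.Lib_helper26.Ebe

variable {n : ℕ}

theorem da02_sub (Φ : MvPolynomial (Fin n ⊕ Fin n) ℂ)
    (h : ∀ a x : Fin n → ℂ, OnSphere a → ip x a = 0 → eval (Sum.elim a x) Φ = 0)
    (k : Fin n) (y a b : Fin n → ℂ) (hab : ∑ i, a i * b i = 1) :
    eval (Sum.elim a (fun i => b k * y i - (if i = k then ∑ l, y l * b l else 0))) Φ = 0 := by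
  have key : ∀ a b : Fin n → ℂ, eval (Sum.elim a b) (bind₁ (Sum.elim
      (fun i => X (Sum.inl i))
      (fun i => X (Sum.inr k) * C (y i) -
        (if i = k then ∑ l, C (y l) * X (Sum.inr l) else 0)) :
        Fin n ⊕ Fin n → MvPolynomial (Fin n ⊕ Fin n) ℂ) Φ) =
      eval (Sum.elim a (fun i => b k * y i - (if i = k then ∑ l, y l * b l else 0))) Φ := by
    intro a b
    show eval₂Hom (RingHom.id ℂ) _ (bind₁ _ Φ) = eval₂Hom (RingHom.id ℂ) _ Φ
    rw [MvPolynomial.eval₂Hom_bind₁]
    congr 1
    congr 1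
    funext i
    rcases i with i | i
    · simp
    · show eval (Sum.elim a b) _ = _
      simp only [Sum.elim_inr]
      rw [map_sub, map_mul, eval_X, eval_C]
      split_ifs
      · rw [map_sum]
        simp
      · simp
  rw [← key]
  apply polarization _ _ a b hab
  intro z hz
  rw [key]
  apply h z _ hz
  unfold ip
  have h1 : ∀ i, ((starRingEnd ℂ) (z k) * y i -
      (if i = k then ∑ l, y l * (starRingEnd ℂ) (z l) else 0)) * (starRingEnd ℂ) (z i) =
      (starRingEnd ℂ) (z k) * (y i * (starRingEnd ℂ) (z i)) -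
      (if i = k then (∑ l, y l * (starRingEnd ℂ) (z l)) * (starRingEnd ℂ) (z i) else 0) := by
    intro i
    split_ifs <;> ring
  rw [Finset.sum_congr rfl (fun i _ => h1 i), Finset.sum_sub_distrib, ← Finset.mul_sum,
    Finset.sum_ite_eq' Finset.univ k]
  simp only [Finset.mem_univ, if_true]
  ring

theorem exists_real (hn : 2 ≤ n) (Φ : MvPolynomial (Fin n ⊕ Fin n) ℂ) (h : Φ ≠ 0) :
    ∃ a x : Fin n → ℂ, OnSphere a ∧ ip x a = 0 ∧ eval (Sum.elim a x) Φ ≠ 0 := by
  by_contra hc
  push Not at hc
  have hs := da02_sub Φ hc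
  have h01 : (⟨0, by omega⟩ : Fin n) ≠ ⟨1, by omega⟩ := by simp
  set i0 : Fin n := ⟨0, by omega⟩ with hi0
  set i1 : Fin n := ⟨1, by omega⟩ with hi1
  have key : ∀ a x : Fin n → ℂ, a i0 * x i1 - a i1 * x i0 ≠ 0 → eval (Sum.elim a x) Φ = 0 := by
    intro a x hD
    set D := a i0 * x i1 - a i1 * x i0 with hDd
    set b : Fin n → ℂ := fun i => if i = i0 then x i1 / D else if i = i1 then -x i0 / D else 0
      with hb
    have hsum : ∀ c : Fin n → ℂ, ∑ i, c i * b i = c i0 * (x i1 / D) + c i1 * (-x i0 / D) := by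
      intro c
      have h1 : ∀ i, c i * b i = (if i = i0 then c i * (x i1 / D) else 0) +
          (if i = i1 then c i * (-x i0 / D) else 0) := by
        intro i
        rw [hb]
        by_cases e0 : i = i0
        · have e1 : i ≠ i1 := fun e => h01 (e0.symm.trans e)
          simp only [if_pos e0, if_neg e1, add_zero]
        · by_cases e1 : i = i1
          · simp only [if_neg e0, if_pos e1, zero_add]
          · simp only [if_neg e0, if_neg e1, mul_zero, add_zero]
      rw [Finset.sum_congr rfl (fun i _ => h1 i), Finset.sum_add_distrib,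
        Finset.sum_ite_eq' Finset.univ i0, Finset.sum_ite_eq' Finset.univ i1]
      simp
    have hab : ∑ i, a i * b i = 1 := by
      rw [hsum]
      rw [show a i0 * (x i1 / D) + a i1 * (-x i0 / D) = (a i0 * x i1 - a i1 * x i0) / D by ring]
      exact div_self hD
    have hxb : ∑ i, x i * b i = 0 := by
      rw [hsum]
      ring
    have hbk : ∃ k, b k ≠ 0 := by
      by_contra hcb
      push Not at hcb
      have : ∑ i, a i * b i = 0 := Finset.sum_eq_zero fun i _ => by rw [hcb i, mul_zero]
      rw [this] at hab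
      exact zero_ne_one hab
    obtain ⟨k, hk⟩ := hbk
    have h2 := hs k (fun i => x i / b k) a b hab
    have h3 : ∑ l, x l / b k * b l = 0 := by
      have : ∀ l, x l / b k * b l = (x l * b l) / b k := fun l => by ring
      rw [Finset.sum_congr rfl (fun l _ => this l), ← Finset.sum_div, hxb, zero_div]
    have h4 : (fun i => b k * (x i / b k) -
        (if i = k then ∑ l, x l / b k * b l else 0)) = x := by
      funext i
      rw [h3]
      split_ifs <;> field_simp <;> ring
    rw [h4] at h2
    exact h2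
  have hz : Φ * (X (Sum.inl i0) * X (Sum.inr i1) - X (Sum.inl i1) * X (Sum.inr i0)) = 0 := by
    apply MvPolynomial.funext
    intro p
    rw [map_zero, map_mul, map_sub, map_mul, map_mul, eval_X, eval_X, eval_X, eval_X]
    by_cases hD : p (Sum.inl i0) * p (Sum.inr i1) - p (Sum.inl i1) * p (Sum.inr i0) = 0
    · rw [hD, mul_zero]
    · have h5 := key (fun i => p (Sum.inl i)) (fun i => p (Sum.inr i)) hD
      have h6 : Sum.elim (fun i => p (Sum.inl i)) (fun i => p (Sum.inr i)) = p := by
        funext i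
        rcases i with i | i <;> rfl
      rw [h6] at h5
      rw [h5, zero_mul]
  rcases mul_eq_zero.mp hz with h7 | h7
  · exact h h7
  · have h8 := congrArg (eval (Sum.elim (fun i => if i = i0 then (1 : ℂ) else 0)
      (fun i => if i = i1 then (1 : ℂ) else 0))) h7
    rw [map_sub, map_mul, map_mul, eval_X, eval_X, eval_X, eval_X, map_zero] at h8
    simp only [Sum.elim_inl, Sum.elim_inr, if_true, if_neg h01.symm, mul_one, zero_mul,
      sub_zero] at h8
    exact one_ne_zero h8

end Pool.Agent.Lib_helper49.Dang
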