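import Pool.Agent.Lib_helper49.Dang.Setup

/-!
# Block da03 (helper29): an orthogonal basis of the complex tangent space avoiding a hypersurface
-/

namespace Pool.Agent.Lib_helper49.Dang

open MvPolynomial Pool.Agent.Lib_helper26.Ebe

section da03

variable {n : ℕ}

theorem da03_eval (a x e : Fin n → ℂ) (f : A n) (u : ℂ) :
    (lin a x e f).eval u = eval (Sum.elim a (x + u • e)) f := by
  induction f using MvPolynomial.induction_on with
  | C c => simp [lin]
  | add p q hp hq => rw [map_add, Polynomial.eval_add, map_add, hp, hq]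
  | mul_X p i hp =>
    rw [map_mul, Polynomial.eval_mul, map_mul, hp]
    congr 1
    cases i with
    | inl i => simp [lin]
    | inr i =>
      simp [lin]
      ring

/-- The linear form `ip · y`. -/
noncomputable def da03_ip (y : Fin n → ℂ) : (Fin n → ℂ) →ₗ[ℂ] ℂ where
  toFun x := ip x y
  map_add' x x' := by
    simp only [ip, Pi.add_apply, add_mul, Finset.sum_add_distrib]
  map_smul' c x := by
    simp only [ip, Pi.smul_apply, smul_eq_mul, mul_assoc, Finset.mul_sum, RingHom.id_apply]

theorem da03_ip_add (x x' y : Fin n → ℂ) : ip (x + x') y = ip x y + ip x' y :=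
  (da03_ip y).map_add x x'

theorem da03_ip_smul (c : ℂ) (x y : Fin n → ℂ) : ip (c • x) y = c * ip x y :=
  (da03_ip y).map_smul c x

theorem da03_ip_conj (x y : Fin n → ℂ) : (starRingEnd ℂ) (ip x y) = ip y x := by
  simp only [ip, map_sum, map_mul, Complex.conj_conj]
  exact Finset.sum_congr rfl fun i _ => mul_comm _ _

theorem da03_ip_self (x : Fin n → ℂ) : ip x x = ((∑ i, ‖x i‖ ^ 2 : ℝ) : ℂ) := by
  simp only [ip, Complex.mul_conj, Complex.normSq_eq_norm_sq]
  push_cast
  rfl

theorem da03_ip_self_ne {x : Fin n → ℂ} (hx : x ≠ 0) : ip x x ≠ 0 := by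
  rw [da03_ip_self]
  obtain ⟨i, hi⟩ : ∃ i, x i ≠ 0 := by
    by_contra h
    push Not at h
    exact hx (funext h)
  have h1 : 0 < ∑ i, ‖x i‖ ^ 2 :=
    Finset.sum_pos' (fun j _ => by positivity) ⟨i, Finset.mem_univ i, by positivity⟩
  exact_mod_cast h1.ne'

theorem da03_ip_zero (y : Fin n → ℂ) : ip 0 y = 0 := (da03_ip y).map_zero

theorem da03_nonzero (f : A n) (a : Fin n → ℂ) (W : Submodule ℂ (Fin n → ℂ))
    (hW : ∃ e ∈ W, e ≠ 0) (hx : ∃ x ∈ W, eval (Sum.elim a x) f ≠ 0) :
    ∃ x ∈ W, x ≠ 0 ∧ eval (Sum.elim a x) f ≠ 0 := by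
  obtain ⟨x, hxW, hx⟩ := hx
  obtain ⟨e, heW, he⟩ := hW
  by_cases h0 : x = 0
  · subst h0
    have hp : lin a 0 e f ≠ 0 := by
      intro h
      apply hx
      have := da03_eval a 0 e f 0
      rw [h, Polynomial.eval_zero, zero_smul, add_zero] at this
      exact this.symm
    obtain ⟨u, hu⟩ := Infinite.exists_notMem_finset (insert 0 (lin a 0 e f).roots.toFinset)
    rw [Finset.mem_insert, not_or, Multiset.mem_toFinset, Polynomial.mem_roots hp] at hu
    refine ⟨u • e, W.smul_mem u heW, smul_ne_zero hu.1 he, ?_⟩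
    intro h
    apply hu.2
    rw [Polynomial.IsRoot, da03_eval, zero_add]
    exact h
  · exact ⟨x, hxW, h0, hx⟩

theorem da03_ker (W : Submodule ℂ (Fin n → ℂ)) (y : Fin n → ℂ) (hy : y ∈ W) (hy0 : y ≠ 0) :
    ∃ W' : Submodule ℂ (Fin n → ℂ), (∀ x, x ∈ W' ↔ x ∈ W ∧ ip x y = 0) ∧
      Module.finrank ℂ W' + 1 = Module.finrank ℂ W := by
  let f : W →ₗ[ℂ] ℂ := (da03_ip y).domRestrict W
  have hf : f ≠ 0 := by
    intro h
    have := LinearMap.congr_fun h ⟨y, hy⟩
    exact da03_ip_self_ne hy0 this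
  refine ⟨(LinearMap.ker f).map W.subtype, ?_, ?_⟩
  · intro x
    constructor
    · rintro ⟨z, hz, rfl⟩
      exact ⟨z.2, hz⟩
    · rintro ⟨h1, h2⟩
      exact ⟨⟨x, h1⟩, h2, rfl⟩
  · rw [Submodule.finrank_map_subtype_eq]
    exact Module.Dual.finrank_ker_add_one_of_ne_zero hf

theorem da03_main (f : A n) (a : Fin n → ℂ) (m : ℕ) : ∀ (W : Submodule ℂ (Fin n → ℂ)),
    Module.finrank ℂ W = m → (∃ x ∈ W, eval (Sum.elim a x) f ≠ 0) →
    ∃ b : Fin m → (Fin n → ℂ), (∀ k, b k ∈ W) ∧ (∀ k, b k ≠ 0) ∧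
      (∀ k l, k ≠ l → ip (b k) (b l) = 0) ∧ ∀ k, eval (Sum.elim a (b k)) f ≠ 0 := by
  induction m with
  | zero => exact fun W _ _ => ⟨Fin.elim0, fun k => k.elim0, fun k => k.elim0,
      fun k => k.elim0, fun k => k.elim0⟩
  | succ m ih =>
    intro W hW hx
    have hWne : ∃ e ∈ W, e ≠ 0 := by
      by_contra h
      push Not at h
      have : W = ⊥ := by
        rw [eq_bot_iff]
        exact fun e he => (Submodule.mem_bot ℂ).2 (h e he)
      rw [this, finrank_bot] at hW
      omega
    obtain ⟨x0, hx0W, hx0, hx0f⟩ := da03_nonzero f a W hWne hx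
    obtain ⟨W0, hW0, hfr0⟩ := da03_ker W x0 hx0W hx0
    rcases Nat.eq_zero_or_pos m with rfl | hm
    · refine ⟨fun _ => x0, fun _ => hx0W, fun _ => hx0, fun k l hkl => ?_, fun _ => hx0f⟩
      exact absurd (Fin.ext (by omega)) hkl
    · -- choose e
      obtain ⟨e, heW0, he⟩ : ∃ e ∈ W0, e ≠ 0 := by
        by_contra h
        push Not at h
        have : W0 = ⊥ := by
          rw [eq_bot_iff]
          exact fun e he => (Submodule.mem_bot ℂ).2 (h e he)
        rw [this, finrank_bot] at hfr0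
        omega
      obtain ⟨heW, hex⟩ := (hW0 e).1 heW0
      have hxe : ip x0 e = 0 := by
        rw [← da03_ip_conj, hex, map_zero]
      set p := lin a x0 e f with hp
      have hpne : p ≠ 0 := by
        intro h
        apply hx0f
        have := da03_eval a x0 e f 0
        rw [← hp, h, Polynomial.eval_zero, zero_smul, add_zero] at this
        exact this.symm
      have hee := da03_ip_self_ne he
      have hxx := da03_ip_self_ne hx0
      set c : ℂ := ip x0 x0 / ip e e with hc
      have hc0 : c ≠ 0 := div_ne_zero hxx hee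
      have hconj : (starRingEnd ℂ) c = c := by
        rw [hc, map_div₀, da03_ip_conj, da03_ip_conj]
      obtain ⟨u, hu⟩ := Infinite.exists_notMem_finset
        (insert 0 (p.roots.toFinset ∪ p.roots.toFinset.image
          (fun r => (starRingEnd ℂ) (-c / r))))
      rw [Finset.mem_insert, not_or, Finset.mem_union, not_or, Multiset.mem_toFinset,
        Polynomial.mem_roots hpne] at hu
      obtain ⟨hu0, hu1, hu2⟩ := hu
      have hcu : (starRingEnd ℂ) u ≠ 0 := by
        rwa [Ne, map_eq_zero]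
      have hy1 : ¬ p.IsRoot (-c / (starRingEnd ℂ) u) := by
        intro hr
        apply hu2
        rw [Finset.mem_image]
        refine ⟨-c / (starRingEnd ℂ) u, ?_, ?_⟩
        · rw [Multiset.mem_toFinset, Polynomial.mem_roots hpne]
          exact hr
        · have : -c / (-c / (starRingEnd ℂ) u) = (starRingEnd ℂ) u := by
            field_simp
          rw [this, Complex.conj_conj]
      set xu : Fin n → ℂ := x0 + u • e with hxu
      set yu : Fin n → ℂ := x0 + (-c / (starRingEnd ℂ) u) • e with hyu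
      have hxuW : xu ∈ W := W.add_mem hx0W (W.smul_mem _ heW)
      have hyuW : yu ∈ W := W.add_mem hx0W (W.smul_mem _ heW)
      have hxu0 : xu ≠ 0 := by
        intro h
        have h1 : ip xu x0 = ip x0 x0 := by
          rw [hxu, da03_ip_add, da03_ip_smul, hex, mul_zero, add_zero]
        rw [h, da03_ip_zero] at h1
        exact hxx h1.symm
      have h1 : ip xu e = u * ip e e := by
        rw [hxu, da03_ip_add, da03_ip_smul, hxe, zero_add]
      have h2 : ip xu x0 = ip x0 x0 := by
        rw [hxu, da03_ip_add, da03_ip_smul, hex, mul_zero, add_zero]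
      have h3 : ip yu xu = 0 := by
        rw [hyu, da03_ip_add, da03_ip_smul, ← da03_ip_conj xu x0, ← da03_ip_conj xu e, h1, h2,
          map_mul, da03_ip_conj, da03_ip_conj, hc]
        field_simp
        ring
      obtain ⟨W', hW', hfr'⟩ := da03_ker W xu hxuW hxu0
      obtain ⟨b, hb1, hb2, hb3, hb4⟩ := ih W' (by omega) ⟨yu, (hW' yu).2 ⟨hyuW, h3⟩, by
        rw [hyu, ← da03_eval]
        exact hy1⟩
      have hbx : ∀ k, ip (b k) xu = 0 := fun k => ((hW' _).1 (hb1 k)).2
      have hxb : ∀ k, ip xu (b k) = 0 := fun k => by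
        rw [← da03_ip_conj, hbx k, map_zero]
      refine ⟨Fin.cons xu b, ?_, ?_, ?_, ?_⟩
      · intro k
        refine Fin.cases ?_ (fun k => ?_) k
        · exact hxuW
        · exact ((hW' _).1 (hb1 k)).1
      · intro k
        refine Fin.cases ?_ (fun k => ?_) k
        · exact hxu0
        · exact hb2 k
      · intro k l
        refine Fin.cases ?_ (fun k => ?_) k
        · refine Fin.cases ?_ (fun l => ?_) l
          · intro h
            exact absurd rfl h
          · intro _
            exact hxb l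
        · refine Fin.cases ?_ (fun l => ?_) l
          · intro _
            exact hbx k
          · intro h
            exact hb3 k l (fun h' => h (by rw [h']))
      · intro k
        refine Fin.cases ?_ (fun k => ?_) k
        · rw [Fin.cons_zero, hxu, ← da03_eval]
          exact hu1
        · exact hb4 k

theorem exists_orthogonal (hn : 2 ≤ n) (Φ : MvPolynomial (Fin n ⊕ Fin n) ℂ) (a x : Fin n → ℂ)
    (ha : OnSphere a) (hx : ip x a = 0) (h : eval (Sum.elim a x) Φ ≠ 0) :
    ∃ b : Fin (n - 1) → (Fin n → ℂ), (∀ k, ip (b k) a = 0) ∧ (∀ k, b k ≠ 0) ∧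
      (∀ k l, k ≠ l → ip (b k) (b l) = 0) ∧ ∀ k, eval (Sum.elim a (b k)) Φ ≠ 0 := by
  have ha0 : a ≠ 0 := by
    rintro rfl
    simp [OnSphere] at ha
  obtain ⟨W', hW', hfr⟩ := da03_ker ⊤ a Submodule.mem_top ha0
  rw [finrank_top, Module.finrank_fin_fun] at hfr
  obtain ⟨b, hb1, hb2, hb3, hb4⟩ := da03_main Φ a (n - 1) W' (by omega)
    ⟨x, (hW' x).2 ⟨Submodule.mem_top, hx⟩, h⟩
  exact ⟨b, fun k => ((hW' _).1 (hb1 k)).2, hb2, hb3, hb4⟩

end da03

end Pool.Agent.Lib_helper49.Dang
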