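import Pool.Agent.Lib_helper49.Dang.Setup

/-!
# Block da04: Taylor expansion
-/

namespace Pool.Agent.Lib_helper49.Dang

open MvPolynomial Pool.Agent.Lib_helper26.Ebe

variable {n N d : ℕ} {P : Fin (N + 1) → MvPolynomial (Fin n) ℂ}

theorem da04_ev (a x : Fin n → ℂ) (t : ℂ) (f : MvPolynomial (Fin n) ℂ) :
    Polynomial.eval₂ (eval (Sum.elim a x)) t (tay f) = eval (a + t • x) f := by
  have h : (Polynomial.eval₂RingHom (eval (Sum.elim a x)) t).comp (tay (n := n)).toRingHom =
      eval (a + t • x) := by
    refine MvPolynomial.ringHom_ext (fun r => ?_) (fun i => ?_)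
    · simp [tay, MvPolynomial.algebraMap_eq, Polynomial.algebraMap_apply]
    · simp [tay]
      ring
  exact congrArg (fun φ => φ f) h

theorem da04_natDegree (f : MvPolynomial (Fin n) ℂ) : (tay f).natDegree ≤ f.totalDegree := by
  unfold tay
  rw [aeval_def, eval₂_eq']
  refine Polynomial.natDegree_sum_le_of_forall_le _ _ fun m hm => ?_
  have h1 : (algebraMap ℂ (Polynomial (A n)) (coeff m f)).natDegree = 0 := by
    rw [Polynomial.algebraMap_apply]
    exact Polynomial.natDegree_C _
  refine Polynomial.natDegree_mul_le.trans ?_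
  rw [h1, zero_add]
  refine (Polynomial.natDegree_prod_le _ _).trans ?_
  refine le_trans (Finset.sum_le_sum fun i _ => (Polynomial.natDegree_pow_le (n := m i)).trans
    (Nat.mul_le_mul_left (m i) (?_ : _ ≤ 1))) ?_
  · refine (Polynomial.natDegree_add_le _ _).trans (max_le ?_ ?_)
    · rw [Polynomial.natDegree_C]; exact Nat.zero_le _
    · exact (Polynomial.natDegree_C_mul_le _ _).trans Polynomial.natDegree_X_le
  · have := le_totalDegree hm
    rw [Finsupp.sum_fintype _ _ (fun _ => rfl)] at this
    simpa using this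

theorem sum_Fv (hd : ∀ i, (P i).totalDegree ≤ d) (a x : Fin n → ℂ) (t : ℂ)
    (i : Fin (N + 1)) :
    ∑ r ∈ Finset.range (d + 1), Fv P a x r i * t ^ r = eval (a + t • x) (P i) := by
  rw [← da04_ev, Polynomial.eval₂_eq_sum_range' _
    (Nat.lt_succ_of_le ((da04_natDegree (P i)).trans (hd i)))]
  rfl

theorem Fc_eq_zero (hd : ∀ i, (P i).totalDegree ≤ d) {r : ℕ} (hr : d < r)
    (i : Fin (N + 1)) : Fc P r i = 0 :=
  Polynomial.coeff_eq_zero_of_natDegree_lt
    (((da04_natDegree (P i)).trans (hd i)).trans_lt hr)

/-- The substitution `a = 0`. -/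
noncomputable def da04_psi : A n →ₐ[ℂ] MvPolynomial (Fin n) ℂ :=
  aeval (Sum.elim (fun _ => 0) X)

theorem da04_hom (f : MvPolynomial (Fin n) ℂ) (r : ℕ) :
    da04_psi ((tay f).coeff r) = homogeneousComponent r f := by
  induction f using MvPolynomial.induction_on' with
  | monomial m c =>
    have h1 : Polynomial.map (da04_psi (n := n)).toRingHom (tay (monomial m c)) =
        Polynomial.C (monomial m c) * Polynomial.X ^ m.degree := by
      unfold tay
      rw [aeval_monomial, Polynomial.map_mul, Polynomial.algebraMap_apply, Polynomial.map_C,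
        Finsupp.prod_fintype _ _ (fun _ => pow_zero _), Polynomial.map_prod]
      have h2 : ∀ i ∈ (Finset.univ : Finset (Fin n)),
          Polynomial.map (da04_psi (n := n)).toRingHom
            ((Polynomial.C (X (Sum.inl i)) +
              Polynomial.C (X (Sum.inr i)) * Polynomial.X : Polynomial (A n)) ^ m i) =
          Polynomial.C (X i ^ m i) * Polynomial.X ^ m i := by
        intro i _
        simp [da04_psi, mul_pow]
      rw [Finset.prod_congr rfl h2, Finset.prod_mul_distrib, Finset.prod_pow_eq_pow_sum,
        ← map_prod, ← mul_assoc, ← Polynomial.C_mul]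
      congr 2
      · rw [monomial_eq, Finsupp.prod_fintype _ _ (fun _ => pow_zero _)]
        congr 1
        simp [da04_psi, MvPolynomial.algebraMap_eq]
      · rw [Finsupp.degree_eq_sum]
    have h3 : da04_psi ((tay (monomial m c)).coeff r) =
        (Polynomial.map (da04_psi (n := n)).toRingHom (tay (monomial m c))).coeff r := by
      rw [Polynomial.coeff_map]; rfl
    rw [h3, h1, Polynomial.coeff_C_mul_X_pow]
    ext k
    rw [coeff_homogeneousComponent]
    by_cases hr : r = m.degree
    · rw [if_pos hr]
      by_cases hk : k = m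
      · subst hk; rw [if_pos hr.symm]
      · have : coeff k (monomial m c) = 0 := by rw [coeff_monomial, if_neg (Ne.symm hk)]
        rw [this]; simp
    · rw [if_neg hr]
      by_cases hk : k = m
      · subst hk; rw [if_neg (Ne.symm hr)]; simp
      · have : coeff k (monomial m c) = 0 := by rw [coeff_monomial, if_neg (Ne.symm hk)]
        rw [this]; simp
  | add p q hp hq =>
    rw [map_add, Polynomial.coeff_add, map_add, hp, hq, map_add]

theorem Fc_top_ne_zero (i : Fin (N + 1)) (hi : (P i).totalDegree = d) (h0 : P i ≠ 0) :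
    Fc P d i ≠ 0 := by
  intro h
  have h1 := da04_hom (P i) d
  have h2 : (tay (P i)).coeff d = 0 := h
  rw [h2, map_zero] at h1
  obtain ⟨m, hm, hm2⟩ := Finset.exists_mem_eq_sup (P i).support
    (Finset.nonempty_of_ne_empty (by simpa using h0)) (fun s => s.sum fun _ e => e)
  have h3 : m.degree = d := by
    rw [← hi]
    exact hm2.symm
  have h4 : coeff m (homogeneousComponent d (P i)) = coeff m (P i) := by
    rw [coeff_homogeneousComponent, if_pos h3]
  rw [← h1, coeff_zero] at h4
  exact (mem_support_iff.mp hm) h4.symm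

theorem Fc_zero (i : Fin (N + 1)) : Fc P 0 i = rename Sum.inl (P i) := by
  have h : (Polynomial.constantCoeff : Polynomial (A n) →+* A n).comp (tay (n := n)).toRingHom =
      (rename Sum.inl : MvPolynomial (Fin n) ℂ →ₐ[ℂ] A n).toRingHom := by
    refine MvPolynomial.ringHom_ext (fun r => ?_) (fun i => ?_)
    · simp [tay, MvPolynomial.algebraMap_eq, Polynomial.algebraMap_apply]
    · simp [tay]
  exact congrArg (fun φ => φ (P i)) h

theorem Fv_smul (a x : Fin n → ℂ) (c : ℂ) (r : ℕ) :
    Fv P a (c • x) r = c ^ r • Fv P a x r := by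
  funext i
  have h : (Polynomial.mapRingHom (eval (Sum.elim a (c • x)))).comp (tay (n := n)).toRingHom =
      (Polynomial.compRingHom (Polynomial.C c * Polynomial.X)).comp
        ((Polynomial.mapRingHom (eval (Sum.elim a x))).comp (tay (n := n)).toRingHom) := by
    refine MvPolynomial.ringHom_ext (fun r => ?_) (fun i => ?_)
    · simp [tay, MvPolynomial.algebraMap_eq, Polynomial.algebraMap_apply]
    · simp [tay]
      ring
  have h1 : Polynomial.map (eval (Sum.elim a (c • x))) (tay (P i)) =
      (Polynomial.map (eval (Sum.elim a x)) (tay (P i))).comp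
        (Polynomial.C c * Polynomial.X) := congrArg (fun φ => φ (P i)) h
  have h2 := congrArg (fun p => p.coeff r) h1
  simp only [Polynomial.coeff_map, Polynomial.comp_C_mul_X_coeff] at h2
  rw [Pi.smul_apply, smul_eq_mul, mul_comm]
  exact h2

end Pool.Agent.Lib_helper49.Dang
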