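import Pool.Agent.Lib_helper49.Dang.Setup

/-! Block da05 -/

namespace Pool.Agent.Lib_helper49.Dang

open MvPolynomial Pool.Agent.Lib_helper26.Ebe

variable {n N : ℕ}

theorem da05_sum_apply {ι : Type*} (s : Finset ι) (D : ι → Derivation ℂ (A n) (A n)) (x : A n) :
    (∑ j ∈ s, D j) x = ∑ j ∈ s, D j x := by
  classical
  induction s using Finset.induction_on with
  | empty => simp
  | insert a s ha ih => rw [Finset.sum_insert ha, Finset.sum_insert ha, Derivation.add_apply, ih]

theorem da05_Da_inl (y : Fin n → ℂ) (i : Fin n) : Da y (X (Sum.inl i)) = C (y i) := by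
  classical
  simp only [Da, da05_sum_apply, Derivation.smul_apply, smul_eq_mul]
  rw [Finset.sum_eq_single i]
  · rw [pderiv_X_self, mul_one]
  · intro j _ hj
    rw [pderiv_X_of_ne (by simpa using fun h => hj h.symm), mul_zero]
  · intro h; exact absurd (Finset.mem_univ i) h

theorem da05_Da_inr (y : Fin n → ℂ) (i : Fin n) : Da y (X (Sum.inr i)) = 0 := by
  classical
  simp only [Da, da05_sum_apply, Derivation.smul_apply, smul_eq_mul]
  apply Finset.sum_eq_zero
  intro j _
  rw [pderiv_X_of_ne (by simp), mul_zero]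

theorem da05_Dx_inr (y : Fin n → ℂ) (i : Fin n) : Dx y (X (Sum.inr i)) = C (y i) := by
  classical
  simp only [Dx, da05_sum_apply, Derivation.smul_apply, smul_eq_mul]
  rw [Finset.sum_eq_single i]
  · rw [pderiv_X_self, mul_one]
  · intro j _ hj
    rw [pderiv_X_of_ne (by simpa using fun h => hj h.symm), mul_zero]
  · intro h; exact absurd (Finset.mem_univ i) h

theorem da05_Dx_inl (y : Fin n → ℂ) (i : Fin n) : Dx y (X (Sum.inl i)) = 0 := by
  classical
  simp only [Dx, da05_sum_apply, Derivation.smul_apply, smul_eq_mul]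
  apply Finset.sum_eq_zero
  intro j _
  rw [pderiv_X_of_ne (by simp), mul_zero]

theorem da05_De_inl (i : Fin n) : De n (X (Sum.inl i)) = X (Sum.inr i) := by
  classical
  simp only [De, da05_sum_apply, Derivation.smul_apply, smul_eq_mul]
  rw [Finset.sum_eq_single i]
  · rw [pderiv_X_self, mul_one]
  · intro j _ hj
    rw [pderiv_X_of_ne (by simpa using fun h => hj h.symm), mul_zero]
  · intro h; exact absurd (Finset.mem_univ i) h

theorem da05_De_inr (i : Fin n) : De n (X (Sum.inr i)) = 0 := by
  classical
  simp only [De, da05_sum_apply, Derivation.smul_apply, smul_eq_mul]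
  apply Finset.sum_eq_zero
  intro j _
  rw [pderiv_X_of_ne (by simp), mul_zero]

theorem da05_C (D : Derivation ℂ (A n) (A n)) (c : ℂ) : D (C c) = 0 := by
  have : (C c : A n) = algebraMap ℂ (A n) c := rfl
  rw [this, Derivation.map_algebraMap]

theorem da05_tay_C (c : ℂ) : tay (n := n) (C c) = Polynomial.C (C c) := by
  have : (C c : MvPolynomial (Fin n) ℂ) = algebraMap ℂ _ c := rfl
  rw [this, AlgHom.commutes]
  rfl

theorem da05_tay_mul (f : MvPolynomial (Fin n) ℂ) (i : Fin n) :
    tay (f * X i) = tay f * Polynomial.C (X (Sum.inl i)) +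
      tay f * Polynomial.C (X (Sum.inr i)) * Polynomial.X := by
  rw [map_mul]
  have : tay (X i : MvPolynomial (Fin n) ℂ) =
      Polynomial.C (X (Sum.inl i)) + Polynomial.C (X (Sum.inr i)) * Polynomial.X := by
    rw [tay, aeval_X]
  rw [this]; ring

theorem da05_coeff_zero (f : MvPolynomial (Fin n) ℂ) (i : Fin n) :
    (tay (f * X i)).coeff 0 = (tay f).coeff 0 * X (Sum.inl i) := by
  rw [da05_tay_mul, Polynomial.coeff_add, Polynomial.coeff_mul_C, Polynomial.mul_coeff_zero,
    Polynomial.coeff_X_zero, mul_zero, add_zero]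

theorem da05_coeff_succ (f : MvPolynomial (Fin n) ℂ) (i : Fin n) (r : ℕ) :
    (tay (f * X i)).coeff (r + 1) = (tay f).coeff (r + 1) * X (Sum.inl i) +
      (tay f).coeff r * X (Sum.inr i) := by
  rw [da05_tay_mul, Polynomial.coeff_add, Polynomial.coeff_mul_C, Polynomial.coeff_mul_X,
    Polynomial.coeff_mul_C]

theorem da05_main0 (y : Fin n → ℂ) (f : MvPolynomial (Fin n) ℂ) :
    Dx y ((tay f).coeff 0) = 0 := by
  induction f using MvPolynomial.induction_on with
  | C c => rw [da05_tay_C, Polynomial.coeff_C_zero, da05_C]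
  | add f g hf hg => rw [map_add, Polynomial.coeff_add, map_add, hf, hg, add_zero]
  | mul_X f i hf =>
    rw [da05_coeff_zero, Derivation.leibniz, hf, da05_Dx_inl, smul_zero, smul_zero, add_zero]

theorem da05_main (y : Fin n → ℂ) (f : MvPolynomial (Fin n) ℂ) :
    ∀ r, Da y ((tay f).coeff r) = Dx y ((tay f).coeff (r + 1)) := by
  induction f using MvPolynomial.induction_on with
  | C c =>
    intro r
    rw [da05_tay_C, Polynomial.coeff_C_succ, map_zero]
    cases r with
    | zero => rw [Polynomial.coeff_C_zero, da05_C]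
    | succ r => rw [Polynomial.coeff_C_succ, map_zero]
  | add f g hf hg =>
    intro r
    rw [map_add, Polynomial.coeff_add, Polynomial.coeff_add, map_add, map_add, hf, hg]
  | mul_X f i hf =>
    intro r
    cases r with
    | zero =>
      rw [da05_coeff_zero, da05_coeff_succ, map_add, Derivation.leibniz, Derivation.leibniz,
        Derivation.leibniz, hf 0, da05_main0, da05_Da_inl, da05_Dx_inl, da05_Dx_inr]
      simp only [smul_eq_mul, mul_zero, zero_add, add_zero]
      ring
    | succ r =>
      rw [da05_coeff_succ, da05_coeff_succ, map_add, map_add, Derivation.leibniz,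
        Derivation.leibniz, Derivation.leibniz, Derivation.leibniz, hf r, hf (r + 1), da05_Da_inl,
        da05_Da_inr, da05_Dx_inl, da05_Dx_inr]
      simp only [smul_eq_mul, mul_zero, zero_add]
      ring

theorem da05_mainE (f : MvPolynomial (Fin n) ℂ) :
    ∀ r : ℕ, De n ((tay f).coeff r) = ((r : A n) + 1) * (tay f).coeff (r + 1) := by
  induction f using MvPolynomial.induction_on with
  | C c =>
    intro r
    rw [da05_tay_C, Polynomial.coeff_C_succ, mul_zero]
    cases r with
    | zero => rw [Polynomial.coeff_C_zero, da05_C]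
    | succ r => rw [Polynomial.coeff_C_succ, map_zero]
  | add f g hf hg =>
    intro r
    rw [map_add, Polynomial.coeff_add, Polynomial.coeff_add, map_add, hf, hg]
    ring
  | mul_X f i hf =>
    intro r
    cases r with
    | zero =>
      rw [da05_coeff_zero, da05_coeff_succ, Derivation.leibniz, hf 0, da05_De_inl]
      simp only [smul_eq_mul, Nat.cast_zero]
      ring
    | succ r =>
      rw [da05_coeff_succ, da05_coeff_succ, map_add, Derivation.leibniz,
        Derivation.leibniz, hf r, hf (r + 1), da05_De_inl, da05_De_inr]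
      simp only [smul_eq_mul, mul_zero, zero_add, Nat.cast_add, Nat.cast_one]
      ring

variable {P : Fin (N + 1) → MvPolynomial (Fin n) ℂ}

/-- Block da05: the derivations. -/
theorem Da_Fc (y : Fin n → ℂ) (r : ℕ) (i : Fin (N + 1)) :
    Da y (Fc P r i) = Dx y (Fc P (r + 1) i) := da05_main y (P i) r

theorem Dx_Fc_zero (y : Fin n → ℂ) (i : Fin (N + 1)) : Dx y (Fc P 0 i) = 0 :=
  da05_main0 y (P i)

theorem De_Fc (r : ℕ) (i : Fin (N + 1)) :
    De n (Fc P r i) = ((r : A n) + 1) * Fc P (r + 1) i := da05_mainE (P i) r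

end Pool.Agent.Lib_helper49.Dang
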