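import Pool.Agent.Lib_helper49.Dang.Setup

/-! Block da06 -/

namespace Pool.Agent.Lib_helper49.Dang

open MvPolynomial Pool.Agent.Lib_helper26.Ebe

variable {n N : ℕ}

theorem da06_sum_apply {ι : Type*} (s : Finset ι) (D : ι → Derivation ℂ (A n) (A n)) (x : A n) :
    (∑ j ∈ s, D j) x = ∑ j ∈ s, D j x := by
  classical
  induction s using Finset.induction_on with
  | empty => simp
  | insert a s ha ih => rw [Finset.sum_insert ha, Finset.sum_insert ha, Derivation.add_apply, ih]

theorem da06_Dx_inr (y : Fin n → ℂ) (i : Fin n) : Dx y (X (Sum.inr i)) = C (y i) := by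
  classical
  simp only [Dx, da06_sum_apply, Derivation.smul_apply, smul_eq_mul]
  rw [Finset.sum_eq_single i]
  · rw [pderiv_X_self, mul_one]
  · intro j _ hj
    rw [pderiv_X_of_ne (by simpa using fun h => hj h.symm), mul_zero]
  · intro h; exact absurd (Finset.mem_univ i) h

theorem da06_Dx_inl (y : Fin n → ℂ) (i : Fin n) : Dx y (X (Sum.inl i)) = 0 := by
  classical
  simp only [Dx, da06_sum_apply, Derivation.smul_apply, smul_eq_mul]
  apply Finset.sum_eq_zero
  intro j _
  rw [pderiv_X_of_ne (by simp), mul_zero]

theorem da06_lin_C (a x e : Fin n → ℂ) (c : ℂ) : lin a x e (C c) = Polynomial.C c := by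
  have : (C c : A n) = algebraMap ℂ _ c := rfl
  rw [this, AlgHom.commutes]
  rfl

theorem da06_lin_inl (a x e : Fin n → ℂ) (i : Fin n) :
    lin a x e (X (Sum.inl i)) = Polynomial.C (a i) := by
  rw [lin, aeval_X]; rfl

theorem da06_lin_inr (a x e : Fin n → ℂ) (i : Fin n) :
    lin a x e (X (Sum.inr i)) = Polynomial.C (x i) + Polynomial.C (e i) * Polynomial.X := by
  rw [lin, aeval_X]; rfl

/-- Block da06: the restriction to `x + u e`. -/
theorem eval_lin (a x e : Fin n → ℂ) (u : ℂ) (f : A n) :
    (lin a x e f).eval u = eval (Sum.elim a (x + u • e)) f := by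
  induction f using MvPolynomial.induction_on with
  | C c => rw [da06_lin_C, Polynomial.eval_C, eval_C]
  | add f g hf hg => rw [map_add, Polynomial.eval_add, hf, hg, map_add]
  | mul_X f i hf =>
    rw [map_mul, Polynomial.eval_mul, hf, map_mul, eval_X]
    congr 1
    cases i with
    | inl i => rw [da06_lin_inl, Polynomial.eval_C]; rfl
    | inr i =>
      rw [da06_lin_inr]
      simp only [Polynomial.eval_add, Polynomial.eval_mul, Polynomial.eval_C, Polynomial.eval_X,
        Sum.elim_inr, Pi.add_apply, Pi.smul_apply, smul_eq_mul]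
      ring

theorem derivative_lin (a x e : Fin n → ℂ) (f : A n) :
    Polynomial.derivative (lin a x e f) = lin a x e (Dx e f) := by
  induction f using MvPolynomial.induction_on with
  | C c =>
    have h : (C c : A n) = algebraMap ℂ _ c := rfl
    rw [da06_lin_C, Polynomial.derivative_C, h, Derivation.map_algebraMap, map_zero]
  | add f g hf hg => rw [map_add, Polynomial.derivative_add, hf, hg, map_add, map_add]
  | mul_X f i hf =>
    rw [map_mul, Polynomial.derivative_mul, hf, Derivation.leibniz, map_add, smul_eq_mul,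
      smul_eq_mul, map_mul, map_mul]
    cases i with
    | inl i =>
      rw [da06_lin_inl, da06_Dx_inl, Polynomial.derivative_C, map_zero]
      ring
    | inr i =>
      rw [da06_lin_inr, da06_Dx_inr, da06_lin_C]
      simp only [Polynomial.derivative_add, Polynomial.derivative_mul, Polynomial.derivative_C,
        Polynomial.derivative_X]
      ring

theorem da06_tay_C (c : ℂ) : tay (n := n) (C c) = Polynomial.C (C c) := by
  have : (C c : MvPolynomial (Fin n) ℂ) = algebraMap ℂ _ c := rfl
  rw [this, AlgHom.commutes]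
  rfl

theorem da06_tay_mul (f : MvPolynomial (Fin n) ℂ) (i : Fin n) :
    tay (f * X i) = tay f * Polynomial.C (X (Sum.inl i)) +
      tay f * Polynomial.C (X (Sum.inr i)) * Polynomial.X := by
  rw [map_mul]
  have : tay (X i : MvPolynomial (Fin n) ℂ) =
      Polynomial.C (X (Sum.inl i)) + Polynomial.C (X (Sum.inr i)) * Polynomial.X := by
    rw [tay, aeval_X]
  rw [this]; ring

theorem da06_coeff_zero (f : MvPolynomial (Fin n) ℂ) (i : Fin n) :
    (tay (f * X i)).coeff 0 = (tay f).coeff 0 * X (Sum.inl i) := by
  rw [da06_tay_mul, Polynomial.coeff_add, Polynomial.coeff_mul_C, Polynomial.mul_coeff_zero,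
    Polynomial.coeff_X_zero, mul_zero, add_zero]

theorem da06_coeff_succ (f : MvPolynomial (Fin n) ℂ) (i : Fin n) (r : ℕ) :
    (tay (f * X i)).coeff (r + 1) = (tay f).coeff (r + 1) * X (Sum.inl i) +
      (tay f).coeff r * X (Sum.inr i) := by
  rw [da06_tay_mul, Polynomial.coeff_add, Polynomial.coeff_mul_C, Polynomial.coeff_mul_X,
    Polynomial.coeff_mul_C]

theorem da06_natDegree (a x e : Fin n → ℂ) (f : MvPolynomial (Fin n) ℂ) :
    ∀ r : ℕ, (lin a x e ((tay f).coeff r)).natDegree ≤ r := by
  induction f using MvPolynomial.induction_on with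
  | C c =>
    intro r
    rw [da06_tay_C]
    cases r with
    | zero => rw [Polynomial.coeff_C_zero, da06_lin_C, Polynomial.natDegree_C]
    | succ r => rw [Polynomial.coeff_C_succ, map_zero, Polynomial.natDegree_zero]; omega
  | add f g hf hg =>
    intro r
    rw [map_add, Polynomial.coeff_add, map_add]
    exact (Polynomial.natDegree_add_le _ _).trans (max_le (hf r) (hg r))
  | mul_X f i hf =>
    intro r
    cases r with
    | zero =>
      rw [da06_coeff_zero, map_mul, da06_lin_inl]
      exact (Polynomial.natDegree_mul_C_le _ _).trans (hf 0)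
    | succ r =>
      rw [da06_coeff_succ, map_add, map_mul, map_mul, da06_lin_inl, da06_lin_inr]
      refine (Polynomial.natDegree_add_le _ _).trans (max_le ?_ ?_)
      · exact (Polynomial.natDegree_mul_C_le _ _).trans (hf (r + 1))
      · refine Polynomial.natDegree_mul_le.trans (add_le_add (hf r) ?_)
        refine (Polynomial.natDegree_add_le _ _).trans (max_le ?_ ?_)
        · rw [Polynomial.natDegree_C]; omega
        · exact (Polynomial.natDegree_C_mul_le _ _).trans Polynomial.natDegree_X_le

variable {P : Fin (N + 1) → MvPolynomial (Fin n) ℂ}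

theorem natDegree_lin (a x e : Fin n → ℂ) (r : ℕ) (i : Fin (N + 1)) :
    (lin a x e (Fc P r i)).natDegree ≤ r := da06_natDegree a x e (P i) r

theorem eval_cjp (f : Polynomial ℂ) (v : ℂ) :
    (cjp f).eval v = (starRingEnd ℂ) (f.eval ((starRingEnd ℂ) v)) := by
  conv_lhs => rw [← Complex.conj_conj v]
  rw [cjp, Polynomial.coe_mapRingHom, Polynomial.eval_map_apply]

end Pool.Agent.Lib_helper49.Dang
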