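import Pool.Agent.Lib_helper49.Dang.Setup
import Pool.Agent.Lib_helper49.Dang.B01
import Pool.Agent.Lib_helper49.Dang.B04

/-!
# Block da07: orthogonality of the Taylor coefficients (uses da01, da04)
-/

namespace Pool.Agent.Lib_helper49.Dang

open MvPolynomial Pool.Agent.Lib_helper26.Ebe

variable {n N d : ℕ} {P : Fin (N + 1) → MvPolynomial (Fin n) ℂ}

theorem da07_coef {d : ℕ} (c : ℕ → ℂ)
    (h : ∀ t : ℂ, ∑ r ∈ Finset.range (d + 1), c r * t ^ r = 0) (r : ℕ) (hr : r ≤ d) :
    c r = 0 := by
  set p : Polynomial ℂ := ∑ r ∈ Finset.range (d + 1), Polynomial.C (c r) * Polynomial.X ^ r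
    with hp
  have h1 : p = 0 := by
    refine Polynomial.funext fun t => ?_
    rw [hp, Polynomial.eval_finset_sum]
    simpa using h t
  have h2 : p.coeff r = c r := by
    rw [hp, Polynomial.finset_sum_coeff]
    simp only [Polynomial.coeff_C_mul_X_pow]
    rw [Finset.sum_eq_single r]
    · simp
    · intro b _ hb
      rw [if_neg (Ne.symm hb)]
    · intro hb
      exact absurd (Finset.mem_range.mpr (Nat.lt_succ_of_le hr)) hb
  rw [← h2, h1, Polynomial.coeff_zero]

theorem da07_hf_left (d : ℕ) (u : ℕ → Fin (N + 1) → ℂ) (v : Fin (N + 1) → ℂ) (t : ℂ) :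
    hf (fun i => ∑ r ∈ Finset.range (d + 1), u r i * t ^ r) v =
      ∑ r ∈ Finset.range (d + 1), hf (u r) v * t ^ r := by
  unfold hf
  simp only [Finset.sum_mul, sub_mul]
  rw [Finset.sum_sub_distrib, Finset.sum_comm]
  congr 1
  · refine Finset.sum_congr rfl fun r _ => Finset.sum_congr rfl fun i _ => by ring
  · refine Finset.sum_congr rfl fun r _ => by ring

theorem da07_hf_right (d : ℕ) (v : ℕ → Fin (N + 1) → ℂ) (u : Fin (N + 1) → ℂ) (s : ℂ) :
    hf u (fun i => ∑ r ∈ Finset.range (d + 1), v r i * s ^ r) =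
      ∑ r ∈ Finset.range (d + 1), hf u (v r) * ((starRingEnd ℂ) s) ^ r := by
  unfold hf
  simp only [map_sum, map_mul, map_pow, Finset.mul_sum, Finset.sum_mul, sub_mul]
  rw [Finset.sum_sub_distrib, Finset.sum_comm]
  congr 1
  · refine Finset.sum_congr rfl fun r _ => Finset.sum_congr rfl fun i _ => by ring
  · refine Finset.sum_congr rfl fun r _ => by ring

theorem da07_conj (f : MvPolynomial (Fin n) ℂ) (v : Fin n → ℂ) :
    eval v (map (starRingEnd ℂ) f) =
      (starRingEnd ℂ) (eval (fun i => (starRingEnd ℂ) (v i)) f) := by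
  induction f using MvPolynomial.induction_on with
  | C c => simp
  | add p q hp hq => simp [hp, hq]
  | mul_X p i hp => simp [hp]

/-- The polarised form. -/
noncomputable def da07_G (P : Fin (N + 1) → MvPolynomial (Fin n) ℂ) :
    MvPolynomial (Fin n ⊕ Fin n) ℂ :=
  (∑ i : Fin N, rename Sum.inl (P i.succ) * rename Sum.inr (map (starRingEnd ℂ) (P i.succ))) -
    rename Sum.inl (P 0) * rename Sum.inr (map (starRingEnd ℂ) (P 0))

theorem da07_G_eval (z v : Fin n → ℂ) : eval (Sum.elim z v) (da07_G P) =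
    hf (fun i => eval z (P i)) (fun i => eval (fun j => (starRingEnd ℂ) (v j)) (P i)) := by
  have h1 : ∀ f : MvPolynomial (Fin n) ℂ, eval (Sum.elim z v) (rename Sum.inl f) = eval z f :=
    fun f => by rw [eval_rename]; rfl
  have h2 : ∀ f : MvPolynomial (Fin n) ℂ, eval (Sum.elim z v) (rename Sum.inr f) = eval v f :=
    fun f => by rw [eval_rename]; rfl
  unfold da07_G hf
  rw [map_sub, map_sum, map_mul, h1, h2, da07_conj]
  congr 1
  refine Finset.sum_congr rfl fun i _ => ?_
  rw [map_mul, h1, h2, da07_conj]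

theorem da07_pol (hP : SMap n N d P) (z w : Fin n → ℂ) (h : ip z w = 1) :
    hf (fun i => eval z (P i)) (fun i => eval w (P i)) = 0 := by
  have h1 := polarization (da07_G P) (fun z hz => by
    rw [da07_G_eval]
    simpa using hP.null z hz) z (fun j => (starRingEnd ℂ) (w j)) h
  rw [da07_G_eval] at h1
  simpa using h1

theorem orth (hP : SMap n N d P) {a x y : Fin n → ℂ} (ha : OnSphere a) (hx : ip x a = 0)
    (hy : ip y a = 0) (hxy : ip x y = 0) (r s : ℕ) : hf (Fv P a x r) (Fv P a y s) = 0 := by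
  have hay : ip a y = 0 := by
    have : ip a y = (starRingEnd ℂ) (ip y a) := by
      unfold ip
      rw [map_sum]
      refine Finset.sum_congr rfl fun i _ => ?_
      rw [map_mul, Complex.conj_conj, mul_comm]
    rw [this, hy, map_zero]
  have haa : ip a a = 1 := by
    unfold ip
    unfold OnSphere at ha
    have : ∑ i, a i * (starRingEnd ℂ) (a i) = ((∑ i, ‖a i‖ ^ 2 : ℝ) : ℂ) := by
      push_cast
      refine Finset.sum_congr rfl fun i _ => ?_
      rw [Complex.mul_conj, Complex.normSq_eq_norm_sq]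
      push_cast
      rfl
    rw [this, ha, Complex.ofReal_one]
  have hip : ∀ t u : ℂ, ip (a + t • x) (a + u • y) = 1 := by
    intro t u
    have : ip (a + t • x) (a + u • y) = ip a a + t * ip x a + (starRingEnd ℂ) u * ip a y +
        t * (starRingEnd ℂ) u * ip x y := by
      unfold ip
      simp only [Finset.mul_sum]
      rw [← Finset.sum_add_distrib, ← Finset.sum_add_distrib, ← Finset.sum_add_distrib]
      refine Finset.sum_congr rfl fun i _ => ?_
      simp only [Pi.add_apply, Pi.smul_apply, smul_eq_mul, map_add, map_mul]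
      ring
    rw [this, haa, hx, hay, hxy]
    ring
  have h0 : ∀ t u : ℂ, hf (fun i => eval (a + t • x) (P i))
      (fun i => eval (a + u • y) (P i)) = 0 := fun t u => da07_pol hP _ _ (hip t u)
  have e1 : ∀ (x : Fin n → ℂ) (t : ℂ), (fun i => eval (a + t • x) (P i)) =
      fun i => ∑ r ∈ Finset.range (d + 1), Fv P a x r i * t ^ r := by
    intro x t
    funext i
    rw [sum_Fv hP.deg_le]
  -- the case r, s ≤ d
  have key : ∀ r ≤ d, ∀ s ≤ d, hf (Fv P a x r) (Fv P a y s) = 0 := by
    intro r hr s hs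
    have h1 : ∀ u : ℂ, hf (Fv P a x r) (fun i => eval (a + u • y) (P i)) = 0 := by
      intro u
      refine da07_coef (d := d) (fun r => hf (Fv P a x r) (fun i => eval (a + u • y) (P i)))
        (fun t => ?_) r hr
      rw [← da07_hf_left, ← e1]
      exact h0 t u
    refine da07_coef (d := d) (fun s => hf (Fv P a x r) (Fv P a y s)) (fun t => ?_) s hs
    have h2 := h1 ((starRingEnd ℂ) t)
    rw [e1, da07_hf_right, Complex.conj_conj] at h2
    exact h2
  have hz : ∀ (x : Fin n → ℂ) (r : ℕ), d < r → Fv P a x r = 0 := by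
    intro x r hr
    funext i
    unfold Fv
    rw [Fc_eq_zero hP.deg_le hr, map_zero]
    rfl
  by_cases hr : r ≤ d
  · by_cases hs : s ≤ d
    · exact key r hr s hs
    · rw [hz y s (not_le.mp hs)]
      simp [hf]
  · rw [hz x r (not_le.mp hr)]
    simp [hf]

end Pool.Agent.Lib_helper49.Dang
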