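import Pool.Agent.Lib_helper49.Dang.Setup

/-! Block da08: no common factor on the generic line. -/

namespace Pool.Agent.Lib_helper49.Dang

open MvPolynomial Pool.Agent.Lib_helper26.Ebe

variable {n N : ℕ} {P : Fin (N + 1) → MvPolynomial (Fin n) ℂ}

/-- The specialisation `x ↦ x0`, `t ↦ t0`, `a ↦ a - t0 x0`. -/
noncomputable def da08_rho (x0 : Fin n → ℂ) (t0 : ℂ) : Polynomial (A n) →+* MvPolynomial (Fin n) ℂ :=
  Polynomial.eval₂RingHom
    (aeval (Sum.elim (fun j => X j - C (t0 * x0 j)) (fun j => C (x0 j))) :
      A n →ₐ[ℂ] MvPolynomial (Fin n) ℂ).toRingHom (C t0)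

theorem da08_rho_tay (x0 : Fin n → ℂ) (t0 : ℂ) (f : MvPolynomial (Fin n) ℂ) :
    da08_rho x0 t0 (tay f) = f := by
  have h : (da08_rho x0 t0).comp (tay : MvPolynomial (Fin n) ℂ →ₐ[ℂ] Polynomial (A n)).toRingHom =
      RingHom.id _ := by
    apply MvPolynomial.ringHom_ext
    · intro r
      simp only [RingHom.comp_apply, AlgHom.toRingHom_eq_coe, RingHom.coe_coe, RingHom.id_apply]
      have h1 : (tay (C r) : Polynomial (A n)) = Polynomial.C (C r) := by
        unfold tay
        rw [MvPolynomial.algHom_C, Polynomial.algebraMap_apply, MvPolynomial.algebraMap_eq]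
      rw [h1]
      simp [da08_rho]
    · intro i
      simp only [RingHom.comp_apply, AlgHom.toRingHom_eq_coe, RingHom.coe_coe, RingHom.id_apply]
      have h1 : (tay (X i) : Polynomial (A n)) =
          Polynomial.C (X (Sum.inl i)) + Polynomial.C (X (Sum.inr i)) * Polynomial.X := by
        unfold tay
        rw [aeval_X]
      rw [h1]
      simp only [da08_rho, AlgHom.toRingHom_eq_coe, map_add, map_mul, Polynomial.coe_eval₂RingHom,
        Polynomial.eval₂_C, Polynomial.eval₂_X, RingHom.coe_coe, aeval_X, Sum.elim_inl,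
        Sum.elim_inr]
      rw [mul_comm (C t0)]
      ring
  exact congrFun (congrArg DFunLike.coe h) f

theorem da08_eval_rho (x0 : Fin n → ℂ) (t0 : ℂ) (a0 : Fin n → ℂ) (p : Polynomial (A n)) :
    eval (fun j => a0 j + t0 * x0 j) (da08_rho x0 t0 p) =
      (p.map (eval (Sum.elim a0 x0) : A n →+* ℂ)).eval t0 := by
  have h : (eval (fun j => a0 j + t0 * x0 j) : MvPolynomial (Fin n) ℂ →+* ℂ).comp
      (da08_rho x0 t0) = Polynomial.eval₂RingHom (eval (Sum.elim a0 x0) : A n →+* ℂ) t0 := by
    apply Polynomial.ringHom_ext'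
    · apply MvPolynomial.ringHom_ext
      · intro r
        simp [da08_rho]
      · rintro (i | i)
        · simp [da08_rho]
        · simp [da08_rho]
    · simp [da08_rho]
  have h1 := congrFun (congrArg DFunLike.coe h) p
  rw [Polynomial.eval_map]
  exact h1

/-- A primitive polynomial dividing all the `tay (P i)` is a unit. -/
theorem da08_prim (hc : ∀ r, (∀ i, r ∣ P i) → IsUnit r) (p : Polynomial (A n))
    (hp : p.IsPrimitive) (hdvd : ∀ i, p ∣ tay (P i)) : IsUnit p := by
  have hne : ∀ (a0 x0 : Fin n → ℂ) (t0 : ℂ),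
      (p.map (eval (Sum.elim a0 x0) : A n →+* ℂ)).eval t0 ≠ 0 := by
    intro a0 x0 t0 h0
    have h1 : IsUnit (da08_rho x0 t0 p) := by
      apply hc
      intro i
      have h2 := map_dvd (da08_rho x0 t0) (hdvd i)
      rwa [da08_rho_tay] at h2
    have h2 := h1.map (eval (fun j => a0 j + t0 * x0 j) : MvPolynomial (Fin n) ℂ →+* ℂ)
    rw [da08_eval_rho, h0] at h2
    exact not_isUnit_zero h2
  have hcoef : ∀ k, k ≠ 0 → p.coeff k = 0 := by
    intro k hk
    apply MvPolynomial.funext
    intro v
    have hv : v = Sum.elim (fun j => v (Sum.inl j)) (fun j => v (Sum.inr j)) := by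
      funext s
      rcases s with s | s <;> rfl
    rw [map_zero]
    set q := p.map (eval v : A n →+* ℂ) with hq
    have hq0 : q.degree = 0 := by
      by_contra hdeg
      have h3 : q ≠ 0 := by
        intro h4
        apply hne (fun j => v (Sum.inl j)) (fun j => v (Sum.inr j)) 0
        rw [← hv, ← hq, h4]
        simp
      obtain ⟨t0, ht0⟩ := IsAlgClosed.exists_root q hdeg
      apply hne (fun j => v (Sum.inl j)) (fun j => v (Sum.inr j)) t0
      rw [← hv, ← hq]
      exact ht0
    have h5 : q.coeff k = 0 := by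
      apply Polynomial.coeff_eq_zero_of_degree_lt
      rw [hq0]
      exact_mod_cast Nat.pos_of_ne_zero hk
    rw [hq, Polynomial.coeff_map] at h5
    exact h5
  have hpC : p = Polynomial.C (p.coeff 0) := by
    apply Polynomial.ext
    intro k
    rw [Polynomial.coeff_C]
    split_ifs with h
    · rw [h]
    · exact hcoef k h
  have hunit : IsUnit (p.coeff 0) := hp _ (by
    rw [← hpC])
  rw [hpC]
  exact hunit.map Polynomial.C

theorem da08_gen {K : Type*} [Field K] [Algebra (A n) K] [IsFractionRing (A n) K]
    (hc : ∀ r, (∀ i, r ∣ P i) → IsUnit r) :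
    ∃ c : Fin (N + 1) → Polynomial K, ∑ i, c i * (tay (P i)).map (algebraMap (A n) K) = 1 := by
  classical
  let f : Fin (N + 1) → Polynomial K := fun i => (tay (P i)).map (algebraMap (A n) K)
  have hinj : Function.Injective (algebraMap (A n) K) := IsFractionRing.injective (A n) K
  suffices h : (1 : Polynomial K) ∈ Ideal.span (Set.range f) by
    exact (Ideal.mem_span_range_iff_exists_fun).1 h
  obtain ⟨h, hspan'⟩ := (IsPrincipalIdealRing.principal (Ideal.span (Set.range f))).principal
  have hspan : Ideal.span (Set.range f) = Ideal.span {h} := hspan'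
  have hdvd : ∀ i, h ∣ f i := by
    intro i
    rw [← Ideal.mem_span_singleton, ← hspan]
    exact Ideal.subset_span ⟨i, rfl⟩
  have h0 : h ≠ 0 := by
    intro h0
    have h1 : ∀ i, P i = 0 := by
      intro i
      have h2 : f i = 0 := by
        have := hdvd i
        rw [h0] at this
        exact zero_dvd_iff.1 this
      have h3 : tay (P i) = 0 := by
        apply Polynomial.map_injective _ hinj
        rw [Polynomial.map_zero]
        exact h2
      have h4 := da08_rho_tay (0 : Fin n → ℂ) 0 (P i)
      rw [h3, map_zero] at h4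
      exact h4.symm
    have h2 : IsUnit (0 : MvPolynomial (Fin n) ℂ) := hc 0 fun i => by rw [h1 i]
    exact not_isUnit_zero h2
  let _ : NormalizedGCDMonoid (A n) := Classical.arbitrary _
  have hunit : IsUnit h := by
    apply Polynomial.isUnit_or_eq_zero_of_isUnit_integerNormalization_primPart (R := A n) h0
    apply da08_prim hc _ (Polynomial.isPrimitive_primPart _)
    intro i
    apply Polynomial.IsPrimitive.dvd_of_fraction_map_dvd_fraction_map (K := K)
      (Polynomial.isPrimitive_primPart _)
    obtain ⟨c, c0, hc'⟩ := IsLocalization.integerNormalization_spec (nonZeroDivisors (A n)) h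
    rw [(IsLocalization.integerNormalization (nonZeroDivisors (A n)) h).eq_C_content_mul_primPart,
      Polynomial.map_mul, Algebra.smul_def] at hc'
    have hcu : IsUnit (algebraMap (A n) (Polynomial K) c) := by
      rw [Polynomial.algebraMap_apply]
      apply Polynomial.isUnit_C.2
      apply isUnit_iff_ne_zero.2
      intro h5
      exact (mem_nonZeroDivisors_iff_ne_zero.1 c0) (hinj (by rw [h5, map_zero]))
    have h6 : (IsLocalization.integerNormalization (nonZeroDivisors (A n)) h).primPart.map
        (algebraMap (A n) K) ∣ h := by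
      have h7 : (IsLocalization.integerNormalization (nonZeroDivisors (A n)) h).primPart.map
        (algebraMap (A n) K) ∣ algebraMap (A n) (Polynomial K) c * h := by
        rw [← hc']
        exact dvd_mul_left _ _
      exact (hcu.dvd_mul_left).1 h7
    exact h6.trans (hdvd i)
  rw [hspan, Ideal.span_singleton_eq_top.2 hunit]
  exact Submodule.mem_top

theorem bezout (hc : ∀ r, (∀ i, r ∣ P i) → IsUnit r) :
    ∃ c : Fin (N + 1) → Polynomial (FractionRing (A n)),
      ∑ i, c i * (tay (P i)).map (algebraMap (A n) (FractionRing (A n))) = 1 :=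
  da08_gen (K := FractionRing (A n)) hc

end Pool.Agent.Lib_helper49.Dang
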