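import Pool.Agent.Lib_helper49.Dang.Setup

namespace Pool.Agent.Lib_helper49.Dang

open Polynomial

/-- The functional `t^s ↦ g s`. -/
noncomputable def da09_L {K : Type*} [Field K] (g : ℕ → K) : Polynomial K →ₗ[K] K :=
  Polynomial.lsum fun n => (LinearMap.id : K →ₗ[K] K).smulRight (g n)

theorem da09_L_monomial {K : Type*} [Field K] (g : ℕ → K) (n : ℕ) (a : K) :
    da09_L g (Polynomial.monomial n a) = a * g n := by
  unfold da09_L
  rw [Polynomial.lsum_apply, Polynomial.sum_monomial_index]
  · simp
  · simp

theorem da09_L_mul {K κ : Type*} [Field K] (d : ℕ) (F : ℕ → κ → K)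
    (g : ℕ → K) (hg : g ∈ Lset F d d) (k : κ) (u : Polynomial K) (hu : u.degree < d) :
    da09_L g (u * (∑ r ∈ Finset.range (d + 1), Polynomial.monomial r (F r k))) = 0 := by
  have hu' : u = ∑ t ∈ Finset.range d, Polynomial.monomial t (u.coeff t) := by
    rcases eq_or_ne u 0 with rfl | h0
    · simp
    · have h1 : u.natDegree < d := by
        rw [Polynomial.degree_eq_natDegree h0] at hu
        exact_mod_cast hu
      conv_lhs => rw [u.as_sum_range' d h1]
  rw [hu', Finset.sum_mul, map_sum]
  refine Finset.sum_eq_zero fun t ht => ?_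
  rw [Finset.mul_sum, map_sum]
  have h2 := hg t (Finset.mem_range.1 ht) k
  have h3 : ∀ r ∈ Finset.range (d + 1),
      da09_L g (Polynomial.monomial t (u.coeff t) * Polynomial.monomial r (F r k)) =
      u.coeff t * (g (r + t) * F r k) := by
    intro r _
    rw [Polynomial.monomial_mul_monomial, da09_L_monomial, add_comm t r]
    ring
  rw [Finset.sum_congr rfl h3, ← Finset.mul_sum, h2, mul_zero]

/-- Block da09: sequences annihilated by coprime polynomials of degree at most `d`. -/
theorem seq_eq_zero {K κ : Type*} [Field K] [Fintype κ] (d : ℕ) (F : ℕ → κ → K)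
    (c : κ → Polynomial K)
    (hc : ∑ k, c k * (∑ r ∈ Finset.range (d + 1), Polynomial.monomial r (F r k)) = 1)
    (k₀ : κ) (hk₀ : F d k₀ ≠ 0) (g : ℕ → K) (hg : g ∈ Lset F d d) (s : ℕ) (hs : s < 2 * d) :
    g s = 0 := by
  set f : κ → Polynomial K := fun k => ∑ r ∈ Finset.range (d + 1), Polynomial.monomial r (F r k)
    with hf
  have hL : ∀ k (u : Polynomial K), u.degree < d → da09_L g (u * f k) = 0 := fun k u hu =>
    da09_L_mul d F g hg k u hu
  have hfd : ∀ k, (f k).degree ≤ d := by
    intro k
    refine (Polynomial.degree_sum_le _ _).trans (Finset.sup_le fun r hr => ?_)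
    refine (Polynomial.degree_monomial_le _ _).trans ?_
    exact_mod_cast Nat.lt_succ_iff.1 (Finset.mem_range.1 hr)
  have hcoef : (f k₀).coeff d = F d k₀ := by
    simp [hf, Polynomial.coeff_monomial]
  have hf0d : (f k₀).degree = d := by
    refine le_antisymm (hfd k₀) (Polynomial.le_degree_of_ne_zero ?_)
    rw [hcoef]; exact hk₀
  have hf0 : f k₀ ≠ 0 := by
    intro h; rw [h] at hf0d; simp at hf0d
  have hf0n : (f k₀).natDegree = d := Polynomial.natDegree_eq_of_degree_eq_some hf0d
  set q : κ → Polynomial K := fun k => (c k * X ^ s) / f k₀ with hq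
  set r : κ → Polynomial K := fun k => (c k * X ^ s) % f k₀ with hr
  have hdiv : ∀ k, c k * X ^ s = f k₀ * q k + r k := fun k =>
    (EuclideanDomain.div_add_mod _ _).symm
  have hrd : ∀ k, (r k).degree < d := by
    intro k
    have := EuclideanDomain.mod_lt (c k * X ^ s) hf0
    rw [← hf0d]
    exact this
  set w := ∑ k, q k * f k with hw
  have hX : (X : Polynomial K) ^ s = w * f k₀ + ∑ k, r k * f k := by
    have h1 : (X : Polynomial K) ^ s = (∑ k, c k * f k) * X ^ s := by
      rw [hc, one_mul]
    rw [h1, Finset.sum_mul, hw, Finset.sum_mul, ← Finset.sum_add_distrib]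
    refine Finset.sum_congr rfl fun k _ => ?_
    calc c k * f k * X ^ s = (c k * X ^ s) * f k := by ring
      _ = (f k₀ * q k + r k) * f k := by rw [hdiv k]
      _ = _ := by ring
  have hdpos : 0 < d := by omega
  have hrf : ∀ k, (r k * f k).degree < ((2 * d : ℕ) : WithBot ℕ) := by
    intro k
    rcases eq_or_ne (r k) 0 with h0 | h0
    · rw [h0, zero_mul, Polynomial.degree_zero]; exact WithBot.bot_lt_coe _
    rcases eq_or_ne (f k) 0 with h1 | h1
    · rw [h1, mul_zero, Polynomial.degree_zero]; exact WithBot.bot_lt_coe _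
    rw [Polynomial.degree_mul, Polynomial.degree_eq_natDegree h0,
      Polynomial.degree_eq_natDegree h1]
    have h2 := hrd k
    have h3 := hfd k
    rw [Polynomial.degree_eq_natDegree h0] at h2
    rw [Polynomial.degree_eq_natDegree h1] at h3
    have h2' : (r k).natDegree < d := by exact_mod_cast h2
    have h3' : (f k).natDegree ≤ d := by exact_mod_cast h3
    have : (r k).natDegree + (f k).natDegree < 2 * d := by omega
    exact_mod_cast this
  have hwd : w.degree < d := by
    rcases eq_or_ne w 0 with h0 | h0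
    · rw [h0, Polynomial.degree_zero]; exact WithBot.bot_lt_coe _
    have h1 : (w * f k₀).degree < ((2 * d : ℕ) : WithBot ℕ) := by
      have h2 : w * f k₀ = X ^ s - ∑ k, r k * f k := by rw [hX]; ring
      rw [h2]
      refine lt_of_le_of_lt (Polynomial.degree_sub_le _ _) (max_lt ?_ ?_)
      · rw [Polynomial.degree_X_pow]; exact_mod_cast hs
      · refine lt_of_le_of_lt (Polynomial.degree_sum_le _ _) ?_
        rw [Finset.sup_lt_iff (WithBot.bot_lt_coe _)]
        intro k _
        exact hrf k
    rw [Polynomial.degree_mul, Polynomial.degree_eq_natDegree h0,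
      Polynomial.degree_eq_natDegree hf0, hf0n] at h1
    rw [Polynomial.degree_eq_natDegree h0]
    have : w.natDegree + d < 2 * d := by exact_mod_cast h1
    have : w.natDegree < d := by omega
    exact_mod_cast this
  have hfin : da09_L g (X ^ s) = 0 := by
    rw [hX, map_add, map_sum, hL k₀ w hwd, Finset.sum_eq_zero fun k _ => hL k (r k) (hrd k),
      add_zero]
  rw [Polynomial.X_pow_eq_monomial, da09_L_monomial, one_mul] at hfin
  exact hfin

end Pool.Agent.Lib_helper49.Dang
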