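import Pool.Agent.Lib_helper49.Dang.Setup

/-! Block da10 -/

namespace Pool.Agent.Lib_helper49.Dang

open MvPolynomial Pool.Agent.Lib_helper26.Ebe

theorem da10_gen {K V : Type*} [Field K] [AddCommGroup V] [Module K V]
    [FiniteDimensional K V] (M : ℕ) : ∀ (W : ℕ → Submodule K V), (∀ i, W (i + 1) ≤ W i) →
    W M = ⊥ →
    ∃ (ι : Type) (_ : Fintype ι) (m : ι → ℕ) (b : ι → V),
      (∀ a, b a ∈ W (m a)) ∧ LinearIndependent K b ∧
      Submodule.span K (Set.range b) = W 0 ∧
      ∑ a, (m a + 1) = ∑ i ∈ Finset.range M, Module.finrank K (W i) := by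
  induction M with
  | zero =>
    intro W _ h0
    refine ⟨Empty, inferInstance, Empty.elim, Empty.elim, fun a => a.elim,
      linearIndependent_empty_type, ?_, by simp⟩
    rw [h0, Set.range_eq_empty, Submodule.span_empty]
  | succ M ih =>
    intro W hW h0
    obtain ⟨ι, hι, m, b, hb, hli, hspan, hsum⟩ := ih (fun i => W (i + 1)) (fun i => hW (i + 1)) h0
    simp only [zero_add] at hspan
    obtain ⟨C', hC'⟩ := Submodule.exists_isCompl (W 1)
    set C : Submodule K V := C' ⊓ W 0 with hC
    have hsup : W 1 ⊔ C = W 0 := by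
      have h10 : W 1 ≤ W 0 := hW 0
      rw [hC, ← sup_inf_assoc_of_le C' h10, hC'.sup_eq_top, top_inf_eq]
    have hinf : W 1 ⊓ C = ⊥ := by
      rw [eq_bot_iff, ← hC'.inf_eq_bot]
      exact le_inf inf_le_left (inf_le_right.trans inf_le_left)
    let c := Module.finBasis K C
    have hcli : LinearIndependent K (fun j => (c j : V)) := by
      have := c.linearIndependent.map' C.subtype (Submodule.ker_subtype C)
      exact this
    have hcspan : Submodule.span K (Set.range fun j => (c j : V)) = C := by
      have h1 := c.span_eq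
      have h2 : Submodule.span K (Set.range fun j => (c j : V)) =
          (Submodule.span K (Set.range c)).map C.subtype := by
        rw [Submodule.map_span, ← Set.range_comp]
        rfl
      rw [h2, h1, Submodule.map_top, Submodule.range_subtype]
    refine ⟨ι ⊕ Fin (Module.finrank K C), inferInstance, Sum.elim (fun a => m a + 1) (fun _ => 0),
      Sum.elim b (fun j => (c j : V)), ?_, ?_, ?_, ?_⟩
    · rintro (a | j)
      · exact hb a
      · exact (c j).2.2
    · apply LinearIndependent.sum_type hli hcli
      rw [hspan, hcspan, disjoint_iff]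
      exact hinf
    · rw [Set.Sum.elim_range, Submodule.span_union, hspan, hcspan, hsup]
    · rw [Fintype.sum_sum_type]
      simp only [Sum.elim_inl, Sum.elim_inr, zero_add, Finset.sum_const, Finset.card_univ,
        Fintype.card_fin, smul_eq_mul, mul_one]
      rw [Finset.sum_add_distrib, hsum, Finset.sum_range_succ' (fun i => Module.finrank K (W i))]
      simp only [Finset.sum_const, Finset.card_univ, smul_eq_mul, mul_one]
      have hcard : Fintype.card ι = Module.finrank K (W 1) := by
        rw [← hspan, finrank_span_eq_card hli]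
      have hdim := Submodule.finrank_sup_add_finrank_inf_eq (W 1) C
      rw [hsup, hinf, finrank_bot, add_zero] at hdim
      rw [hcard, hdim]
      ring

/-- Block da10: adapted basis of a decreasing chain of subspaces. -/
theorem adapted_basis {K V : Type*} [Field K] [AddCommGroup V] [Module K V]
    [FiniteDimensional K V] (M : ℕ) (W : ℕ → Submodule K V) (hW : ∀ i, W (i + 1) ≤ W i)
    (h0 : W M = ⊥) :
    ∃ (m : Fin (Module.finrank K (W 0)) → ℕ) (b : Fin (Module.finrank K (W 0)) → V),
      (∀ a, b a ∈ W (m a)) ∧ LinearIndependent K b ∧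
      Submodule.span K (Set.range b) = W 0 ∧
      ∑ a, (m a + 1) = ∑ i ∈ Finset.range M, Module.finrank K (W i) := by
  obtain ⟨ι, hι, m, b, hb, hli, hspan, hsum⟩ := da10_gen M W hW h0
  have hcard : Fintype.card ι = Module.finrank K (W 0) := by
    rw [← hspan, finrank_span_eq_card hli]
  let e : Fin (Module.finrank K (W 0)) ≃ ι := (Fintype.equivFinOfCardEq hcard).symm
  refine ⟨m ∘ e, b ∘ e, fun a => hb (e a), hli.comp e e.injective, ?_, ?_⟩
  · rw [Set.range_comp, e.range_eq_univ, Set.image_univ, hspan]
  · rw [← hsum]
    exact Equiv.sum_comp e (fun a => m a + 1)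

end Pool.Agent.Lib_helper49.Dang
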