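import Pool.Agent.Lib_helper49.Dang.Setup
import Pool.Agent.Lib_helper49.Dang.B10

/-!
# Block da11 (helper29): the filtration by the sequences
-/

namespace Pool.Agent.Lib_helper49.Dang

open MvPolynomial Pool.Agent.Lib_helper26.Ebe

set_option linter.unusedSectionVars false
set_option linter.unusedVariables false

section da11

variable {K κ : Type*} [Field K] [Fintype κ]

/-- Sequences in `Lset F d i` supported in `s < d + i`. -/
def da11_L (d : ℕ) (F : ℕ → κ → K) (i : ℕ) : Submodule K (ℕ → K) where
  carrier := {g | g ∈ Lset F d i ∧ ∀ s, d + i ≤ s → g s = 0}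
  add_mem' := by
    rintro a b ⟨ha, ha'⟩ ⟨hb, hb'⟩
    refine ⟨fun t ht k => ?_, fun s hs => ?_⟩
    · have h1 := ha t ht k
      have h2 := hb t ht k
      simp only [Pi.add_apply, add_mul, Finset.sum_add_distrib]
      rw [h1, h2, add_zero]
    · simp only [Pi.add_apply, ha' s hs, hb' s hs, add_zero]
  zero_mem' := by
    refine ⟨fun t ht k => ?_, fun s hs => rfl⟩
    simp
  smul_mem' := by
    rintro c a ⟨ha, ha'⟩
    refine ⟨fun t ht k => ?_, fun s hs => ?_⟩
    · have h1 := ha t ht k
      simp only [Pi.smul_apply, smul_eq_mul, mul_assoc]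
      rw [← Finset.mul_sum, h1, mul_zero]
    · simp only [Pi.smul_apply, ha' s hs, smul_zero]

theorem da11_mem {d : ℕ} {F : ℕ → κ → K} {i : ℕ} {g : ℕ → K} :
    g ∈ da11_L d F i ↔ g ∈ Lset F d i ∧ ∀ s, d + i ≤ s → g s = 0 := Iff.rfl

/-- Linear map version of `phi`. -/
def da11_phi (d : ℕ) (F : ℕ → κ → K) : (ℕ → K) →ₗ[K] (κ → K) where
  toFun g := phi F d g
  map_add' a b := by
    funext k
    simp only [phi, Pi.add_apply, add_mul, Finset.sum_add_distrib]
  map_smul' c a := by
    funext k
    simp only [phi, Pi.smul_apply, smul_eq_mul, mul_assoc, RingHom.id_apply, Finset.mul_sum]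

/-- Restriction of sequences supported in `s < M`. -/
def da11_res (M : ℕ) : (ℕ → K) →ₗ[K] (Fin M → K) where
  toFun g := fun s => g s
  map_add' a b := rfl
  map_smul' c a := rfl

theorem da11_res_inj (d : ℕ) (F : ℕ → κ → K) (i : ℕ) :
    Function.Injective ((da11_res (K := K) (d + i)).domRestrict (da11_L d F i)) := by
  rw [injective_iff_map_eq_zero]
  rintro ⟨g, hg⟩ h
  apply Subtype.ext
  funext s
  rcases lt_or_ge s (d + i) with hs | hs
  · have := congrFun h ⟨s, hs⟩
    simpa [da11_res] using this
  · exact (da11_mem.1 hg).2 s hs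

instance da11_fin (d : ℕ) (F : ℕ → κ → K) (i : ℕ) : FiniteDimensional K (da11_L d F i) :=
  Module.Finite.of_injective _ (da11_res_inj d F i)

theorem da11_finrank_zero (d : ℕ) (F : ℕ → κ → K) :
    Module.finrank K (da11_L d F 0) = d := by
  have hb : Function.Bijective ((da11_res (K := K) (d + 0)).domRestrict (da11_L d F 0)) := by
    refine ⟨da11_res_inj d F 0, fun y => ?_⟩
    refine ⟨⟨fun s => if h : s < d + 0 then y ⟨s, h⟩ else 0, ?_⟩, ?_⟩
    · exact ⟨fun t ht => absurd ht (Nat.not_lt_zero t), fun s hs => dif_neg (not_lt.2 hs)⟩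
    · funext s
      have hs := s.2
      simp only [LinearMap.domRestrict_apply, da11_res, LinearMap.coe_mk, AddHom.coe_mk]
      rw [dif_pos hs]
  have := (LinearEquiv.ofBijective _ hb).finrank_eq
  rw [this, Module.finrank_fin_fun, add_zero]

theorem da11_bot (d : ℕ) (F : ℕ → κ → K) (hd : ∀ g ∈ Lset F d d, ∀ s < 2 * d, g s = 0) :
    da11_L d F d = ⊥ := by
  rw [eq_bot_iff]
  intro g hg
  rw [Submodule.mem_bot]
  funext s
  rcases lt_or_ge s (d + d) with hs | hs
  · exact hd g (da11_mem.1 hg).1 s (by omega)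
  · exact (da11_mem.1 hg).2 s hs

/-- The composite of `phi` with the quotient map. -/
def da11_psi (d : ℕ) (F : ℕ → κ → K) :
    (ℕ → K) →ₗ[K] ((κ → K) ⧸ (Submodule.span K {F 0})) :=
  (Submodule.span K {F 0}).mkQ ∘ₗ da11_phi d F

/-- The filtration on the quotient. -/
def da11_W (d : ℕ) (F : ℕ → κ → K) (i : ℕ) :
    Submodule K ((κ → K) ⧸ (Submodule.span K {F 0})) :=
  (da11_L d F i).map (da11_psi d F)

theorem da11_W_anti (d : ℕ) (F : ℕ → κ → K) (i : ℕ) : da11_W d F (i + 1) ≤ da11_W d F i := by
  rintro _ ⟨g, hg, rfl⟩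
  obtain ⟨hg1, hg2⟩ := da11_mem.1 hg
  refine ⟨fun s => if s < d + i then g s else 0, ?_, ?_⟩
  · refine ⟨fun t ht k => ?_, fun s hs => if_neg (not_lt.2 hs)⟩
    refine Eq.trans (Finset.sum_congr rfl fun r hr => ?_) (hg1 t (by omega) k)
    have := Finset.mem_range.1 hr
    change (if r + t < d + i then g (r + t) else 0) * F r k = _
    rw [if_pos (by omega)]
  · have : da11_phi d F (fun s => if s < d + i then g s else 0) = da11_phi d F g := by
      funext k
      change ∑ r ∈ Finset.range d, (if r < d + i then g r else 0) * F (r + 1) k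
        = ∑ r ∈ Finset.range d, g r * F (r + 1) k
      refine Finset.sum_congr rfl fun r hr => ?_
      have := Finset.mem_range.1 hr
      rw [if_pos (by omega)]
    simp only [da11_psi, LinearMap.comp_apply, this]

/-- The shift as a linear map. -/
def da11_sh : (ℕ → K) →ₗ[K] (ℕ → K) where
  toFun g := fun s => g (s + 1)
  map_add' a b := rfl
  map_smul' c a := rfl

theorem da11_phi_sh (d : ℕ) (F : ℕ → κ → K) (g : ℕ → K) (k : κ) :
    phi F d (fun s => g (s + 1)) k + g 0 * F 0 k
      = ∑ r ∈ Finset.range (d + 1), g (r + 0) * F r k := by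
  rw [Finset.sum_range_succ']
  rfl

theorem da11_sh_mem (d : ℕ) (F : ℕ → κ → K) (i : ℕ) (g : ℕ → K)
    (hg : g ∈ da11_L d F (i + 1)) : da11_sh g ∈ da11_L d F i := by
  obtain ⟨hg1, hg2⟩ := da11_mem.1 hg
  refine ⟨fun t ht k => ?_, fun s hs => hg2 (s + 1) (by omega)⟩
  exact hg1 (t + 1) (by omega) k

theorem da11_step (d : ℕ) (F : ℕ → κ → K) (hF0 : F 0 ≠ 0) (i : ℕ) :
    Module.finrank K (da11_W d F i) + Module.finrank K (da11_L d F (i + 1))
      = Module.finrank K (da11_L d F i) := by
  let f := (da11_psi d F).domRestrict (da11_L d F i)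
  let shL : da11_L d F (i + 1) →ₗ[K] da11_L d F i :=
    (da11_sh.domRestrict (da11_L d F (i + 1))).codRestrict (da11_L d F i)
      (fun g => da11_sh_mem d F i g.1 g.2)
  obtain ⟨k0, hk0⟩ : ∃ k, F 0 k ≠ 0 := by
    by_contra h
    push Not at h
    exact hF0 (funext h)
  have hinj : Function.Injective shL := by
    rw [injective_iff_map_eq_zero]
    rintro ⟨g, hg⟩ h
    obtain ⟨hg1, hg2⟩ := da11_mem.1 hg
    have h0 : ∀ s, g (s + 1) = 0 := fun s => congrFun (congrArg Subtype.val h) s
    have h1 := hg1 0 (by omega) k0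
    rw [← da11_phi_sh] at h1
    have h2 : phi F d (fun s => g (s + 1)) k0 = 0 := by
      simp [phi, h0]
    rw [h2, zero_add] at h1
    apply Subtype.ext
    funext s
    cases s with
    | zero => exact (mul_eq_zero.1 h1).resolve_right hk0
    | succ s => exact h0 s
  have hrange : LinearMap.range shL = LinearMap.ker f := by
    apply le_antisymm
    · rintro _ ⟨⟨g, hg⟩, rfl⟩
      obtain ⟨hg1, hg2⟩ := da11_mem.1 hg
      rw [LinearMap.mem_ker]
      change (Submodule.span K {F 0}).mkQ (phi F d (fun s => g (s + 1))) = 0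
      rw [Submodule.mkQ_apply, Submodule.Quotient.mk_eq_zero, Submodule.mem_span_singleton]
      refine ⟨- g 0, ?_⟩
      funext k
      have h1 := hg1 0 (by omega) k
      rw [← da11_phi_sh] at h1
      simp only [Pi.smul_apply, smul_eq_mul]
      linear_combination -h1
    · rintro ⟨h, hh⟩ hker
      rw [LinearMap.mem_ker] at hker
      change (Submodule.span K {F 0}).mkQ (phi F d h) = 0 at hker
      rw [Submodule.mkQ_apply, Submodule.Quotient.mk_eq_zero,
        Submodule.mem_span_singleton] at hker
      obtain ⟨c, hc⟩ := hker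
      obtain ⟨hh1, hh2⟩ := da11_mem.1 hh
      refine ⟨⟨fun s => Nat.casesOn s (-c) h, ?_⟩, ?_⟩
      · refine ⟨fun t ht k => ?_, fun s hs => ?_⟩
        · cases t with
          | zero =>
            have h1 := da11_phi_sh d F (fun s => Nat.casesOn s (-c) h) k
            rw [← h1]
            have h2 := congrFun hc k
            simp only [Pi.smul_apply, smul_eq_mul] at h2
            change phi F d h k + (-c) * F 0 k = 0
            rw [← h2]
            ring
          | succ t => exact hh1 t (by omega) k
        · cases s with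
          | zero => omega
          | succ s => exact hh2 s (by omega)
      · apply Subtype.ext
        rfl
  have h1 : Module.finrank K (LinearMap.range f) + Module.finrank K (LinearMap.ker f)
      = Module.finrank K (da11_L d F i) := LinearMap.finrank_range_add_finrank_ker f
  have h2 : LinearMap.range f = da11_W d F i := LinearMap.range_domRestrict _ _
  rw [h2, ← hrange, LinearMap.finrank_range_of_inj hinj] at h1
  exact h1

theorem adapted_field (d : ℕ) (F : ℕ → κ → K)
    (hF0 : F 0 ≠ 0)
    (hd : ∀ g ∈ Lset F d d, ∀ s < 2 * d, g s = 0) :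
    ∃ (τ : ℕ) (m : Fin τ → ℕ) (g : Fin τ → ℕ → K),
      (∀ a, g a ∈ Lset F d (m a)) ∧ ∑ a, (m a + 1) = d ∧
      LinearIndependent K (Fin.cons (F 0) (fun a => phi F d (g a)) : Fin (τ + 1) → κ → K) ∧
      ∀ r ≤ d, F r ∈ Submodule.span K
        (Set.range (Fin.cons (F 0) (fun a => phi F d (g a)) : Fin (τ + 1) → κ → K)) := by
  classical
  have hWd : da11_W d F d = ⊥ := by
    rw [da11_W, da11_bot d F hd, Submodule.map_bot]
  obtain ⟨m, b, hb, hli, hspan, hsum⟩ :=
    adapted_basis d (da11_W d F) (da11_W_anti d F) hWd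
  choose g hg hgb using hb
  have hmk : ∀ a, (Submodule.span K {F 0}).mkQ (phi F d (g a)) = b a := hgb
  refine ⟨_, m, g, fun a => (da11_mem.1 (hg a)).1, ?_, ?_, ?_⟩
  · rw [hsum]
    have htel : ∀ M, ∑ i ∈ Finset.range M, Module.finrank K (da11_W d F i)
        + Module.finrank K (da11_L d F M) = d := by
      intro M
      induction M with
      | zero => rw [Finset.sum_range_zero, zero_add, da11_finrank_zero]
      | succ M ih =>
        rw [Finset.sum_range_succ, add_assoc, da11_step d F hF0 M, ih]
    have h := htel d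
    rw [da11_bot d F hd, finrank_bot, add_zero] at h
    exact h
  · rw [Fintype.linearIndependent_iff]
    intro c hc
    rw [Fin.sum_univ_succ] at hc
    simp only [Fin.cons_zero, Fin.cons_succ] at hc
    have h1 := congrArg (Submodule.span K {F 0}).mkQ hc
    rw [map_add, map_smul, map_sum, map_zero] at h1
    simp only [map_smul, hmk] at h1
    have h2 : (Submodule.span K {F 0}).mkQ (F 0) = 0 := by
      rw [Submodule.mkQ_apply, Submodule.Quotient.mk_eq_zero]
      exact Submodule.mem_span_singleton_self _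
    rw [h2, smul_zero, zero_add] at h1
    have h3 := Fintype.linearIndependent_iff.1 hli (fun a => c a.succ) h1
    have h4 : c 0 • F 0 = 0 := by
      simpa [h3] using hc
    intro i
    refine Fin.cases ?_ ?_ i
    · exact (smul_eq_zero.1 h4).resolve_right hF0
    · exact h3
  · intro r hr
    have hcons : ∀ x : κ → K, (∃ (c0 : K) (c : Fin (Module.finrank K (da11_W d F 0)) → K),
        c0 • F 0 + ∑ a, c a • phi F d (g a) = x) → x ∈ Submodule.span K
        (Set.range (Fin.cons (F 0) (fun a => phi F d (g a)) :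
          Fin (Module.finrank K (da11_W d F 0) + 1) → κ → K)) := by
      rintro x ⟨c0, c, rfl⟩
      rw [Submodule.mem_span_range_iff_exists_fun]
      refine ⟨Fin.cons c0 c, ?_⟩
      rw [Fin.sum_univ_succ]
      simp
    cases r with
    | zero => exact hcons _ ⟨1, 0, by simp⟩
    | succ r =>
      have hW0 : (Submodule.span K {F 0}).mkQ (F (r + 1)) ∈ da11_W d F 0 := by
        refine ⟨fun s => if s = r then 1 else 0, ?_, ?_⟩
        · refine ⟨fun t ht => absurd ht (Nat.not_lt_zero t), fun s hs => if_neg (by omega)⟩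
        · have : phi F d (fun s => if s = r then 1 else 0) = F (r + 1) := by
            funext k
            simp only [phi, ite_mul, one_mul, zero_mul]
            rw [Finset.sum_ite_eq' (Finset.range d) r (fun x => F (x + 1) k),
              if_pos (Finset.mem_range.2 (by omega))]
          change (Submodule.span K {F 0}).mkQ (phi F d (fun s => if s = r then 1 else 0)) = _
          rw [this]
      rw [← hspan, Submodule.mem_span_range_iff_exists_fun] at hW0
      obtain ⟨c, hc⟩ := hW0
      have h1 : (Submodule.span K {F 0}).mkQ (F (r + 1) - ∑ a, c a • phi F d (g a)) = 0 := by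
        rw [map_sub, map_sum]
        simp only [map_smul, hmk]
        rw [hc, sub_self]
      rw [Submodule.mkQ_apply, Submodule.Quotient.mk_eq_zero,
        Submodule.mem_span_singleton] at h1
      obtain ⟨c0, hc0⟩ := h1
      exact hcons _ ⟨c0, c, by rw [hc0]; abel⟩

end da11

example : @adapted_field = @adapted_field := rfl

end Pool.Agent.Lib_helper49.Dang
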