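import Pool.Agent.Lib_helper49.Dang.Setup
import Pool.Agent.Lib_helper49.Dang.B04
import Pool.Agent.Lib_helper49.Dang.B08
import Pool.Agent.Lib_helper49.Dang.B09
import Pool.Agent.Lib_helper49.Dang.B11

/-! Block da12: clearing denominators. Uses da04, da08, da09, da11. -/

namespace Pool.Agent.Lib_helper49.Dang

open MvPolynomial Pool.Agent.Lib_helper26.Ebe

variable {n N d : ℕ} {P : Fin (N + 1) → MvPolynomial (Fin n) ℂ}

theorem da12_exists_ne (hP : SMap n N d P) : ∃ i, P i ≠ 0 := by
  by_contra h
  push Not at h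
  exact not_isUnit_zero (hP.coprime 0 fun i => by rw [h i])

theorem da12_top (hP : SMap n N d P) : ∃ i, Fc P d i ≠ 0 := by
  obtain ⟨i, hi⟩ := hP.deg_eq
  by_cases h0 : P i = 0
  · obtain ⟨j, hj⟩ := da12_exists_ne hP
    rw [h0, totalDegree_zero] at hi
    refine ⟨j, Fc_top_ne_zero j ?_ hj⟩
    have := hP.deg_le j
    omega
  · exact ⟨i, Fc_top_ne_zero i hi h0⟩

theorem da12_natDegree (hd : ∀ i, (P i).totalDegree ≤ d) (i : Fin (N + 1)) :
    (tay (P i)).natDegree < d + 1 := by
  apply Nat.lt_succ_of_le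
  apply Polynomial.natDegree_le_iff_coeff_eq_zero.2
  intro r hr
  exact Fc_eq_zero hd hr i

theorem da12_gen {K : Type} [Field K] [Algebra (A n) K] [IsFractionRing (A n) K]
    (hP : SMap n N d P)
    (hbez : ∃ c : Fin (N + 1) → Polynomial K,
      ∑ i, c i * (tay (P i)).map (algebraMap (A n) K) = 1) :
    ∃ (τ : ℕ) (m : Fin τ → ℕ) (g : Fin τ → ℕ → A n) (δ : A n),
      (∀ a, g a ∈ Lset (Fc P) d (m a)) ∧ ∑ a, (m a + 1) = d ∧ δ ≠ 0 ∧
      (∀ r ≤ d, δ • Fc P r ∈ Submodule.span (A n)
        (Set.range (Fin.cons (Fc P 0) (fun a => phi (Fc P) d (g a)) :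
          Fin (τ + 1) → Fin (N + 1) → A n))) ∧
      Module.finrank K (Submodule.span K
        (Set.range fun (r : ℕ) (i : Fin (N + 1)) => algebraMap (A n) K (Fc P r i))) = τ + 1 := by
  classical
  have hinj : Function.Injective (algebraMap (A n) K) := IsFractionRing.injective (A n) K
  set F : ℕ → Fin (N + 1) → K := fun r i => algebraMap (A n) K (Fc P r i) with hF
  have hF0 : F 0 ≠ 0 := by
    obtain ⟨i, hi⟩ := da12_exists_ne hP
    intro h
    have h1 : F 0 i = 0 := by rw [h]; rfl
    have h2 : Fc P 0 i = 0 := hinj (by rw [map_zero]; exact h1)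
    rw [Fc_zero] at h2
    apply hi
    apply rename_injective _ (Sum.inl_injective (β := Fin n))
    rw [h2, map_zero]
  have hmap : ∀ k, (tay (P k)).map (algebraMap (A n) K) =
      ∑ r ∈ Finset.range (d + 1), Polynomial.monomial r (F r k) := by
    intro k
    have h1 := Polynomial.as_sum_range' (tay (P k)) (d + 1) (da12_natDegree hP.deg_le k)
    conv_lhs => rw [h1]
    rw [Polynomial.map_sum]
    apply Finset.sum_congr rfl
    intro r _
    rw [Polynomial.map_monomial]
    rfl
  obtain ⟨k₀, hk₀⟩ := da12_top hP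
  have hFd : F d k₀ ≠ 0 := by
    intro h
    exact hk₀ (hinj (by rw [map_zero]; exact h))
  obtain ⟨c, hc⟩ := hbez
  simp only [hmap] at hc
  have hd : ∀ g ∈ Lset F d d, ∀ s < 2 * d, g s = 0 := fun g hg s hs =>
    seq_eq_zero d F c hc k₀ hFd g hg s hs
  obtain ⟨τ, m, g, hg, hm, hli, hsp⟩ := adapted_field d F hF0 hd
  have hma : ∀ a, m a + 1 ≤ d := by
    intro a
    rw [← hm]
    exact Finset.single_le_sum (f := fun a => m a + 1) (fun _ _ => Nat.zero_le _)
      (Finset.mem_univ a)
  -- common denominator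
  obtain ⟨b, hb⟩ := IsLocalization.exist_integer_multiples (nonZeroDivisors (A n))
    ((Finset.univ : Finset (Fin τ)) ×ˢ Finset.range (2 * d + 1)) (fun p => g p.1 p.2)
  have hb0 : (b : A n) ≠ 0 := nonZeroDivisors.coe_ne_zero b
  have hb1 : algebraMap (A n) K (b : A n) ≠ 0 := by
    intro h
    exact hb0 (hinj (by rw [map_zero]; exact h))
  have hg' : ∀ (a : Fin τ) (s : ℕ), ∃ x : A n, s ≤ 2 * d →
      algebraMap (A n) K x = algebraMap (A n) K (b : A n) * g a s := by
    intro a s
    by_cases hs : s ≤ 2 * d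
    · obtain ⟨x, hx⟩ := hb (a, s) (Finset.mem_product.2
        ⟨Finset.mem_univ _, Finset.mem_range.2 (Nat.lt_succ_of_le hs)⟩)
      refine ⟨x, fun _ => ?_⟩
      rw [hx, Algebra.smul_def]
    · exact ⟨0, fun h => absurd h hs⟩
  choose g' hg' using hg'
  have hphi : ∀ a k, algebraMap (A n) K (phi (Fc P) d (g' a) k) =
      algebraMap (A n) K (b : A n) * phi F d (g a) k := by
    intro a k
    simp only [phi, map_sum, map_mul, Finset.mul_sum]
    apply Finset.sum_congr rfl
    intro r hr
    have := Finset.mem_range.1 hr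
    rw [hg' a r (by omega)]
    ring
  set v : Fin (τ + 1) → Fin (N + 1) → K := Fin.cons (F 0) (fun a => phi F d (g a)) with hv
  set v' : Fin (τ + 1) → Fin (N + 1) → A n :=
    Fin.cons (Fc P 0) (fun a => phi (Fc P) d (g' a)) with hv'
  -- scalars relating v' and v
  set w : Fin (τ + 1) → K := Fin.cons 1 (fun _ => algebraMap (A n) K (b : A n)) with hw
  have hw0 : ∀ j, w j ≠ 0 := by
    intro j
    refine Fin.cases ?_ (fun a => ?_) j
    · simp [hw]
    · simp [hw, hb0]
  have hvv : ∀ j k, algebraMap (A n) K (v' j k) = w j * v j k := by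
    intro j k
    refine Fin.cases ?_ (fun a => ?_) j
    · simp [hw, hv, hv', hF]
    · simp only [hw, hv, hv', Fin.cons_succ]
      exact hphi a k
  -- coefficients
  have hcoef : ∀ r : ℕ, ∃ e : Fin (τ + 1) → K, r ≤ d → ∑ j, e j • v j = F r := by
    intro r
    by_cases hr : r ≤ d
    · obtain ⟨e, he⟩ := (Submodule.mem_span_range_iff_exists_fun K).1 (hsp r hr)
      exact ⟨e, fun _ => he⟩
    · exact ⟨0, fun h => absurd h hr⟩
  choose e he using hcoef
  obtain ⟨δ, hδ⟩ := IsLocalization.exist_integer_multiples (nonZeroDivisors (A n))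
    (Finset.range (d + 1) ×ˢ (Finset.univ : Finset (Fin (τ + 1)))) (fun p => e p.1 p.2 / w p.2)
  have hδ0 : (δ : A n) ≠ 0 := nonZeroDivisors.coe_ne_zero δ
  refine ⟨τ, m, g', δ, ?_, hm, hδ0, ?_, ?_⟩
  · intro a t ht k
    apply hinj
    rw [map_zero, map_sum]
    have h1 := hg a t ht k
    have h2 : ∑ r ∈ Finset.range (d + 1), algebraMap (A n) K (g' a (r + t) * Fc P r k) =
        algebraMap (A n) K (b : A n) * ∑ r ∈ Finset.range (d + 1), g a (r + t) * F r k := by
      rw [Finset.mul_sum]
      apply Finset.sum_congr rfl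
      intro r hr
      have h3 := Finset.mem_range.1 hr
      have h4 := hma a
      rw [map_mul, hg' a (r + t) (by omega)]
      ring
    rw [h2, h1, mul_zero]
  · intro r hr
    have h1 : ∀ j, ∃ x : A n, algebraMap (A n) K x =
        algebraMap (A n) K (δ : A n) * (e r j / w j) := by
      intro j
      obtain ⟨x, hx⟩ := hδ (r, j) (Finset.mem_product.2
        ⟨Finset.mem_range.2 (Nat.lt_succ_of_le hr), Finset.mem_univ _⟩)
      exact ⟨x, by rw [hx, Algebra.smul_def]⟩
    choose x hx using h1
    apply (Submodule.mem_span_range_iff_exists_fun (A n)).2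
    refine ⟨x, ?_⟩
    funext k
    apply hinj
    rw [Finset.sum_apply, map_sum]
    simp only [Pi.smul_apply, smul_eq_mul, map_mul, hx]
    have h2 : F r k = ∑ j, e r j * v j k := by
      rw [← he r hr, Finset.sum_apply]
      rfl
    have h3 : algebraMap (A n) K (Fc P r k) = F r k := rfl
    rw [h3, h2, Finset.mul_sum]
    apply Finset.sum_congr rfl
    intro j _
    have h4 := hw0 j
    have h5 := hvv j k
    simp only [hv'] at h5
    rw [h5]
    field_simp
  · have hspan : Submodule.span K (Set.range F) = Submodule.span K (Set.range v) := by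
      apply le_antisymm
      · apply Submodule.span_le.2
        rintro _ ⟨r, rfl⟩
        by_cases hr : r ≤ d
        · exact hsp r hr
        · have h1 : F r = 0 := by
            funext k
            have h2 : Fc P r k = 0 := Fc_eq_zero hP.deg_le (not_le.1 hr) k
            simp only [hF, h2, map_zero, Pi.zero_apply]
          rw [h1]
          exact Submodule.zero_mem _
      · apply Submodule.span_le.2
        rintro _ ⟨j, rfl⟩
        refine Fin.cases ?_ (fun a => ?_) j
        · simp only [hv, Fin.cons_zero]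
          exact Submodule.subset_span ⟨0, rfl⟩
        · simp only [hv, Fin.cons_succ]
          have h1 : phi F d (g a) = ∑ r ∈ Finset.range d, g a r • F (r + 1) := by
            funext k
            rw [Finset.sum_apply]
            rfl
          rw [h1]
          exact Submodule.sum_mem _ fun r _ => Submodule.smul_mem _ _
            (Submodule.subset_span ⟨r + 1, rfl⟩)
    have h2 : Module.finrank K (Submodule.span K (Set.range F)) = τ + 1 := by
      rw [hspan, finrank_span_eq_card hli, Fintype.card_fin]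
    exact h2

theorem adapted (hP : SMap n N d P) (hn : 1 ≤ n) :
    ∃ (τ : ℕ) (m : Fin τ → ℕ) (g : Fin τ → ℕ → A n) (δ : A n),
      (∀ a, g a ∈ Lset (Fc P) d (m a)) ∧ ∑ a, (m a + 1) = d ∧ δ ≠ 0 ∧
      (∀ r ≤ d, δ • Fc P r ∈ Submodule.span (A n)
        (Set.range (Fin.cons (Fc P 0) (fun a => phi (Fc P) d (g a)) :
          Fin (τ + 1) → Fin (N + 1) → A n))) ∧
      Module.finrank (FractionRing (A n)) (Submodule.span (FractionRing (A n))
        (Set.range fun (r : ℕ) (i : Fin (N + 1)) =>
          algebraMap (A n) (FractionRing (A n)) (Fc P r i))) = τ + 1 :=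
  da12_gen (K := FractionRing (A n)) hP (bezout hP.coprime)

end Pool.Agent.Lib_helper49.Dang
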