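import Pool.Agent.Lib_helper49.Dang.Setup

/-! Block da14: Griffiths transversality. -/

namespace Pool.Agent.Lib_helper49.Dang

open MvPolynomial Pool.Agent.Lib_helper26.Ebe

section
variable {R κ : Type*} [CommRing R] [Algebra ℂ R]

theorem da14_step (F : ℕ → κ → R) (d : ℕ)
    (D E : Derivation ℂ R R) (hD0 : ∀ k, D (F 0 k) = 0)
    (hDE : ∀ r k, E (F r k) = D (F (r + 1) k)) (hF : ∀ r, d < r → F r = 0)
    (i : ℕ) (g : ℕ → R) (hg : g ∈ Lset F d (i + 1)) :
    (fun s => D (g s) - E (g (s + 1))) ∈ Lset F d i ∧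
    ∀ k, D (phi F d g k) = phi F d (fun s => D (g s) - E (g (s + 1))) k - E (g 0) * F 0 k := by
  have hEd : ∀ k, E (F d k) = 0 := by
    intro k
    rw [hDE, hF (d + 1) (Nat.lt_succ_self d)]
    simp
  -- the derivation `E` applied to a relation
  have hE : ∀ t < i + 1, ∀ k, ∑ r ∈ Finset.range (d + 1), E (g (r + t)) * F r k +
      ∑ r ∈ Finset.range d, g (r + t) * E (F r k) = 0 := by
    intro t ht k
    have h1 := congrArg E (hg t ht k)
    rw [map_sum, map_zero] at h1
    have h2 : ∀ r, E (g (r + t) * F r k) = g (r + t) * E (F r k) + E (g (r + t)) * F r k := by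
      intro r
      rw [Derivation.leibniz, smul_eq_mul, smul_eq_mul]
      ring
    simp only [h2] at h1
    rw [Finset.sum_add_distrib] at h1
    have h3 : ∑ r ∈ Finset.range (d + 1), g (r + t) * E (F r k) =
        ∑ r ∈ Finset.range d, g (r + t) * E (F r k) := by
      rw [Finset.sum_range_succ, hEd, mul_zero, add_zero]
    rw [h3] at h1
    rw [add_comm]
    exact h1
  refine ⟨fun t ht k => ?_, fun k => ?_⟩
  · have h1 := congrArg D (hg t (by omega) k)
    rw [map_sum, map_zero] at h1
    have h2 : ∀ r, D (g (r + t) * F r k) = g (r + t) * D (F r k) + D (g (r + t)) * F r k := by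
      intro r
      rw [Derivation.leibniz, smul_eq_mul, smul_eq_mul]
      ring
    simp only [h2] at h1
    rw [Finset.sum_add_distrib] at h1
    have h3 : ∑ r ∈ Finset.range (d + 1), g (r + t) * D (F r k) =
        ∑ r ∈ Finset.range d, g (r + (t + 1)) * E (F r k) := by
      rw [Finset.sum_range_succ']
      simp only [hD0, mul_zero, add_zero]
      refine Finset.sum_congr rfl fun r _ => ?_
      rw [hDE, show r + 1 + t = r + (t + 1) by ring]
    rw [h3] at h1
    have h4 := hE (t + 1) (by omega) k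
    have h5 : ∑ r ∈ Finset.range (d + 1), (D (g (r + t)) - E (g (r + t + 1))) * F r k =
        (∑ r ∈ Finset.range d, g (r + (t + 1)) * E (F r k) +
          ∑ r ∈ Finset.range (d + 1), D (g (r + t)) * F r k) -
        (∑ r ∈ Finset.range (d + 1), E (g (r + (t + 1))) * F r k +
          ∑ r ∈ Finset.range d, g (r + (t + 1)) * E (F r k)) := by
      have e : ∀ r, g (r + t + 1) = g (r + (t + 1)) := fun r => rfl
      simp only [sub_mul, e]
      rw [Finset.sum_sub_distrib]
      abel
    rw [h5, h1, h4, sub_zero]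
  · have h4 := hE 0 (by omega) k
    simp only [add_zero] at h4
    rw [Finset.sum_range_succ'] at h4
    unfold phi
    rw [map_sum]
    have h2 : ∀ r, D (g r * F (r + 1) k) = g r * E (F r k) + D (g r) * F (r + 1) k := by
      intro r
      rw [Derivation.leibniz, smul_eq_mul, smul_eq_mul, hDE]
      ring
    simp only [h2, sub_mul]
    rw [Finset.sum_add_distrib, Finset.sum_sub_distrib]
    linear_combination h4

theorem griffiths (F : ℕ → κ → R) (d : ℕ)
    (D E : Derivation ℂ R R) (hD0 : ∀ k, D (F 0 k) = 0)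
    (hDE : ∀ r k, E (F r k) = D (F (r + 1) k)) (hF : ∀ r, d < r → F r = 0)
    (i : ℕ) (g : ℕ → R) (hg : g ∈ Lset F d i) (j : ℕ) (hj : j ≤ i) :
    ∃ (h : ℕ → R) (c : R), ∀ k, (D^[j]) (phi F d g k) = phi F d h k + c * F 0 k := by
  have key : ∀ j ≤ i, ∃ h ∈ Lset F d (i - j), ∃ c : R,
      ∀ k, (D^[j]) (phi F d g k) = phi F d h k + c * F 0 k := by
    intro j
    induction j with
    | zero =>
      intro _
      exact ⟨g, by simpa using hg, 0, fun k => by simp⟩
    | succ j ih =>
      intro hj
      obtain ⟨h, hh, c, hc⟩ := ih (by omega)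
      have h1 : i - j = (i - (j + 1)) + 1 := by omega
      rw [h1] at hh
      obtain ⟨h2, h3⟩ := da14_step F d D E hD0 hDE hF _ h hh
      refine ⟨_, h2, D c - E (h 0), fun k => ?_⟩
      rw [Function.iterate_succ_apply', hc k, map_add, h3 k, Derivation.leibniz, hD0,
        smul_eq_mul, smul_eq_mul, mul_zero]
      ring
  obtain ⟨h, -, c, hc⟩ := key j hj
  exact ⟨h, c, hc⟩

end

end Pool.Agent.Lib_helper49.Dang
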