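import Pool.Agent.Lib_helper49.Dang.Setup

/-! Block da15 -/

namespace Pool.Agent.Lib_helper49.Dang

open Pool.Agent.Lib_helper26.Ebe

/-- The Wronskian type sums. -/
noncomputable def da15_S {κ : Type*} [Fintype κ] (s : κ → ℂ) (α β : κ → Polynomial ℂ) (i j : ℕ) :
    Polynomial ℂ :=
  ∑ k, Polynomial.C (s k) * (Polynomial.derivative^[i] (α k)) * (Polynomial.derivative^[j] (β k))

theorem da15_deriv {κ : Type*} [Fintype κ] (s : κ → ℂ) (α β : κ → Polynomial ℂ) (i j : ℕ) :
    Polynomial.derivative (da15_S s α β i j) = da15_S s α β (i + 1) j + da15_S s α β i (j + 1) := by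
  unfold da15_S
  rw [Polynomial.derivative_sum, ← Finset.sum_add_distrib]
  apply Finset.sum_congr rfl
  intro k _
  rw [Function.iterate_succ_apply', Function.iterate_succ_apply', Polynomial.derivative_mul,
    Polynomial.derivative_mul, Polynomial.derivative_C]
  ring

theorem da15_zero {κ : Type*} [Fintype κ] (s : κ → ℂ) (α β : κ → Polynomial ℂ) (p q : ℕ)
    (h : ∀ i ≤ p, ∀ j ≤ q, da15_S s α β i j = 0) (r : ℕ) (hr : r ≤ q) :
    ∀ i ≤ p + r, ∀ j ≤ q - r, da15_S s α β i j = 0 := by
  induction r with
  | zero => simpa using h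
  | succ r ih =>
    have ih' := ih (by omega)
    intro i hi j hj
    rcases Nat.lt_or_ge (p + r) i with hlt | hge
    · have hi' : i = p + r + 1 := by omega
      subst hi'
      have h1 := da15_deriv s α β (p + r) j
      rw [ih' (p + r) le_rfl j (by omega), ih' (p + r) le_rfl (j + 1) (by omega),
        Polynomial.derivative_zero, add_zero] at h1
      exact h1.symm
    · exact ih' i hge j (by omega)

theorem da15_iter {κ : Type*} [Fintype κ] (s : κ → ℂ) (α β : κ → Polynomial ℂ) (i : ℕ) :
    Polynomial.derivative^[i] (pr s α β) =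
      ∑ k, (Polynomial.C (Polynomial.C (s k)) *
        (Polynomial.derivative^[i] (α k)).map Polynomial.C * Polynomial.C (β k)) := by
  induction i with
  | zero => rfl
  | succ i ih =>
    rw [Function.iterate_succ_apply', ih, Polynomial.derivative_sum]
    apply Finset.sum_congr rfl
    intro k _
    rw [Function.iterate_succ_apply', Polynomial.derivative_mul, Polynomial.derivative_mul,
      Polynomial.derivative_C, Polynomial.derivative_C, Polynomial.derivative_map]
    ring

theorem da15_eval {κ : Type*} [Fintype κ] (s : κ → ℂ) (α β : κ → Polynomial ℂ) (i : ℕ) :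
    (Polynomial.derivative^[i] (pr s α β)).eval Polynomial.X = da15_S s α β i 0 := by
  rw [da15_iter, Polynomial.eval_finsetSum]
  unfold da15_S
  apply Finset.sum_congr rfl
  intro k _
  rw [Polynomial.eval_mul, Polynomial.eval_mul, Polynomial.eval_C, Polynomial.eval_C,
    Polynomial.eval_map, Polynomial.eval₂_C_X]
  rfl

/-- Block da15: divisibility from vanishing derivatives on the diagonal. -/
theorem dvd_pr {κ : Type*} [Fintype κ] (s : κ → ℂ) (α β : κ → Polynomial ℂ) (p q : ℕ)
    (h : ∀ i ≤ p, ∀ j ≤ q, ∑ k, Polynomial.C (s k) *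
      (Polynomial.derivative^[i] (α k)) * (Polynomial.derivative^[j] (β k)) = 0) :
    (Polynomial.X - Polynomial.C Polynomial.X : Polynomial (Polynomial ℂ)) ^ (p + q + 1) ∣
      pr s α β := by
  rw [Polynomial.X_sub_C_pow_dvd_iff, Polynomial.X_pow_dvd_iff]
  intro i hi
  rw [← Polynomial.taylor_apply, Polynomial.taylor_coeff]
  have h1 := da15_eval s α β i
  rw [da15_zero s α β p q h q le_rfl i (by omega) 0 (Nat.zero_le _),
    ← Polynomial.factorial_smul_hasseDeriv, LinearMap.smul_apply, Polynomial.eval_smul,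
    nsmul_eq_mul] at h1
  rcases mul_eq_zero.1 h1 with h2 | h2
  · exfalso
    exact (Nat.cast_ne_zero.2 (Nat.factorial_ne_zero i)) h2
  · exact h2

end Pool.Agent.Lib_helper49.Dang
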