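import Pool.Agent.Lib_helper49.Dang.Setup

/-! Block da16 -/

namespace Pool.Agent.Lib_helper49.Dang

open MvPolynomial Pool.Agent.Lib_helper26.Ebe

/-- Block da16: determinants whose entries are divisible by powers. -/
theorem dvd_det {R : Type*} [CommRing R] {τ : ℕ} (δ : R) (p q : Fin τ → ℕ)
    (M : Matrix (Fin τ) (Fin τ) R) (h : ∀ a b, δ ^ (p a + q b) ∣ M a b) :
    δ ^ (∑ a, p a + ∑ b, q b) ∣ M.det := by
  rw [Matrix.det_apply]
  apply Finset.dvd_sum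
  intro σ _
  have h1 : δ ^ (∑ a, p a + ∑ b, q b) ∣ ∏ i, M (σ i) i := by
    have h2 : δ ^ (∑ a, p a + ∑ b, q b) = ∏ i, δ ^ (p (σ i) + q i) := by
      rw [Finset.prod_pow_eq_pow_sum, Finset.sum_add_distrib, Equiv.sum_comp σ p]
    rw [h2]
    exact Finset.prod_dvd_prod_of_dvd _ _ (fun i _ => h _ _)
  obtain ⟨c, hc⟩ := h1
  rw [hc]
  exact ⟨Equiv.Perm.sign σ • c, by rw [mul_smul_comm]⟩

end Pool.Agent.Lib_helper49.Dang
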