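import Pool.Agent.Lib_helper49.Dang.Setup
import Pool.Agent.Lib_helper49.Dang.B15
import Pool.Agent.Lib_helper49.Dang.B16

/-!
# Block da17 (helper29): the comparison of the two determinants
-/

namespace Pool.Agent.Lib_helper49.Dang

open MvPolynomial Pool.Agent.Lib_helper26.Ebe

section da17

variable {κ : Type*} [Fintype κ]

theorem da17_diag (s : κ → ℂ) (α β : ℕ → κ → Polynomial ℂ)
    (hdiag : ∀ i j, ∑ k, Polynomial.C (s k) * α i k * β j k = 0)
    (x y : κ → Polynomial ℂ) (hx : x ∈ Submodule.span (Polynomial ℂ) (Set.range α))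
    (hy : y ∈ Submodule.span (Polynomial ℂ) (Set.range β)) :
    ∑ k, Polynomial.C (s k) * x k * y k = 0 := by
  induction hx using Submodule.span_induction with
  | mem x hx =>
    obtain ⟨i, rfl⟩ := hx
    induction hy using Submodule.span_induction with
    | mem y hy =>
      obtain ⟨j, rfl⟩ := hy
      exact hdiag i j
    | zero => simp
    | add y z _ _ hy hz =>
      simp only [Pi.add_apply, mul_add, Finset.sum_add_distrib, hy, hz, add_zero]
    | smul c y _ hy =>
      have : ∑ k, Polynomial.C (s k) * α i k * (c • y) k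
          = c * ∑ k, Polynomial.C (s k) * α i k * y k := by
        rw [Finset.mul_sum]
        refine Finset.sum_congr rfl fun k _ => ?_
        simp only [Pi.smul_apply, smul_eq_mul]
        ring
      rw [this, hy, mul_zero]
  | zero => simp
  | add x z _ _ hx hz =>
    simp only [Pi.add_apply, mul_add, add_mul, Finset.sum_add_distrib, hx, hz, add_zero]
  | smul c x _ hx =>
    have : ∑ k, Polynomial.C (s k) * (c • x) k * y k
        = c * ∑ k, Polynomial.C (s k) * x k * y k := by
      rw [Finset.mul_sum]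
      refine Finset.sum_congr rfl fun k _ => ?_
      simp only [Pi.smul_apply, smul_eq_mul]
      ring
    rw [this, hx, mul_zero]

theorem da17_add_left (s : κ → ℂ) (x x' y : κ → Polynomial ℂ) :
    pr s (x + x') y = pr s x y + pr s x' y := by
  simp only [pr, Pi.add_apply, Polynomial.map_add, mul_add, add_mul, Finset.sum_add_distrib]

theorem da17_add_right (s : κ → ℂ) (x y y' : κ → Polynomial ℂ) :
    pr s x (y + y') = pr s x y + pr s x y' := by
  simp only [pr, Pi.add_apply, Polynomial.C_add, mul_add, Finset.sum_add_distrib]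

theorem da17_smul_left (s : κ → ℂ) (c : Polynomial ℂ) (x y : κ → Polynomial ℂ) :
    pr s (c • x) y = c.map Polynomial.C * pr s x y := by
  simp only [pr, Pi.smul_apply, smul_eq_mul, Polynomial.map_mul, Finset.mul_sum]
  refine Finset.sum_congr rfl fun k _ => ?_
  ring

theorem da17_smul_right (s : κ → ℂ) (c : Polynomial ℂ) (x y : κ → Polynomial ℂ) :
    pr s x (c • y) = Polynomial.C c * pr s x y := by
  simp only [pr, Pi.smul_apply, smul_eq_mul, Polynomial.C_mul, Finset.mul_sum]
  refine Finset.sum_congr rfl fun k _ => ?_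
  ring

theorem da17_zero_left (s : κ → ℂ) (y : κ → Polynomial ℂ) : pr s 0 y = 0 := by
  simp [pr]

theorem da17_zero_right (s : κ → ℂ) (y : κ → Polynomial ℂ) : pr s y 0 = 0 := by
  simp [pr]

theorem da17_sum_left (s : κ → ℂ) {τ : ℕ} (c : Fin τ → Polynomial ℂ)
    (x : Fin τ → κ → Polynomial ℂ) (y : κ → Polynomial ℂ) :
    pr s (∑ a, c a • x a) y = ∑ a, (c a).map Polynomial.C * pr s (x a) y := by
  classical
  have : ∀ t : Finset (Fin τ), pr s (∑ a ∈ t, c a • x a) y
      = ∑ a ∈ t, (c a).map Polynomial.C * pr s (x a) y := by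
    intro t
    induction t using Finset.induction_on with
    | empty => simp [da17_zero_left]
    | insert a t ha ih =>
      rw [Finset.sum_insert ha, Finset.sum_insert ha, da17_add_left, da17_smul_left, ih]
  exact this Finset.univ

theorem da17_sum_right (s : κ → ℂ) {τ : ℕ} (c : Fin τ → Polynomial ℂ)
    (x : κ → Polynomial ℂ) (y : Fin τ → κ → Polynomial ℂ) :
    pr s x (∑ a, c a • y a) = ∑ a, Polynomial.C (c a) * pr s x (y a) := by
  classical
  have : ∀ t : Finset (Fin τ), pr s x (∑ a ∈ t, c a • y a)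
      = ∑ a ∈ t, Polynomial.C (c a) * pr s x (y a) := by
    intro t
    induction t using Finset.induction_on with
    | empty => simp [da17_zero_right]
    | insert a t ha ih =>
      rw [Finset.sum_insert ha, Finset.sum_insert ha, da17_add_right, da17_smul_right, ih]
  exact this Finset.univ

theorem da17_span_left (s : κ → ℂ) (α : ℕ → κ → Polynomial ℂ) (y : κ → Polynomial ℂ)
    (h : ∀ i, pr s (α i) y = 0) (x : κ → Polynomial ℂ)
    (hx : x ∈ Submodule.span (Polynomial ℂ) (Set.range α)) : pr s x y = 0 := by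
  induction hx using Submodule.span_induction with
  | mem x hx =>
    obtain ⟨i, rfl⟩ := hx
    exact h i
  | zero => exact da17_zero_left s y
  | add x z _ _ hx hz => rw [da17_add_left, hx, hz, add_zero]
  | smul c x _ hx => rw [da17_smul_left, hx, mul_zero]

theorem da17_span_right (s : κ → ℂ) (β : ℕ → κ → Polynomial ℂ) (x : κ → Polynomial ℂ)
    (h : ∀ j, pr s x (β j) = 0) (y : κ → Polynomial ℂ)
    (hy : y ∈ Submodule.span (Polynomial ℂ) (Set.range β)) : pr s x y = 0 := by
  induction hy using Submodule.span_induction with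
  | mem y hy =>
    obtain ⟨i, rfl⟩ := hy
    exact h i
  | zero => exact da17_zero_right s x
  | add y z _ _ hy hz => rw [da17_add_right, hy, hz, add_zero]
  | smul c y _ hy => rw [da17_smul_right, hy, mul_zero]

theorem da17_natDegree (s : κ → ℂ) (x y : κ → Polynomial ℂ) (i : ℕ)
    (h : ∀ k, (x k).natDegree ≤ i) : (pr s x y).natDegree ≤ i := by
  unfold pr
  refine Polynomial.natDegree_sum_le_of_forall_le _ _ fun k _ => ?_
  refine (Polynomial.natDegree_mul_C_le _ _).trans ?_
  refine (Polynomial.natDegree_C_mul_le _ _).trans ?_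
  exact (Polynomial.natDegree_map_le).trans (h k)

theorem da17_det_natDegree {R : Type*} [CommRing R] {τ : ℕ}
    (Q : Matrix (Fin τ) (Fin τ) (Polynomial R)) (h : ∀ i j, (Q i j).natDegree ≤ i + 1) :
    Q.det.natDegree ≤ ∑ i : Fin τ, ((i : ℕ) + 1) := by
  rw [Matrix.det_apply]
  refine Polynomial.natDegree_sum_le_of_forall_le _ _ fun σ _ => ?_
  refine (Polynomial.natDegree_smul_le _ _).trans ?_
  refine (Polynomial.natDegree_prod_le _ _).trans ?_
  calc ∑ i, (Q (σ i) i).natDegree ≤ ∑ i, (((σ i : Fin τ) : ℕ) + 1) :=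
        Finset.sum_le_sum fun i _ => h (σ i) i
    _ = ∑ i : Fin τ, ((i : ℕ) + 1) := Equiv.sum_comp σ (fun i : Fin τ => (i : ℕ) + 1)

theorem da17_not_dvd (b b' : Polynomial ℂ) (hb : b ≠ 0) (hb' : b' ≠ 0) :
    ¬ (Polynomial.X - Polynomial.C Polynomial.X : Polynomial (Polynomial ℂ)) ∣
      b.map Polynomial.C * Polynomial.C b' := by
  rw [Polynomial.dvd_iff_isRoot]
  intro h
  have h1 : (b.map Polynomial.C * Polynomial.C b').eval (Polynomial.X : Polynomial ℂ) = 0 := h
  rw [Polynomial.eval_mul, Polynomial.eval_C, Polynomial.eval_map, Polynomial.eval₂_C_X] at h1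
  exact (mul_ne_zero hb hb') h1

theorem comb (s : κ → ℂ) (τ : ℕ) (α β : ℕ → κ → Polynomial ℂ)
    (hdiag : ∀ i j, ∑ k, Polynomial.C (s k) * α i k * β j k = 0)
    (hα0 : ∀ j, pr s (α 0) (β j) = 0) (hβ0 : ∀ i, pr s (α i) (β 0) = 0)
    (hdeg : ∀ i k, (α i k).natDegree ≤ i)
    (m m' : Fin τ → ℕ) (Φ Ψ : Fin τ → κ → Polynomial ℂ)
    (hΦ : ∀ a, ∀ j ≤ m a, (fun k => Polynomial.derivative^[j] (Φ a k)) ∈
      Submodule.span (Polynomial ℂ) (Set.range α))
    (hΨ : ∀ a, ∀ j ≤ m' a, (fun k => Polynomial.derivative^[j] (Ψ a k)) ∈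
      Submodule.span (Polynomial ℂ) (Set.range β))
    (b b' : Polynomial ℂ) (hb : b ≠ 0) (hb' : b' ≠ 0)
    (hspan : ∀ r : Fin τ, b • α (r + 1) ∈ Submodule.span (Polynomial ℂ)
      (Set.range (Fin.cons (α 0) Φ : Fin (τ + 1) → κ → Polynomial ℂ)))
    (hspan' : ∀ r : Fin τ, b' • β (r + 1) ∈ Submodule.span (Polynomial ℂ)
      (Set.range (Fin.cons (β 0) Ψ : Fin (τ + 1) → κ → Polynomial ℂ)))
    (hQ : (Matrix.of fun i j : Fin τ => pr s (α (i + 1)) (β (j + 1))).det ≠ 0) :
    2 * (∑ a, m a + ∑ a, (m' a + 1)) ≤ τ * (τ + 1) := by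
  classical
  set δ : Polynomial (Polynomial ℂ) := Polynomial.X - Polynomial.C Polynomial.X with hδ
  -- coefficients
  have hc : ∀ r : Fin τ, ∃ (c0 : Polynomial ℂ) (c : Fin τ → Polynomial ℂ),
      b • α (r + 1) = c0 • α 0 + ∑ a, c a • Φ a := by
    intro r
    obtain ⟨c, hc⟩ := (Submodule.mem_span_range_iff_exists_fun _).1 (hspan r)
    refine ⟨c 0, fun a => c a.succ, ?_⟩
    rw [← hc, Fin.sum_univ_succ]
    simp
  have hc' : ∀ r : Fin τ, ∃ (c0 : Polynomial ℂ) (c : Fin τ → Polynomial ℂ),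
      b' • β (r + 1) = c0 • β 0 + ∑ a, c a • Ψ a := by
    intro r
    obtain ⟨c, hc⟩ := (Submodule.mem_span_range_iff_exists_fun _).1 (hspan' r)
    refine ⟨c 0, fun a => c a.succ, ?_⟩
    rw [← hc, Fin.sum_univ_succ]
    simp
  choose c0 c hc using hc
  choose c0' c' hc' using hc'
  have hΦ0 : ∀ a, pr s (Φ a) (β 0) = 0 := fun a =>
    da17_span_left s α (β 0) hβ0 _ (by simpa using hΦ a 0 (Nat.zero_le _))
  have hΨ0 : ∀ a, pr s (α 0) (Ψ a) = 0 := fun a =>
    da17_span_right s β (α 0) hα0 _ (by simpa using hΨ a 0 (Nat.zero_le _))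
  have hf : ∀ a a', δ ^ (m a + (m' a' + 1)) ∣ pr s (Φ a) (Ψ a') := by
    intro a a'
    have := dvd_pr s (Φ a) (Ψ a') (m a) (m' a') (fun i hi j hj =>
      da17_diag s α β hdiag _ _ (hΦ a i hi) (hΨ a' j hj))
    rw [← add_assoc]
    exact this
  set Q : Matrix (Fin τ) (Fin τ) (Polynomial (Polynomial ℂ)) :=
    Matrix.of fun i j : Fin τ => pr s (α (i + 1)) (β (j + 1)) with hQdef
  set f : Matrix (Fin τ) (Fin τ) (Polynomial (Polynomial ℂ)) :=
    Matrix.of fun a a' : Fin τ => pr s (Φ a) (Ψ a') with hfdef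
  set C1 : Matrix (Fin τ) (Fin τ) (Polynomial (Polynomial ℂ)) :=
    Matrix.of fun i a : Fin τ => (c i a).map Polynomial.C with hC1
  set C2 : Matrix (Fin τ) (Fin τ) (Polynomial (Polynomial ℂ)) :=
    Matrix.of fun a' j : Fin τ => Polynomial.C (c' j a') with hC2
  have hmat : (b.map Polynomial.C * Polynomial.C b') • Q = C1 * f * C2 := by
    ext1 i j
    have e1 : pr s (b • α (i + 1)) (b' • β (j + 1))
        = b.map Polynomial.C * Polynomial.C b' * Q i j := by
      rw [da17_smul_left, da17_smul_right, hQdef, Matrix.of_apply, mul_assoc]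
    have e2 : pr s (b • α (i + 1)) (b' • β (j + 1))
        = ∑ a', (∑ a, (c i a).map Polynomial.C * pr s (Φ a) (Ψ a')) *
            Polynomial.C (c' j a') := by
      rw [hc i, hc' j, da17_add_left, da17_smul_left, da17_add_right, da17_smul_right, hα0,
        mul_zero, zero_add, da17_sum_right]
      simp only [hΨ0, mul_zero, Finset.sum_const_zero, zero_add]
      rw [da17_add_right, da17_smul_right, da17_sum_left]
      simp only [hΦ0, mul_zero, Finset.sum_const_zero, zero_add]
      rw [da17_sum_right]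
      refine Finset.sum_congr rfl fun a' _ => ?_
      rw [da17_sum_left, mul_comm]
    rw [Matrix.smul_apply, smul_eq_mul, ← e1, e2, Matrix.mul_apply]
    refine Finset.sum_congr rfl fun a' _ => ?_
    rw [Matrix.mul_apply]
    rfl
  have hdet : (b.map Polynomial.C * Polynomial.C b') ^ τ * Q.det
      = C1.det * f.det * C2.det := by
    have := congrArg Matrix.det hmat
    rw [Matrix.det_smul, Matrix.det_mul, Matrix.det_mul, Fintype.card_fin] at this
    exact this
  have hfd : δ ^ (∑ a, m a + ∑ a, (m' a + 1)) ∣ f.det :=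
    dvd_det δ m (fun a => m' a + 1) f (fun a a' => hf a a')
  have hprime : Prime δ := Polynomial.prime_X_sub_C _
  have hnd : ¬ δ ∣ (b.map Polynomial.C * Polynomial.C b') ^ τ := by
    intro h
    exact da17_not_dvd b b' hb hb' (hprime.dvd_of_dvd_pow h)
  have hdvd : δ ^ (∑ a, m a + ∑ a, (m' a + 1)) ∣
      (b.map Polynomial.C * Polynomial.C b') ^ τ * Q.det := by
    rw [hdet]
    exact Dvd.dvd.mul_right (Dvd.dvd.mul_left hfd _) _
  have hdvdQ : δ ^ (∑ a, m a + ∑ a, (m' a + 1)) ∣ Q.det :=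
    hprime.pow_dvd_of_dvd_mul_left _ hnd hdvd
  have h1 : (δ ^ (∑ a, m a + ∑ a, (m' a + 1))).natDegree ≤ Q.det.natDegree :=
    Polynomial.natDegree_le_of_dvd hdvdQ hQ
  rw [Polynomial.natDegree_pow, hδ, Polynomial.natDegree_X_sub_C, mul_one] at h1
  have h2 : Q.det.natDegree ≤ ∑ i : Fin τ, ((i : ℕ) + 1) :=
    da17_det_natDegree Q fun i j => da17_natDegree s _ _ _ (hdeg (i + 1))
  have h3 : 2 * ∑ i : Fin τ, ((i : ℕ) + 1) = τ * (τ + 1) := by
    rw [Fin.sum_univ_eq_sum_range (fun i => i + 1) τ]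
    have h4 := Finset.sum_range_id_mul_two (τ + 1)
    rw [Finset.sum_range_succ' (fun i => i) τ] at h4
    simp only [add_zero, Nat.add_sub_cancel] at h4
    rw [mul_comm 2, h4, mul_comm]
  calc 2 * (∑ a, m a + ∑ a, (m' a + 1)) ≤ 2 * ∑ i : Fin τ, ((i : ℕ) + 1) :=
        Nat.mul_le_mul_left 2 (h1.trans h2)
    _ = τ * (τ + 1) := h3

end da17

example : @comb = @comb := rfl

end Pool.Agent.Lib_helper49.Dang
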