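import Pool.Agent.Lib_helper49.Dang.Setup

/-! Blocks da18, da19 -/

namespace Pool.Agent.Lib_helper49.Dang

open MvPolynomial Pool.Agent.Lib_helper26.Ebe

variable {n N : ℕ}

theorem da18_add_left (u v w : Fin (N + 1) → ℂ) : hf (u + v) w = hf u w + hf v w := by
  simp only [hf, Pi.add_apply, add_mul, Finset.sum_add_distrib]; ring

theorem da18_smul_left (c : ℂ) (u w : Fin (N + 1) → ℂ) : hf (c • u) w = c * hf u w := by
  simp only [hf, Pi.smul_apply, smul_eq_mul, mul_sub, Finset.mul_sum, mul_assoc]

theorem da18_conj (u w : Fin (N + 1) → ℂ) : hf w u = (starRingEnd ℂ) (hf u w) := by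
  simp only [hf, map_sub, map_sum, map_mul, Complex.conj_conj]
  congr 1
  · apply Finset.sum_congr rfl
    intro i _
    ring
  · ring

/-- `hf · w` as a linear map. -/
noncomputable def da18_lin (w : Fin (N + 1) → ℂ) : (Fin (N + 1) → ℂ) →ₗ[ℂ] ℂ where
  toFun u := hf u w
  map_add' u v := da18_add_left u v w
  map_smul' c u := by rw [da18_smul_left]; rfl

theorem da18_sum_left {ι : Type*} (s : Finset ι) (c : ι → ℂ) (v : ι → Fin (N + 1) → ℂ)
    (w : Fin (N + 1) → ℂ) : hf (∑ a ∈ s, c a • v a) w = ∑ a ∈ s, c a * hf (v a) w := by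
  have := map_sum (da18_lin w) (fun a => c a • v a) s
  simp only [map_smul, smul_eq_mul] at this
  exact this

theorem da18_sum_right {ι : Type*} (s : Finset ι) (c : ι → ℂ) (v : ι → Fin (N + 1) → ℂ)
    (w : Fin (N + 1) → ℂ) :
    hf w (∑ a ∈ s, c a • v a) = ∑ a ∈ s, (starRingEnd ℂ) (c a) * hf w (v a) := by
  rw [da18_conj, da18_sum_left, map_sum]
  apply Finset.sum_congr rfl
  intro a _
  rw [map_mul, ← da18_conj]

theorem da18_sub_left (u v w : Fin (N + 1) → ℂ) : hf (u - v) w = hf u w - hf v w := by
  have := map_sub (da18_lin w) u v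
  exact this

theorem da18_sub_right (u v w : Fin (N + 1) → ℂ) : hf w (u - v) = hf w u - hf w v := by
  rw [da18_conj, da18_sub_left, map_sub, ← da18_conj, ← da18_conj]

theorem da18_smul_right (c : ℂ) (u w : Fin (N + 1) → ℂ) :
    hf w (c • u) = (starRingEnd ℂ) c * hf w u := by
  rw [da18_conj, da18_smul_left, map_mul, ← da18_conj]

/-- a null vector with zero first coordinate vanishes -/
theorem da18_zero (u : Fin (N + 1) → ℂ) (h0 : u 0 = 0) (hu : hf u u = 0) : u = 0 := by
  simp only [hf, h0, zero_mul, sub_zero, Complex.mul_conj] at hu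
  rw [← Complex.ofReal_sum, Complex.ofReal_eq_zero,
    Finset.sum_eq_zero_iff_of_nonneg (fun i _ => Complex.normSq_nonneg _)] at hu
  funext i
  refine Fin.cases ?_ (fun j => ?_) i
  · simpa using h0
  · exact Complex.normSq_eq_zero.1 (hu j (Finset.mem_univ j))

/-- Lorentz lemma. -/
theorem da18_lorentz (u w : Fin (N + 1) → ℂ) (hu0 : u ≠ 0) (hu : hf u u = 0) (hwu : hf w u = 0)
    (hw : hf w w = 0) : ∃ c : ℂ, w = c • u := by
  have h0 : u 0 ≠ 0 := fun h => hu0 (da18_zero u h hu)
  refine ⟨w 0 / u 0, ?_⟩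
  have h1 : w - (w 0 / u 0) • u = 0 := by
    apply da18_zero
    · simp only [Pi.sub_apply, Pi.smul_apply, smul_eq_mul]
      rw [div_mul_cancel₀ _ h0, sub_self]
    · have huw : hf u w = 0 := by rw [da18_conj, hwu, map_zero]
      rw [da18_sub_left, da18_smul_left, da18_sub_right, da18_sub_right, da18_smul_right,
        da18_smul_right, hw, hwu, huw, hu]
      ring
  exact sub_eq_zero.1 h1

/-- Block da18: Gram determinants on the orthogonal complement of a null vector. -/
theorem gram_ne_zero {τ : ℕ} (u : Fin (N + 1) → ℂ) (v : Fin τ → Fin (N + 1) → ℂ)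
    (hu : hf u u = 0) (hv : ∀ a, hf (v a) u = 0)
    (hli : LinearIndependent ℂ (Fin.cons u v : Fin (τ + 1) → Fin (N + 1) → ℂ)) :
    (Matrix.of fun a b : Fin τ => hf (v a) (v b)).det ≠ 0 := by
  intro hdet
  have hu0 : u ≠ 0 := by
    have := hli.ne_zero 0
    simpa using this
  obtain ⟨c, hc0, hc⟩ := Matrix.exists_vecMul_eq_zero_iff.2 hdet
  have hcb : ∀ b, ∑ a, c a * hf (v a) (v b) = 0 := by
    intro b
    have := congrFun hc b
    simpa [Matrix.vecMul, dotProduct] using this
  set w : Fin (N + 1) → ℂ := ∑ a, c a • v a with hw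
  have h1 : hf w u = 0 := by
    rw [hw, da18_sum_left]
    exact Finset.sum_eq_zero fun a _ => by rw [hv, mul_zero]
  have h2 : ∀ b, hf w (v b) = 0 := by
    intro b
    rw [hw, da18_sum_left]
    exact hcb b
  have h3 : hf w w = 0 := by
    conv_lhs => arg 2; rw [hw]
    rw [da18_sum_right]
    exact Finset.sum_eq_zero fun a _ => by rw [h2, mul_zero]
  obtain ⟨l, hl⟩ := da18_lorentz u w hu0 hu h1 h3
  have h4 := Fintype.linearIndependent_iff.1 hli (Fin.cons (-l) c) (by
    rw [Fin.sum_univ_succ]
    simp only [Fin.cons_zero, Fin.cons_succ]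
    rw [← hw, hl]
    simp)
  apply hc0
  funext a
  have := h4 a.succ
  simpa using this

/-- Block da19: orthogonal families in the orthogonal complement of a null vector. -/
theorem dim_bound {τ κ : ℕ} (u : Fin (N + 1) → ℂ) (v : Fin κ → Fin τ → Fin (N + 1) → ℂ)
    (hu : hf u u = 0) (hκ : 1 ≤ κ) (hv : ∀ k a, hf (v k a) u = 0)
    (hort : ∀ k l, k ≠ l → ∀ a b, hf (v k a) (v l b) = 0)
    (hli : ∀ k, LinearIndependent ℂ (Fin.cons u (v k) : Fin (τ + 1) → Fin (N + 1) → ℂ)) :
    κ * τ + 1 ≤ N := by
  classical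
  have hu0 : u ≠ 0 := by
    have := (hli ⟨0, hκ⟩).ne_zero 0
    simpa using this
  have h0 : u 0 ≠ 0 := fun h => hu0 (da18_zero u h hu)
  -- the family
  set fam : Unit ⊕ (Fin κ × Fin τ) → Fin (N + 1) → ℂ :=
    Sum.elim (fun _ => u) (fun p => v p.1 p.2) with hfam
  have hLI : LinearIndependent ℂ fam := by
    rw [Fintype.linearIndependent_iff]
    intro g hg
    rw [Fintype.sum_sum_type, Fintype.sum_prod_type] at hg
    simp only [hfam, Sum.elim_inl, Sum.elim_inr, Finset.univ_unique, Finset.sum_singleton] at hg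
    set w : Fin κ → Fin (N + 1) → ℂ := fun k => ∑ a, g (Sum.inr (k, a)) • v k a with hw
    have hwu : ∀ k, hf (w k) u = 0 := by
      intro k
      rw [hw]
      simp only
      rw [da18_sum_left]
      exact Finset.sum_eq_zero fun a _ => by rw [hv, mul_zero]
    have hww : ∀ k l, k ≠ l → hf (w k) (w l) = 0 := by
      intro k l hkl
      rw [hw]
      simp only
      rw [da18_sum_left]
      refine Finset.sum_eq_zero fun a _ => ?_
      rw [da18_sum_right, Finset.sum_eq_zero, mul_zero]
      intro b _
      rw [hort k l hkl, mul_zero]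
    have hkk : ∀ k, hf (w k) (w k) = 0 := by
      intro k
      have e1 : hf (w k) (∑ l, (1 : ℂ) • w l) = hf (w k) (w k) := by
        rw [da18_sum_right, Finset.sum_eq_single k]
        · rw [map_one, one_mul]
        · intro l _ hl
          rw [hww k l hl.symm, mul_zero]
        · intro h; exact absurd (Finset.mem_univ k) h
      have e2 : ∑ l, (1 : ℂ) • w l = (-(g (Sum.inl ()))) • u := by
        simp only [one_smul]
        have : ∑ l, w l = -(g (Sum.inl ()) • u) := by
          rw [eq_neg_iff_add_eq_zero, add_comm (∑ l, w l)]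
          exact hg
        rw [this, neg_smul]
      rw [← e1, e2, da18_smul_right, hwu, mul_zero]
    have hz : ∀ k a, g (Sum.inr (k, a)) = 0 := by
      intro k a
      obtain ⟨c, hc⟩ := da18_lorentz u (w k) hu0 hu (hwu k) (hkk k)
      have h4 := Fintype.linearIndependent_iff.1 (hli k)
        (Fin.cons (-c) (fun a => g (Sum.inr (k, a)))) (by
          rw [Fin.sum_univ_succ]
          simp only [Fin.cons_zero, Fin.cons_succ]
          have : ∑ a, g (Sum.inr (k, a)) • v k a = w k := rfl
          rw [this, hc]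
          simp)
      have := h4 a.succ
      simpa using this
    have hw0 : ∀ k, w k = 0 := by
      intro k
      rw [hw]
      simp only
      exact Finset.sum_eq_zero fun a _ => by rw [hz, zero_smul]
    have hg0 : g (Sum.inl ()) • u = 0 := by
      have e3 : ∑ k, w k = 0 := Finset.sum_eq_zero fun k _ => hw0 k
      have e4 : g (Sum.inl ()) • u + ∑ k, w k = 0 := hg
      rw [e3, add_zero] at e4
      exact e4
    rintro (⟨⟩ | ⟨k, a⟩)
    · rcases smul_eq_zero.1 hg0 with h | h
      · exact h
      · exact absurd h hu0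
    · exact hz k a
  -- they lie in the kernel
  have hker : ∀ x, fam x ∈ LinearMap.ker (da18_lin u) := by
    rintro (⟨⟩ | ⟨k, a⟩)
    · exact hu
    · exact hv k a
  have hLI' : LinearIndependent ℂ (fun x => (⟨fam x, hker x⟩ : LinearMap.ker (da18_lin u))) := by
    apply LinearIndependent.of_comp (LinearMap.ker (da18_lin u)).subtype
    exact hLI
  have hcard := hLI'.fintype_card_le_finrank
  have hfin : Module.finrank ℂ (LinearMap.ker (da18_lin u)) = N := by
    have h1 := LinearMap.finrank_range_add_finrank_ker (da18_lin u)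
    have h2 : LinearMap.range (da18_lin u) = ⊤ := by
      rw [LinearMap.range_eq_top]
      apply LinearMap.surjective
      intro hzero
      have h3 : da18_lin u (Pi.single 0 1) = 0 := by rw [hzero]; rfl
      have h4 : da18_lin u (Pi.single 0 1) = -(starRingEnd ℂ) (u 0) := by
        change hf (Pi.single 0 1) u = _
        simp [hf]
      rw [h4, neg_eq_zero, map_eq_zero] at h3
      exact h0 h3
    rw [h2, finrank_top, Module.finrank_self, Module.finrank_fin_fun] at h1
    omega
  rw [hfin, Fintype.card_sum, Fintype.card_prod, Fintype.card_fin, Fintype.card_fin,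
    Fintype.card_unit] at hcard
  omega

end Pool.Agent.Lib_helper49.Dang
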