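import Pool.Agent.Lib_helper49.Dang.Setup
import Pool.Agent.Lib_helper49.Dang.B05
import Pool.Agent.Lib_helper49.Dang.B06
import Pool.Agent.Lib_helper49.Dang.B07
import Pool.Agent.Lib_helper49.Dang.B14
import Pool.Agent.Lib_helper49.Dang.B17
import Pool.Agent.Lib_helper49.Dang.B18

/-!
# D'Angelo's degree problem: block da20
-/

namespace Pool.Agent.Lib_helper49.Dang

open MvPolynomial Pool.Agent.Lib_helper26.Ebe

variable {n N d : ℕ} {P : Fin (N + 1) → MvPolynomial (Fin n) ℂ}

theorem da20_ip_add_left (x y z : Fin n → ℂ) : ip (x + y) z = ip x z + ip y z := by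
  simp only [ip, Pi.add_apply, add_mul, Finset.sum_add_distrib]

theorem da20_ip_smul_left (c : ℂ) (x z : Fin n → ℂ) : ip (c • x) z = c * ip x z := by
  simp only [ip, Pi.smul_apply, smul_eq_mul, mul_assoc, Finset.mul_sum]

theorem da20_ip_conj (x y : Fin n → ℂ) : (starRingEnd ℂ) (ip x y) = ip y x := by
  simp only [ip, map_sum, map_mul, RingHomCompTriple.comp_apply, RingHom.id_apply]
  exact Finset.sum_congr rfl fun i _ => mul_comm _ _

theorem da20_ip_add_right (x y z : Fin n → ℂ) : ip x (y + z) = ip x y + ip x z := by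
  simp only [ip, Pi.add_apply, map_add, mul_add, Finset.sum_add_distrib]

theorem da20_ip_smul_right (c : ℂ) (x z : Fin n → ℂ) :
    ip x (c • z) = (starRingEnd ℂ) c * ip x z := by
  simp only [ip, Pi.smul_apply, smul_eq_mul, map_mul, Finset.mul_sum]
  exact Finset.sum_congr rfl fun i _ => by ring

theorem da20_ip_self_ne {x : Fin n → ℂ} (hx : x ≠ 0) : ip x x ≠ 0 := by
  have h1 : ip x x = ((∑ i, ‖x i‖ ^ 2 : ℝ) : ℂ) := by
    simp only [ip, Complex.mul_conj, Complex.normSq_eq_norm_sq]
    push_cast
    rfl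
  rw [h1]
  intro h
  have h2 : ∑ i, ‖x i‖ ^ 2 = 0 := by exact_mod_cast h
  rw [Finset.sum_eq_zero_iff_of_nonneg (fun i _ => sq_nonneg _)] at h2
  apply hx
  funext i
  have := h2 i (Finset.mem_univ i)
  simpa using this

theorem da20_sum_sg (u v : Fin (N + 1) → ℂ) :
    ∑ k, sg k * u k * (starRingEnd ℂ) (v k) = hf u v := by
  rw [Fin.sum_univ_succ]
  simp only [sg, if_true, Fin.succ_ne_zero, if_false, hf]
  rw [neg_mul, neg_mul]
  simp only [one_mul]
  ring

theorem da20_ev_pr {κ : Type*} [Fintype κ] (s : κ → ℂ) (α β : κ → Polynomial ℂ) (u v : ℂ) :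
    ((pr s α β).eval (Polynomial.C u)).eval v =
      ∑ k, s k * (α k).eval u * (β k).eval v := by
  rw [pr, Polynomial.eval_finsetSum, Polynomial.eval_finsetSum]
  refine Finset.sum_congr rfl fun k _ => ?_
  have h1 : ((α k).map (Polynomial.C : ℂ →+* Polynomial ℂ)).eval (Polynomial.C u) =
      Polynomial.C ((α k).eval u) := by
    rw [Polynomial.eval_map, Polynomial.eval₂_at_apply]
  simp only [Polynomial.eval_mul, Polynomial.eval_C, h1]

theorem da20_pr_eq_zero {κ : Type*} [Fintype κ] (s : κ → ℂ) (α β : κ → Polynomial ℂ)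
    (h : ∀ u v : ℂ, ∑ k, s k * (α k).eval u * (β k).eval v = 0) : pr s α β = 0 := by
  have h1 : ∀ v : ℂ, (pr s α β).map (Polynomial.evalRingHom v) = 0 := by
    intro v
    apply Polynomial.funext
    intro u
    have h2 := Polynomial.eval₂_at_apply (p := pr s α β) (Polynomial.evalRingHom v)
      (Polynomial.C u)
    rw [Polynomial.coe_evalRingHom, Polynomial.eval_C, da20_ev_pr, h u v] at h2
    rw [Polynomial.eval_zero, Polynomial.eval_map, h2]
  ext i : 1
  apply Polynomial.funext
  intro v
  have h2 := congrArg (fun p => Polynomial.coeff p i) (h1 v)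
  simp only [Polynomial.coeff_map, Polynomial.coe_evalRingHom, Polynomial.coeff_zero] at h2
  rw [h2]
  simp

/-- Ring homomorphisms map spans to spans. -/
theorem da20_map_span {R S : Type*} [CommRing R] [CommRing S] (L : R →+* S) {ι κ : Type*}
    (G : ι → κ → R) (w : κ → R) (hw : w ∈ Submodule.span R (Set.range G)) :
    (fun k => L (w k)) ∈ Submodule.span S (Set.range fun i k => L (G i k)) := by
  induction hw using Submodule.span_induction with
  | mem x h =>
    obtain ⟨i, rfl⟩ := h
    exact Submodule.subset_span ⟨i, rfl⟩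
  | zero =>
    have : (fun k : κ => L ((0 : κ → R) k)) = 0 := by
      funext k
      simp
    rw [this]
    exact Submodule.zero_mem _
  | add x y _ _ hx hy =>
    have : (fun k : κ => L ((x + y) k)) = (fun k => L (x k)) + fun k => L (y k) := by
      funext k
      simp
    rw [this]
    exact Submodule.add_mem _ hx hy
  | smul c x _ hx =>
    have : (fun k : κ => L ((c • x) k)) = L c • fun k => L (x k) := by
      funext k
      simp
    rw [this]
    exact Submodule.smul_mem _ _ hx

theorem da20_span_cons {R S : Type*} [CommRing R] [CommRing S] (L : R →+* S) {κ : Type*} {τ : ℕ}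
    (F0 : κ → R) (G : Fin τ → κ → R) (δ : R) (w : κ → R)
    (hw : δ • w ∈ Submodule.span R
      (Set.range (Fin.cons F0 G : Fin (τ + 1) → κ → R))) :
    (L δ • fun k => L (w k)) ∈ Submodule.span S
      (Set.range (Fin.cons (fun k => L (F0 k)) (fun a k => L (G a k)) :
        Fin (τ + 1) → κ → S)) := by
  have h1 := da20_map_span L _ _ hw
  have h2 : (fun k => L ((δ • w) k)) = L δ • fun k => L (w k) := by
    funext k
    simp
  have h3 : (fun i k => L ((Fin.cons F0 G : Fin (τ + 1) → κ → R) i k)) =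
      (Fin.cons (fun k => L (F0 k)) (fun a k => L (G a k)) : Fin (τ + 1) → κ → S) := by
    funext i
    refine Fin.cases ?_ (fun i => ?_) i <;> rfl
  rw [h2, h3] at h1
  exact h1

/-- Image of `phi`. -/
theorem da20_phi_mem {R S : Type*} [CommRing R] [CommRing S] (L : R →+* S) {κ : Type*}
    (F : ℕ → κ → R) (d : ℕ) (h : ℕ → R) (c : R) :
    (fun k => L (phi F d h k + c * F 0 k)) ∈
      Submodule.span S (Set.range fun r k => L (F r k)) := by
  have h1 : (fun k => L (phi F d h k + c * F 0 k)) =
      ∑ r ∈ Finset.range d, L (h r) • (fun k => L (F (r + 1) k)) +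
        L c • fun k => L (F 0 k) := by
    funext k
    simp [phi, Finset.sum_apply]
  rw [h1]
  refine Submodule.add_mem _ (Submodule.sum_mem _ fun r _ => Submodule.smul_mem _ _
    (Submodule.subset_span ⟨r + 1, rfl⟩)) (Submodule.smul_mem _ _
    (Submodule.subset_span ⟨0, rfl⟩))

theorem da20_iter_lin (a x e : Fin n → ℂ) (j : ℕ) (f : A n) :
    Polynomial.derivative^[j] (lin a x e f) = lin a x e ((Dx e)^[j] f) := by
  induction j generalizing f with
  | zero => rfl
  | succ j ih => rw [Function.iterate_succ_apply, derivative_lin, ih,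
      Function.iterate_succ_apply]

theorem da20_iter_cjp (j : ℕ) (f : Polynomial ℂ) :
    Polynomial.derivative^[j] (cjp f) = cjp (Polynomial.derivative^[j] f) := by
  induction j generalizing f with
  | zero => rfl
  | succ j ih =>
    rw [Function.iterate_succ_apply, Function.iterate_succ_apply, ← ih]
    congr 1
    exact Polynomial.derivative_map f _

theorem da20_smul_orth (hP : SMap n N d P) {a x y : Fin n → ℂ} (ha : OnSphere a)
    (hx : ip x a = 0) (r : ℕ) : hf (Fv P a x r) (Fv P a y 0) = 0 ∧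
      hf (Fv P a y 0) (Fv P a x r) = 0 := by
  have h0 : Fv P a y 0 = Fv P a 0 0 := by
    funext i
    simp only [Fv, Fc_zero, eval_rename]
    rfl
  have h1 : ip (0 : Fin n → ℂ) a = 0 := by simp [ip]
  rw [h0]
  exact ⟨orth hP ha hx h1 (by simp [ip]) r 0, orth hP ha h1 hx (by simp [ip]) 0 r⟩

/-- Independence persists at a nearby point of the line. -/
theorem da20_exists_u {τ : ℕ} {a x : Fin n → ℂ} (e : Fin n → ℂ)
    (hosc : LinearIndependent ℂ (fun r : Fin (τ + 1) => Fv P a x r)) :
    ∃ u : ℂ, u ≠ 0 ∧ LinearIndependent ℂ (fun r : Fin (τ + 1) => Fv P a (x + u • e) r) := by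
  have hc : Continuous fun u : ℂ => (fun r : Fin (τ + 1) => Fv P a (x + u • e) r) := by
    refine continuous_pi fun r => continuous_pi fun k => ?_
    have : (fun u : ℂ => Fv P a (x + u • e) r k) =
        fun u => (lin a x e (Fc P r k)).eval u := by
      funext u
      rw [eval_lin]
      rfl
    rw [this]
    exact Polynomial.continuous _
  have ho : IsOpen {u : ℂ | LinearIndependent ℂ
      (fun r : Fin (τ + 1) => Fv P a (x + u • e) r)} :=
    isOpen_setOfPred_linearIndependent.preimage hc
  have hm : {u : ℂ | LinearIndependent ℂ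
      (fun r : Fin (τ + 1) => Fv P a (x + u • e) r)} ∈ nhds (0 : ℂ) := by
    apply ho.mem_nhds
    simpa using hosc
  have h1 : ∀ᶠ u in nhdsWithin (0 : ℂ) {0}ᶜ, LinearIndependent ℂ
      (fun r : Fin (τ + 1) => Fv P a (x + u • e) r) := nhdsWithin_le_nhds hm
  obtain ⟨u, hu, hu0⟩ := (h1.and self_mem_nhdsWithin).exists
  exact ⟨u, hu0, hu⟩

/-- Block da20: the inequality at a good point. Uses da05, da06, da07, da14, da17, da18. -/
theorem key (hP : SMap n N d P) {τ : ℕ} (m : Fin τ → ℕ) (g : Fin τ → ℕ → A n) (δ : A n)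
    (hg : ∀ a, g a ∈ Lset (Fc P) d (m a)) (hm : ∑ a, (m a + 1) = d)
    (hspan : ∀ r ≤ d, δ • Fc P r ∈ Submodule.span (A n)
        (Set.range (Fin.cons (Fc P 0) (fun a => phi (Fc P) d (g a)) :
          Fin (τ + 1) → Fin (N + 1) → A n)))
    {a x e : Fin n → ℂ} (ha : OnSphere a) (hx : ip x a = 0) (he : ip e a = 0)
    (hxe : ip x e = 0) (hx0 : x ≠ 0) (he0 : e ≠ 0)
    (hδx : eval (Sum.elim a x) δ ≠ 0) (hδe : eval (Sum.elim a e) δ ≠ 0)
    (hosc : LinearIndependent ℂ (fun r : Fin (τ + 1) => Fv P a x r)) :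
    4 * d ≤ τ * (τ + 3) := by
  have hxx := da20_ip_self_ne hx0
  have hee := da20_ip_self_ne he0
  set κ : ℂ := ip e e / ip x x with hκ
  have hκ0 : κ ≠ 0 := div_ne_zero hee hxx
  have hκc : (starRingEnd ℂ) κ = κ := by
    rw [hκ, map_div₀, da20_ip_conj, da20_ip_conj]
  have hκx : κ * ip x x = ip e e := by
    rw [hκ]
    exact div_mul_cancel₀ _ hxx
  have hex : ip e x = 0 := by rw [← da20_ip_conj, hxe, map_zero]
  set w : Fin n → ℂ := (-κ) • x with hw
  have hwa : ip w a = 0 := by rw [hw, da20_ip_smul_left, hx, mul_zero]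
  have hort : ∀ u : ℂ, ip (x + u • e) (e + (starRingEnd ℂ) u • w) = 0 := by
    intro u
    rw [da20_ip_add_left, da20_ip_add_right, da20_ip_add_right, da20_ip_smul_left,
      da20_ip_smul_left, da20_ip_smul_right, da20_ip_smul_right, hw, da20_ip_smul_right,
      da20_ip_smul_right, hxe, hex, map_neg, hκc, ← hκx]
    simp only [RingHomCompTriple.comp_apply, RingHom.id_apply]
    ring
  have hxu : ∀ u : ℂ, ip (x + u • e) a = 0 := by
    intro u
    rw [da20_ip_add_left, da20_ip_smul_left, hx, he, mul_zero, add_zero]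
  have heu : ∀ u : ℂ, ip (e + u • w) a = 0 := by
    intro u
    rw [da20_ip_add_left, da20_ip_smul_left, hwa, he, mul_zero, add_zero]
  let L : A n →+* Polynomial ℂ := (lin a x e).toRingHom
  let L' : A n →+* Polynomial ℂ := cjp.comp (lin a e w).toRingHom
  let α : ℕ → Fin (N + 1) → Polynomial ℂ := fun r k => L (Fc P r k)
  let β : ℕ → Fin (N + 1) → Polynomial ℂ := fun r k => L' (Fc P r k)
  have hαe : ∀ r k u, (α r k).eval u = Fv P a (x + u • e) r k := fun r k u =>
    eval_lin a x e u (Fc P r k)
  have hβe : ∀ r k v, (β r k).eval v =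
      (starRingEnd ℂ) (Fv P a (e + (starRingEnd ℂ) v • w) r k) := by
    intro r k v
    show (cjp (lin a e w (Fc P r k))).eval v = _
    rw [eval_cjp, eval_lin]
    rfl
  have hpair : ∀ i j u v, ∑ k, sg k * (α i k).eval u * (β j k).eval v =
      hf (Fv P a (x + u • e) i) (Fv P a (e + (starRingEnd ℂ) v • w) j) := by
    intro i j u v
    rw [← da20_sum_sg]
    refine Finset.sum_congr rfl fun k _ => ?_
    rw [hαe, hβe]
  have hmain := comb (κ := Fin (N + 1)) sg τ α β ?_ ?_ ?_ ?_ m m
    (fun a k => L (phi (Fc P) d (g a) k)) (fun a k => L' (phi (Fc P) d (g a) k)) ?_ ?_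
    (L δ) (L' δ) ?_ ?_ ?_ ?_ ?_
  · rw [Finset.sum_add_distrib] at hm hmain
    simp only [Finset.sum_const, Finset.card_univ, Fintype.card_fin, smul_eq_mul,
      mul_one] at hm hmain
    nlinarith [hm, hmain]
  · intro i j
    apply Polynomial.funext
    intro u
    rw [Polynomial.eval_finsetSum, Polynomial.eval_zero]
    have h1 := hpair i j u u
    rw [orth hP ha (hxu u) (heu _) (hort u)] at h1
    rw [← h1]
    refine Finset.sum_congr rfl fun k _ => ?_
    rw [Polynomial.eval_mul, Polynomial.eval_mul, Polynomial.eval_C]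
  · intro j
    apply da20_pr_eq_zero
    intro u v
    rw [hpair]
    exact (da20_smul_orth hP ha (heu _) j).2
  · intro i
    apply da20_pr_eq_zero
    intro u v
    rw [hpair]
    exact (da20_smul_orth hP ha (hxu _) i).1
  · intro i k
    exact natDegree_lin a x e i k
  · intro b j hj
    obtain ⟨h, c, hh⟩ := griffiths (Fc P) d (Dx e) (Da e) (fun k => Dx_Fc_zero e k)
      (fun r k => Da_Fc e r k) (fun r hr => funext fun k => Fc_eq_zero hP.deg_le hr k)
      (m b) (g b) (hg b) j hj
    have h1 : (fun k => Polynomial.derivative^[j] (L (phi (Fc P) d (g b) k))) =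
        fun k => L (phi (Fc P) d h k + c * Fc P 0 k) := by
      funext k
      rw [← hh k]
      exact da20_iter_lin a x e j _
    rw [h1]
    exact da20_phi_mem L (Fc P) d h c
  · intro b j hj
    obtain ⟨h, c, hh⟩ := griffiths (Fc P) d (Dx w) (Da w) (fun k => Dx_Fc_zero w k)
      (fun r k => Da_Fc w r k) (fun r hr => funext fun k => Fc_eq_zero hP.deg_le hr k)
      (m b) (g b) (hg b) j hj
    have h1 : (fun k => Polynomial.derivative^[j] (L' (phi (Fc P) d (g b) k))) =
        fun k => L' (phi (Fc P) d h k + c * Fc P 0 k) := by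
      funext k
      rw [← hh k]
      show Polynomial.derivative^[j] (cjp (lin a e w (phi (Fc P) d (g b) k))) = _
      rw [da20_iter_cjp, da20_iter_lin]
      rfl
    rw [h1]
    exact da20_phi_mem L' (Fc P) d h c
  · intro h
    apply hδx
    have h1 := eval_lin a x e 0 δ
    rw [zero_smul, add_zero] at h1
    rw [← h1]
    show (L δ).eval 0 = 0
    rw [h, Polynomial.eval_zero]
  · intro h
    apply hδe
    have h1 := eval_lin a e w 0 δ
    rw [zero_smul, add_zero] at h1
    rw [← h1]
    have h2 : (L' δ).eval 0 = (starRingEnd ℂ) ((lin a e w δ).eval 0) := by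
      show (cjp (lin a e w δ)).eval 0 = _
      rw [eval_cjp, map_zero]
    rw [h, Polynomial.eval_zero] at h2
    exact (map_eq_zero _).1 h2.symm
  · intro r
    have hr : (r : ℕ) + 1 ≤ d := by
      have h1 : τ ≤ d := by
        rw [← hm, Finset.sum_add_distrib]
        simp
      omega
    exact da20_span_cons L (Fc P 0) _ δ _ (hspan (r + 1) hr)
  · intro r
    have hr : (r : ℕ) + 1 ≤ d := by
      have h1 : τ ≤ d := by
        rw [← hm, Finset.sum_add_distrib]
        simp
      omega
    exact da20_span_cons L' (Fc P 0) _ δ _ (hspan (r + 1) hr)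
  · obtain ⟨u, hu0, hu⟩ := da20_exists_u e hosc
    set y : Fin n → ℂ := x + u • e with hy
    have hya : ip y a = 0 := hxu u
    let v : ℂ := (starRingEnd ℂ) (-(κ * u)⁻¹)
    have hv : e + (starRingEnd ℂ) v • w = u⁻¹ • y := by
      have h1 : (starRingEnd ℂ) v = -(κ * u)⁻¹ := by
        simp only [v, RingHomCompTriple.comp_apply, RingHom.id_apply]
      rw [h1, hw, hy, smul_add, smul_smul, smul_smul, inv_mul_cancel₀ hu0, one_smul, add_comm]
      congr 2
      field_simp
    intro hdet
    let ev : Polynomial (Polynomial ℂ) →+* ℂ :=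
      (Polynomial.evalRingHom v).comp (Polynomial.evalRingHom (Polynomial.C u))
    have h1 := congrArg ev hdet
    rw [map_zero, RingHom.map_det] at h1
    have h2 : ev.mapMatrix (Matrix.of fun i j : Fin τ => pr sg (α (i + 1)) (β (j + 1))) =
        Matrix.of fun i j : Fin τ => (starRingEnd ℂ) (u⁻¹ ^ ((j : ℕ) + 1)) *
          (Matrix.of fun i j : Fin τ => hf (Fv P a y (i + 1)) (Fv P a y (j + 1))) i j := by
      funext i j
      rw [RingHom.mapMatrix_apply, Matrix.map_apply, Matrix.of_apply, Matrix.of_apply,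
        Matrix.of_apply]
      show ((pr sg (α (i + 1)) (β (j + 1))).eval (Polynomial.C u)).eval v = _
      rw [da20_ev_pr, hpair, hv, Fv_smul]
      simp only [hf, Pi.smul_apply, smul_eq_mul, map_mul, Finset.mul_sum, mul_sub]
      congr 1
      · exact Finset.sum_congr rfl fun k _ => by ring
      · ring
    rw [h2, Matrix.det_mul_row] at h1
    rcases mul_eq_zero.1 h1 with h3 | h3
    · rw [Finset.prod_eq_zero_iff] at h3
      obtain ⟨j, _, hj⟩ := h3
      rw [map_eq_zero] at hj
      exact pow_ne_zero _ (inv_ne_zero hu0) hj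
    · have hu1 : hf (Fv P a y 0) (Fv P a y 0) = 0 :=
        (da20_smul_orth hP ha (y := y) hya 0).1
      have hv1 : ∀ r : Fin τ, hf (Fv P a y (r + 1)) (Fv P a y 0) = 0 :=
        fun r => (da20_smul_orth hP ha (y := y) hya (r + 1)).1
      refine gram_ne_zero (Fv P a y 0) (fun r : Fin τ => Fv P a y (r + 1)) hu1 hv1 ?_ h3
      convert hu using 1
      funext r
      refine Fin.cases ?_ (fun r => ?_) r
      · simp
      · simp

end Pool.Agent.Lib_helper49.Dang
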