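import Pool.Agent.Lib_helper49.Dang.Setup

namespace Pool.Agent.Lib_helper49.Dang

open MvPolynomial

variable {n N d : ℕ}

theorem da21_normsq (w : ℂ) : w * (starRingEnd ℂ) w = ((‖w‖ ^ 2 : ℝ) : ℂ) := by
  rw [Complex.mul_conj, Complex.normSq_eq_norm_sq]

/-- Block da21: from a smooth CR map with a reduced representation to a vector of polynomials. -/
theorem exists_SMap {f : (Fin n → ℂ) → (Fin N → ℂ)} (hf : IsCRSphereMap n N f)
    (hd : HasDegree f d) : ∃ P : Fin (N + 1) → MvPolynomial (Fin n) ℂ, SMap n N d P := by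
  obtain ⟨p, q, hq, hcop, hev, hdeg⟩ := hd
  refine ⟨Fin.cons q p, ?_, ?_, ?_, ?_⟩
  · intro z hz
    have h1 := hf.maps z hz
    unfold OnSphere at h1
    unfold Dang.hf
    simp only [Fin.cons_succ, Fin.cons_zero]
    have h2 : ∀ i, eval z (p i) * (starRingEnd ℂ) (eval z (p i)) =
        (((‖eval z q‖ ^ 2) * (‖f z i‖ ^ 2) : ℝ) : ℂ) := by
      intro i
      rw [da21_normsq, ← hev z hz i, norm_mul, mul_pow]
    rw [Finset.sum_congr rfl fun i _ => h2 i, da21_normsq, ← Complex.ofReal_sum, ← Finset.mul_sum,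
      h1, mul_one, sub_self]
  · intro r hr
    refine hcop r ?_ ?_
    · simpa using hr 0
    · intro i
      simpa using hr i.succ
  · intro i
    refine Fin.cases ?_ ?_ i
    · simp only [Fin.cons_zero]
      rw [hdeg]; exact le_max_left _ _
    · intro j
      simp only [Fin.cons_succ]
      rw [hdeg]
      exact le_max_of_le_right (Finset.le_sup (f := fun i => (p i).totalDegree) (Finset.mem_univ j))
  · rcases max_choice q.totalDegree (Finset.univ.sup fun i => (p i).totalDegree) with h | h
    · exact ⟨0, by rw [hdeg, h]; simp⟩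
    · rcases Nat.eq_zero_or_pos N with rfl | hN
      · refine ⟨0, ?_⟩
        rw [hdeg]
        simp
      · have : Nonempty (Fin N) := ⟨⟨0, hN⟩⟩
        obtain ⟨i, _, hi⟩ := Finset.exists_mem_eq_sup (Finset.univ : Finset (Fin N))
          Finset.univ_nonempty (fun i => (p i).totalDegree)
        refine ⟨i.succ, ?_⟩
        rw [hdeg, h, hi]
        simp

end Pool.Agent.Lib_helper49.Dang
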