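import Pool.Agent.Lib_helper49.Dang.Setup

/-!
# D'Angelo's degree problem: block da22
-/

namespace Pool.Agent.Lib_helper49.Dang

open MvPolynomial Pool.Agent.Lib_helper26.Ebe

variable {n N d : ℕ} {P : Fin (N + 1) → MvPolynomial (Fin n) ℂ}

theorem da22_sum (m : ℕ) (hm : 0 < m) (c : ℝ) (w : ℕ → ℝ) (hw : ∀ k r, w (m * k + r) = w r)
    (h : c + ∑ r ∈ Finset.range m, w r = 1) (k : ℕ) :
    ∑ i ∈ Finset.range (m * k), c ^ (i / m) * w i + c ^ k = 1 := by
  induction k with
  | zero => simp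
  | succ k ih =>
    rw [Nat.mul_succ, Finset.sum_range_add]
    have h1 : ∑ x ∈ Finset.range m, c ^ ((m * k + x) / m) * w (m * k + x) =
        c ^ k * (1 - c) := by
      have h2 : (1 - c) = ∑ r ∈ Finset.range m, w r := by linarith
      rw [h2, Finset.mul_sum]
      refine Finset.sum_congr rfl fun x hx => ?_
      rw [Nat.mul_add_div hm, Nat.div_eq_of_lt (Finset.mem_range.1 hx), add_zero, hw]
    have h3 : c ^ k * (1 - c) + c ^ k * c = c ^ k := by ring
    rw [h1, pow_succ]
    linarith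

/-- The index of a coordinate. -/
def da22_cs (m : ℕ) (hm : 0 < m) (r : ℕ) : Fin (m + 1) :=
  ⟨r % m, (Nat.mod_lt _ hm).trans (Nat.lt_succ_self m)⟩

/-- The Whitney type map. -/
noncomputable def da22_f (m N k : ℕ) (hm : 0 < m) (z : Fin (m + 1) → ℂ) (i : Fin N) : ℂ :=
  if (i : ℕ) < m * k then z (Fin.last m) ^ ((i : ℕ) / m) * z (da22_cs m hm i)
  else if (i : ℕ) = m * k then z (Fin.last m) ^ k else 0

/-- The polynomials of the Whitney type map. -/
noncomputable def da22_p (m N k : ℕ) (hm : 0 < m) (i : Fin N) : MvPolynomial (Fin (m + 1)) ℂ :=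
  if (i : ℕ) < m * k then X (Fin.last m) ^ ((i : ℕ) / m) * X (da22_cs m hm i)
  else if (i : ℕ) = m * k then X (Fin.last m) ^ k else 0

theorem da22_maps (m N k : ℕ) (hm : 0 < m) (h : m * k + 1 ≤ N) (z : Fin (m + 1) → ℂ)
    (hz : OnSphere z) : OnSphere (da22_f m N k hm z) := by
  unfold OnSphere at hz ⊢
  set g : ℕ → ℝ := fun i => if i < m * k then
    (‖z (Fin.last m)‖ ^ 2) ^ (i / m) * ‖z (da22_cs m hm i)‖ ^ 2
    else if i = m * k then (‖z (Fin.last m)‖ ^ 2) ^ k else 0 with hg
  have h1 : ∀ i : Fin N, ‖da22_f m N k hm z i‖ ^ 2 = g i := by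
    intro i
    simp only [da22_f, hg]
    split_ifs
    · rw [norm_mul, norm_pow, mul_pow, ← pow_mul, ← pow_mul, mul_comm ((i : ℕ) / m) 2]
    · rw [norm_pow, ← pow_mul, ← pow_mul, mul_comm k 2]
    · simp
  rw [Finset.sum_congr rfl fun i _ => h1 i, Fin.sum_univ_eq_sum_range g N]
  have h2 : ∑ i ∈ Finset.range N, g i = ∑ i ∈ Finset.range (m * k + 1), g i := by
    symm
    refine Finset.sum_subset (Finset.range_subset_range.2 h) fun i _ hi => ?_
    rw [Finset.mem_range, not_lt] at hi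
    simp only [hg]
    rw [if_neg (by omega), if_neg (by omega)]
  rw [h2, Finset.sum_range_succ]
  have h3 : g (m * k) = (‖z (Fin.last m)‖ ^ 2) ^ k := by
    simp [hg]
  have h4 : ∑ i ∈ Finset.range (m * k), g i = ∑ i ∈ Finset.range (m * k),
      (‖z (Fin.last m)‖ ^ 2) ^ (i / m) * ‖z (da22_cs m hm i)‖ ^ 2 := by
    refine Finset.sum_congr rfl fun i hi => ?_
    simp only [hg]
    rw [if_pos (Finset.mem_range.1 hi)]
  rw [h3, h4]
  refine da22_sum m hm _ (fun i => ‖z (da22_cs m hm i)‖ ^ 2) ?_ ?_ k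
  · intro k r
    have : da22_cs m hm (m * k + r) = da22_cs m hm r := by
      apply Fin.ext
      simp [da22_cs]
    simp only [this]
  · rw [Fin.sum_univ_castSucc] at hz
    rw [add_comm, ← hz, ← Fin.sum_univ_eq_sum_range (fun i => ‖z (da22_cs m hm i)‖ ^ 2) m]
    congr 1
    refine Finset.sum_congr rfl fun i _ => ?_
    have : da22_cs m hm i = i.castSucc := by
      apply Fin.ext
      simp [da22_cs, Nat.mod_eq_of_lt i.2]
    simp only [this]

theorem da22_contDiff (m N k : ℕ) (hm : 0 < m) : ContDiff ℂ (⊤ : ℕ∞) (da22_f m N k hm) := by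
  rw [contDiff_pi]
  intro i
  unfold da22_f
  split_ifs
  · fun_prop
  · fun_prop
  · fun_prop

theorem da22_degree (m N k : ℕ) (hm : 0 < m) (h : m * k + 1 ≤ N) :
    Finset.univ.sup (fun i => (da22_p m N k hm i).totalDegree) = k := by
  apply le_antisymm
  · refine Finset.sup_le fun i _ => ?_
    unfold da22_p
    split_ifs with h1 h2
    · refine (totalDegree_mul _ _).trans ?_
      rw [totalDegree_X_pow, totalDegree_X]
      have : (i : ℕ) / m < k := by
        rw [Nat.div_lt_iff_lt_mul hm, mul_comm]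
        exact h1
      omega
    · rw [totalDegree_X_pow]
    · simp
  · have h1 : (da22_p m N k hm ⟨m * k, by omega⟩).totalDegree = k := by
      unfold da22_p
      rw [if_neg (by simp), if_pos rfl, totalDegree_X_pow]
    calc k = (da22_p m N k hm ⟨m * k, by omega⟩).totalDegree := h1.symm
      _ ≤ _ := Finset.le_sup (f := fun i => (da22_p m N k hm i).totalDegree)
        (Finset.mem_univ _)

/-- Block da22: the Whitney type maps. -/
theorem whitney (hn : 2 ≤ n) (k : ℕ) (h : (n - 1) * k + 1 ≤ N) : k ∈ degrees n N := by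
  obtain ⟨m, rfl⟩ : ∃ m, n = m + 1 := ⟨n - 1, by omega⟩
  have hm : 0 < m := by omega
  rw [Nat.add_sub_cancel] at h
  refine ⟨da22_f m N k hm, ⟨?_, da22_maps m N k hm h, ?_⟩, ?_⟩
  · exact (da22_contDiff m N k hm).restrict_scalars ℝ
  · intro z _ v _
    have h1 : DifferentiableAt ℂ (da22_f m N k hm) z :=
      ((da22_contDiff m N k hm).differentiable (by simp)) z
    rw [h1.fderiv_restrictScalars ℝ]
    show fderiv ℂ (da22_f m N k hm) z (Complex.I • v) = _
    rw [map_smul]
    rfl
  · refine ⟨da22_p m N k hm, 1, one_ne_zero, fun r hr _ => isUnit_of_dvd_one hr, ?_, ?_⟩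
    · intro z _ i
      rw [map_one, one_mul]
      unfold da22_f da22_p
      split_ifs <;> simp
    · rw [da22_degree m N k hm h]
      simp

end Pool.Agent.Lib_helper49.Dang
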