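import Pool.Agent.Lib_helper49.Dang.B01
import Pool.Agent.Lib_helper49.Dang.B02
import Pool.Agent.Lib_helper49.Dang.B03
import Pool.Agent.Lib_helper49.Dang.B04
import Pool.Agent.Lib_helper49.Dang.B05
import Pool.Agent.Lib_helper49.Dang.B06
import Pool.Agent.Lib_helper49.Dang.B07
import Pool.Agent.Lib_helper49.Dang.B08
import Pool.Agent.Lib_helper49.Dang.B09
import Pool.Agent.Lib_helper49.Dang.B10
import Pool.Agent.Lib_helper49.Dang.B11
import Pool.Agent.Lib_helper49.Dang.B12
import Pool.Agent.Lib_helper49.Dang.B13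
import Pool.Agent.Lib_helper49.Dang.B14
import Pool.Agent.Lib_helper49.Dang.B15
import Pool.Agent.Lib_helper49.Dang.B16
import Pool.Agent.Lib_helper49.Dang.B17
import Pool.Agent.Lib_helper49.Dang.B18
import Pool.Agent.Lib_helper49.Dang.B20
import Pool.Agent.Lib_helper49.Dang.B21
import Pool.Agent.Lib_helper49.Dang.B22
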