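import Pool.Agent.Lib_helper49.Dang.All

/-!
# D'Angelo's degree problem: assembly
-/

namespace Pool.Agent.Lib_helper49.Dang

open MvPolynomial Pool.Agent.Lib_helper26.Ebe

variable {n N d : ℕ} {P : Fin (N + 1) → MvPolynomial (Fin n) ℂ}

theorem fv_independent {τ : ℕ} :
    (LinearIndependent (FractionRing (A n)) (fun (r : Fin (τ + 1)) (i : Fin (N + 1)) =>
      algebraMap (A n) (FractionRing (A n)) (Fc P r i))) →
    Gen (fun b : Fin n ⊕ Fin n → ℂ => LinearIndependent ℂ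
      (fun (r : Fin (τ + 1)) (i : Fin (N + 1)) => eval b (Fc P r i))) :=
  fun h => Pool.Agent.Lib_helper97.Ebe.gen_linearIndependent
    (fun (r : Fin (τ + 1)) (i : Fin (N + 1)) => Fc P r i) h

theorem main_bound (hn : 3 ≤ n) (hP : SMap n N d P) :
    ∃ τ : ℕ, (n - 1) * τ + 1 ≤ N ∧ 4 * d ≤ τ * (τ + 3) := by
  obtain ⟨τ, m, g, δ, hg, hm, hδ, hspan, hfin⟩ := adapted hP (by omega)
  obtain ⟨Φ, hΦ0, hΦ⟩ := fv_independent (osculation hP.deg_le hfin)
  obtain ⟨a, x, ha, hx, h⟩ := exists_real (by omega) (Φ * δ) (mul_ne_zero hΦ0 hδ)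
  obtain ⟨b, hba, hb0, hbb, hb⟩ := exists_orthogonal (by omega) (Φ * δ) a x ha hx h
  have hbΦ : ∀ k, eval (Sum.elim a (b k)) Φ ≠ 0 := fun k => by
    have := hb k
    rw [map_mul] at this
    exact left_ne_zero_of_mul this
  have hbδ : ∀ k, eval (Sum.elim a (b k)) δ ≠ 0 := fun k => by
    have := hb k
    rw [map_mul] at this
    exact right_ne_zero_of_mul this
  have hli : ∀ k, LinearIndependent ℂ (fun r : Fin (τ + 1) => Fv P a (b k) r) :=
    fun k => hΦ _ (hbΦ k)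
  have hF0 : ∀ y : Fin n → ℂ, Fv P a y 0 = Fv P a 0 0 := by
    intro y
    funext i
    simp only [Fv, Fc_zero, eval_rename]
    rfl
  refine ⟨τ, ?_, ?_⟩
  · refine dim_bound (Fv P a 0 0) (fun k r => Fv P a (b k) (r + 1)) ?_ (by omega) ?_ ?_ ?_
    · have h0 : ip (0 : Fin n → ℂ) a = 0 := by simp [ip]
      exact orth hP ha h0 h0 (by simp [ip]) 0 0
    · intro k r
      have h0 : ip (0 : Fin n → ℂ) a = 0 := by simp [ip]
      exact orth hP ha (hba k) h0 (by simp [ip]) _ 0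
    · intro k l hkl r s
      exact orth hP ha (hba k) (hba l) (hbb k l hkl) _ _
    · intro k
      have h1 := hli k
      convert h1 using 1
      funext r
      refine Fin.cases ?_ (fun r => ?_) r
      · simp [hF0 (b k)]
      · simp
  · have h01 : (⟨0, by omega⟩ : Fin (n - 1)) ≠ ⟨1, by omega⟩ := by simp
    exact key hP m g δ hg hm hspan ha (hba ⟨0, by omega⟩) (hba ⟨1, by omega⟩)
      (hbb _ _ h01) (hb0 _) (hb0 _) (hbδ _) (hbδ _) (hli _)

/-- Upper bound for the degree of smooth CR maps between spheres. -/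
theorem degree_bound (hn : 3 ≤ n) (hd : d ∈ degrees n N) :
    4 * d ≤ ((N - 1) / (n - 1)) * ((N - 1) / (n - 1) + 3) := by
  obtain ⟨f, hf, hfd⟩ := hd
  obtain ⟨P, hP⟩ := exists_SMap hf hfd
  obtain ⟨τ, h1, h2⟩ := main_bound hn hP
  have h3 : τ ≤ (N - 1) / (n - 1) := by
    rw [Nat.le_div_iff_mul_le (by omega)]
    rw [mul_comm] at h1
    omega
  exact h2.trans (Nat.mul_le_mul h3 (by omega))

end Pool.Agent.Lib_helper49.Dang
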