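import Pool.Agent.Lib_helper49.Dang.Setup
import Pool.Agent.Lib_helper49.Dang.B04
import Pool.Agent.Lib_helper49.Dang.B05

/-! Block da13: osculation. -/

namespace Pool.Agent.Lib_helper49.Dang

open MvPolynomial Pool.Agent.Lib_helper26.Ebe

variable {n N d : ℕ} {P : Fin (N + 1) → MvPolynomial (Fin n) ℂ}

/-- the Taylor coefficients over the fraction field -/
noncomputable def da13_v (P : Fin (N + 1) → MvPolynomial (Fin n) ℂ) (r : ℕ) :
    Fin (N + 1) → FractionRing (A n) :=
  fun i => algebraMap (A n) (FractionRing (A n)) (Fc P r i)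

/-- the span of the first `k` -/
noncomputable def da13_W (P : Fin (N + 1) → MvPolynomial (Fin n) ℂ) (k : ℕ) :
    Submodule (FractionRing (A n)) (Fin (N + 1) → FractionRing (A n)) :=
  Submodule.span _ (Set.range fun s : Fin k => da13_v P s)

theorem da13_step (k r : ℕ) (hk : da13_v P k ∈ da13_W P k) (hr : da13_v P r ∈ da13_W P k) :
    da13_v P (r + 1) ∈ da13_W P k := by
  classical
  have hmem : ∀ s : Fin k, da13_v P s ∈ da13_W P k := fun s => Submodule.subset_span ⟨s, rfl⟩
  have hmem' : ∀ s : Fin k, da13_v P (s + 1) ∈ da13_W P k := by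
    intro s
    rcases Nat.lt_or_ge ((s : ℕ) + 1) k with h | h
    · exact hmem ⟨(s : ℕ) + 1, h⟩
    · have : (s : ℕ) + 1 = k := le_antisymm s.2 h
      rw [this]
      exact hk
  obtain ⟨x, hx⟩ := (Submodule.mem_span_range_iff_exists_fun (FractionRing (A n))).1 hr
  obtain ⟨b, hb⟩ := IsLocalization.exist_integer_multiples_of_finite
    (nonZeroDivisors (A n)) x
  choose c hc using hb
  have hb0 : (b : A n) ≠ 0 := nonZeroDivisors.coe_ne_zero b
  have hinj : Function.Injective (algebraMap (A n) (FractionRing (A n))) :=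
    IsFractionRing.injective (A n) (FractionRing (A n))
  have hb0' : algebraMap (A n) (FractionRing (A n)) (b : A n) ≠ 0 := by
    intro h
    exact hb0 (hinj (by rw [h, map_zero]))
  -- the relation over the polynomial ring
  have hrel : ∀ i, (b : A n) * Fc P r i = ∑ s : Fin k, c s * Fc P s i := by
    intro i
    apply hinj
    rw [map_mul, map_sum]
    have h1 := congrFun hx i
    rw [Finset.sum_apply] at h1
    have h2 : algebraMap (A n) (FractionRing (A n)) (Fc P r i) = da13_v P r i := rfl
    rw [h2, ← h1, Finset.mul_sum]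
    refine Finset.sum_congr rfl fun s _ => ?_
    rw [map_mul, hc s, Pi.smul_apply, smul_eq_mul, Algebra.smul_def]
    unfold da13_v
    ring
  -- differentiate
  have hD : ∀ i, De n (b : A n) * Fc P r i + (b : A n) * (((r : A n) + 1) * Fc P (r + 1) i) =
      ∑ s : Fin k, (De n (c s) * Fc P s i + c s * ((((s : ℕ) : A n) + 1) * Fc P (s + 1) i)) := by
    intro i
    have h1 := congrArg (De n) (hrel i)
    rw [map_sum, Derivation.leibniz, De_Fc, smul_eq_mul, smul_eq_mul] at h1
    have h2 : ∀ s : Fin k, De n (c s * Fc P s i) =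
        De n (c s) * Fc P s i + c s * ((((s : ℕ) : A n) + 1) * Fc P (s + 1) i) := by
      intro s
      rw [Derivation.leibniz, De_Fc, smul_eq_mul, smul_eq_mul]
      ring
    rw [Finset.sum_congr rfl fun s _ => h2 s] at h1
    rw [← h1]
    ring
  set φ := algebraMap (A n) (FractionRing (A n)) with hφ
  have hvec : (φ b * φ ((r : A n) + 1)) • da13_v P (r + 1) =
      ∑ s : Fin k, (φ (De n (c s)) • da13_v P s +
        (φ (c s) * φ (((s : ℕ) : A n) + 1)) • da13_v P (s + 1)) - φ (De n (b : A n)) • da13_v P r := by
    funext i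
    have h1 := congrArg φ (hD i)
    rw [map_add, map_sum, map_mul, map_mul, map_mul] at h1
    simp only [map_add, map_mul] at h1
    rw [Pi.smul_apply, Pi.sub_apply, Finset.sum_apply, Pi.smul_apply]
    simp only [Pi.add_apply, Pi.smul_apply, smul_eq_mul, da13_v, map_add]
    rw [← hφ]
    simp only [mul_assoc] at h1 ⊢
    rw [← h1]
    ring
  have hmem3 : (φ b * φ ((r : A n) + 1)) • da13_v P (r + 1) ∈ da13_W P k := by
    rw [hvec]
    refine Submodule.sub_mem _ (Submodule.sum_mem _ fun s _ => ?_) (Submodule.smul_mem _ _ hr)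
    exact Submodule.add_mem _ (Submodule.smul_mem _ _ (hmem s)) (Submodule.smul_mem _ _ (hmem' s))
  have hne : φ b * φ ((r : A n) + 1) ≠ 0 := by
    apply mul_ne_zero hb0'
    intro h
    have h1 : ((r : A n) + 1) = 0 := hinj (by rw [h, map_zero])
    have h2 : ((r + 1 : ℕ) : A n) = 0 := by push_cast; exact h1
    exact Nat.cast_ne_zero.2 (Nat.succ_ne_zero r) h2
  exact (Submodule.smul_mem_iff _ hne).1 hmem3

theorem da13_all (k : ℕ) (hk : da13_v P k ∈ da13_W P k) (r : ℕ) : da13_v P r ∈ da13_W P k := by
  rcases Nat.lt_or_ge r k with h | h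
  · exact Submodule.subset_span ⟨⟨r, h⟩, rfl⟩
  · obtain ⟨m, rfl⟩ := Nat.exists_eq_add_of_le h
    clear h
    induction m with
    | zero => exact hk
    | succ m ih => exact da13_step k (k + m) hk ih

theorem osculation (hd : ∀ i, (P i).totalDegree ≤ d) {τ : ℕ}
    (h : Module.finrank (FractionRing (A n)) (Submodule.span (FractionRing (A n))
        (Set.range fun (r : ℕ) (i : Fin (N + 1)) =>
          algebraMap (A n) (FractionRing (A n)) (Fc P r i))) = τ + 1) :
    LinearIndependent (FractionRing (A n)) (fun (r : Fin (τ + 1)) (i : Fin (N + 1)) =>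
      algebraMap (A n) (FractionRing (A n)) (Fc P r i)) := by
  have hnot : ∀ k ≤ τ, da13_v P k ∉ da13_W P k := by
    intro k hk hcon
    have h1 : Submodule.span (FractionRing (A n)) (Set.range (da13_v P)) ≤ da13_W P k := by
      rw [Submodule.span_le]
      rintro _ ⟨r, rfl⟩
      exact da13_all k hcon r
    have h2 := Submodule.finrank_mono h1
    have h3 : Module.finrank (FractionRing (A n))
        (Submodule.span (FractionRing (A n)) (Set.range (da13_v P))) = τ + 1 := h
    have h4 : Module.finrank (FractionRing (A n)) (da13_W P k) ≤ k := by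
      have := finrank_range_le_card (R := FractionRing (A n)) (fun s : Fin k => da13_v P s)
      rw [Fintype.card_fin] at this
      exact this
    omega
  have hli : ∀ m ≤ τ + 1, LinearIndependent (FractionRing (A n)) (fun r : Fin m => da13_v P r) := by
    intro m
    induction m with
    | zero => intro _; exact linearIndependent_empty_type
    | succ m ih =>
      intro hm
      rw [linearIndependent_finSucc']
      refine ⟨ih (by omega), ?_⟩
      exact hnot m (by omega)
  exact hli (τ + 1) le_rfl

end Pool.Agent.Lib_helper49.Dang
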