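import Mathlib

/-!
# Smooth CR maps between spheres and their degrees
-/

namespace Pool.Agent.Lib_helper49.Dang

open MvPolynomial

/-- The point `z` of `ℂ^n` lies on the unit sphere `S^(2n-1)`. -/
def OnSphere {n : ℕ} (z : Fin n → ℂ) : Prop := ∑ i, ‖z i‖ ^ 2 = 1

/-- The smooth map `f : ℂ^n → ℂ^N` restricts to a CR map from the unit sphere of `ℂ^n` to the
unit sphere of `ℂ^N`: it maps sphere to sphere, and at every point `z` of the sphere its real
derivative is complex linear on the complex tangent space `{v | ∑ v_i conj(z_i) = 0}` of the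
sphere. -/
structure IsCRSphereMap (n N : ℕ) (f : (Fin n → ℂ) → (Fin N → ℂ)) : Prop where
  smooth : ContDiff ℝ (⊤ : ℕ∞) f
  maps : ∀ z, OnSphere z → OnSphere (f z)
  cr : ∀ z, OnSphere z → ∀ v : Fin n → ℂ, ∑ i, v i * (starRingEnd ℂ) (z i) = 0 →
    fderiv ℝ f z (Complex.I • v) = Complex.I • fderiv ℝ f z v

/-- On the unit sphere `f` is the quotient `p / q` of polynomials without common factor, and
`d` is the maximum of the degrees of `p_1, ..., p_N, q`. -/
def HasDegree {n N : ℕ} (f : (Fin n → ℂ) → (Fin N → ℂ)) (d : ℕ) : Prop :=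
  ∃ (p : Fin N → MvPolynomial (Fin n) ℂ) (q : MvPolynomial (Fin n) ℂ),
    q ≠ 0 ∧ (∀ r, r ∣ q → (∀ i, r ∣ p i) → IsUnit r) ∧
    (∀ z, OnSphere z → ∀ i, eval z q * f z i = eval z (p i)) ∧
    d = max q.totalDegree (Finset.univ.sup fun i => (p i).totalDegree)

/-- The set of the degrees of the smooth CR maps `S^(2n-1) → S^(2N-1)`; so
`D(n,N)` is its greatest element. -/
def degrees (n N : ℕ) : Set ℕ := {d | ∃ f, IsCRSphereMap n N f ∧ HasDegree (n := n) (N := N) f d}

end Pool.Agent.Lib_helper49.Dang
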