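import Pool.Agent.Lib_helper49.Dang.GDefs
import Pool.Agent.Lib_helper97.Ebe.KP
import Pool.Agent.Lib_helper49.Dang.B01
import Pool.Agent.Lib_helper49.Dang.B04
import Pool.Agent.Lib_helper49.Dang.B07

/-!
# Blocks da23, da27
-/

namespace Pool.Agent.Lib_helper49.Dang

open MvPolynomial Pool.Agent.Lib_helper26.Ebe Pool.Agent.Lib_helper26.SOS

variable {n N d : ℕ} {P : Fin (N + 1) → MvPolynomial (Fin n) ℂ}

theorem da23_lin (a w : Fin n → ℂ) : eval w (∑ j, C (a j) * X j) = ∑ j, a j * w j := by
  rw [map_sum]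
  simp

/-- Block da23: the evaluation of `hcj`. -/
theorem eval_hcj (a : Fin n → ℂ) (d : ℕ) (f : MvPolynomial (Fin n) ℂ) (hf : f.totalDegree ≤ d)
    (w : Fin n → ℂ) (hw : ∑ j, a j * w j = 1) :
    eval w (hcj a d f) = (starRingEnd ℂ) (eval (fun j => (starRingEnd ℂ) (w j)) f) := by
  unfold hcj
  rw [map_sum, eval_eq, map_sum]
  apply Finset.sum_congr rfl
  intro m _
  rw [map_mul, map_mul, map_pow, da23_lin, hw, one_pow, mul_one, eval_C, eval_monomial, one_mul,
    map_mul, map_prod]
  congr 1
  unfold Finsupp.prod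
  apply Finset.prod_congr rfl
  intro i _
  rw [map_pow, Complex.conj_conj]

theorem eval_hcj_smul (a : Fin n → ℂ) (d : ℕ) (f : MvPolynomial (Fin n) ℂ)
    (hf : f.totalDegree ≤ d) (w : Fin n → ℂ) (c : ℂ) :
    eval (c • w) (hcj a d f) = c ^ d * eval w (hcj a d f) := by
  unfold hcj
  rw [map_sum, map_sum, Finset.mul_sum]
  apply Finset.sum_congr rfl
  intro m hm
  have h1 : (m.sum fun _ k => k) ≤ d := le_trans (le_totalDegree hm) hf
  rw [map_mul, map_mul, map_mul, map_mul, map_pow, map_pow, da23_lin, da23_lin, eval_C, eval_C,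
    eval_monomial, eval_monomial, one_mul, one_mul]
  have h2 : ∑ j, a j * (c • w) j = c * ∑ j, a j * w j := by
    rw [Finset.mul_sum]
    apply Finset.sum_congr rfl
    intro j _
    rw [Pi.smul_apply, smul_eq_mul]
    ring
  have h3 : (m.prod fun i e => (c • w) i ^ e) = c ^ (m.sum fun _ k => k) *
      (m.prod fun i e => w i ^ e) := by
    unfold Finsupp.prod Finsupp.sum
    rw [← Finset.prod_pow_eq_pow_sum, ← Finset.prod_mul_distrib]
    apply Finset.prod_congr rfl
    intro i _
    show (c • w) i ^ m i = c ^ m i * w i ^ m i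
    rw [Pi.smul_apply, smul_eq_mul, mul_pow]
  rw [h2, h3, mul_pow]
  have h4 : c ^ d = c ^ (d - m.sum fun _ k => k) * c ^ (m.sum fun _ k => k) := by
    rw [← pow_add, Nat.sub_add_cancel h1]
  rw [h4]
  ring

theorem da27_pra (P : Fin (N + 1) → MvPolynomial (Fin n) ℂ) (a : Fin n → ℂ) (d : ℕ)
    (ψ : Fin (N + 1) → ℂ) (w : Fin n → ℂ) :
    eval w (pra P a d ψ) = ∑ i, ψ i * (sg i * eval w (hcj a d (P i))) := by
  unfold pra
  rw [LinearMap.sum_apply, map_sum]
  apply Finset.sum_congr rfl
  intro i _
  simp only [LinearMap.comp_apply, LinearMap.proj_apply, LinearMap.toSpanSingleton_apply]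
  rw [MvPolynomial.smul_eq_C_mul, MvPolynomial.smul_eq_C_mul, map_mul, map_mul, eval_C, eval_C]

theorem da27_hf (u v : Fin (N + 1) → ℂ) : hf u v = ∑ i, sg i * (u i * (starRingEnd ℂ) (v i)) := by
  unfold hf
  rw [Fin.sum_univ_succ]
  unfold sg
  simp only [if_true, Fin.succ_ne_zero, if_false, one_mul]
  ring

theorem da27_polar (hP : SMap n N d P) (z v : Fin n → ℂ) (hzv : ∑ i, z i * v i = 1) :
    ∑ i, sg i * (eval z (P i) *
      (starRingEnd ℂ) (eval (fun j => (starRingEnd ℂ) (v j)) (P i))) = 0 := by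
  have key : ∀ z v : Fin n → ℂ, eval (Sum.elim z v) (∑ i, C (sg i) * (rename Sum.inl (P i) *
      rename Sum.inr (map (starRingEnd ℂ) (P i)))) =
      ∑ i, sg i * (eval z (P i) *
        (starRingEnd ℂ) (eval (fun j => (starRingEnd ℂ) (v j)) (P i))) := by
    intro z v
    rw [map_sum]
    apply Finset.sum_congr rfl
    intro i _
    rw [map_mul, map_mul, eval_C, eval_rename, eval_rename]
    congr 2
    show eval v (map (starRingEnd ℂ) (P i)) = _
    rw [eval_map, eval₂_eq, eval_eq, map_sum]
    apply Finset.sum_congr rfl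
    intro m _
    rw [map_mul, map_prod]
    congr 1
    apply Finset.prod_congr rfl
    intro j _
    rw [map_pow, Complex.conj_conj]
  rw [← key]
  apply polarization _ _ z v hzv
  intro z hz
  rw [key, ← hP.null z hz, da27_hf]
  apply Finset.sum_congr rfl
  intro i _
  have hz2 : (fun j => (starRingEnd ℂ) ((starRingEnd ℂ) (z j))) = z := by
    funext j
    rw [Complex.conj_conj]
  rw [hz2]

/-- Block da27: the pairing of Taylor coefficients with `P` vanishes on `x·w = 0`.
Uses da01, da04, da23. -/
theorem pra_vanish (hP : SMap n N d P) (a x w : Fin n → ℂ) (hxw : ∑ i, x i * w i = 0)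
    (haw : ∑ i, a i * w i ≠ 0) (r : ℕ) : eval w (pra P a d (Fv P a x r)) = 0 := by
  rcases lt_or_ge d r with hr | hr
  · have h0 : Fv P a x r = 0 := by
      funext i
      unfold Fv
      rw [Fc_eq_zero hP.deg_le hr, map_zero]
      rfl
    rw [h0, map_zero, map_zero]
  · set c : ℂ := (∑ i, a i * w i)⁻¹ with hc
    have hc0 : c ≠ 0 := inv_ne_zero haw
    have haw' : ∑ i, a i * (c • w) i = 1 := by
      have : ∀ i, a i * (c • w) i = c * (a i * w i) := fun i => by
        rw [Pi.smul_apply, smul_eq_mul]; ring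
      rw [Finset.sum_congr rfl (fun i _ => this i), ← Finset.mul_sum, hc]
      exact inv_mul_cancel₀ haw
    have hxw' : ∑ i, x i * (c • w) i = 0 := by
      have : ∀ i, x i * (c • w) i = c * (x i * w i) := fun i => by
        rw [Pi.smul_apply, smul_eq_mul]; ring
      rw [Finset.sum_congr rfl (fun i _ => this i), ← Finset.mul_sum, hxw, mul_zero]
    set v := c • w with hv
    have h1 : ∀ t : ℂ, ∑ i, sg i * (eval (a + t • x) (P i) *
        (starRingEnd ℂ) (eval (fun j => (starRingEnd ℂ) (v j)) (P i))) = 0 := by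
      intro t
      apply da27_polar hP
      have : ∀ i, (a + t • x) i * v i = a i * v i + t * (x i * v i) := fun i => by
        rw [Pi.add_apply, Pi.smul_apply, smul_eq_mul]; ring
      rw [Finset.sum_congr rfl (fun i _ => this i), Finset.sum_add_distrib, ← Finset.mul_sum, hxw',
        mul_zero, add_zero]
      exact haw'
    set e : ℕ → ℂ := fun r => ∑ i, sg i * (Fv P a x r i *
      (starRingEnd ℂ) (eval (fun j => (starRingEnd ℂ) (v j)) (P i))) with he
    have h2 : ∀ t : ℂ, ∑ r ∈ Finset.range (d + 1), e r * t ^ r = 0 := by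
      intro t
      rw [← h1 t, he]
      simp only [Finset.sum_mul]
      rw [Finset.sum_comm]
      apply Finset.sum_congr rfl
      intro i _
      rw [← sum_Fv hP.deg_le a x t i, Finset.sum_mul, Finset.mul_sum]
      apply Finset.sum_congr rfl
      intro r _
      ring
    have h3 : (∑ r ∈ Finset.range (d + 1), Polynomial.monomial r (e r)) = 0 := by
      apply Polynomial.funext
      intro t
      rw [Polynomial.eval_finsetSum, Polynomial.eval_zero, ← h2 t]
      apply Finset.sum_congr rfl
      intro r _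
      rw [Polynomial.eval_monomial]
    have h4 := congrArg (fun p => Polynomial.coeff p r) h3
    simp only [Polynomial.finsetSum_coeff, Polynomial.coeff_monomial, Polynomial.coeff_zero,
      Finset.sum_ite_eq', Finset.mem_range] at h4
    rw [if_pos (by omega)] at h4
    rw [da27_pra]
    have h5 : ∀ i, eval w (hcj a d (P i)) = (c ^ d)⁻¹ *
        (starRingEnd ℂ) (eval (fun j => (starRingEnd ℂ) (v j)) (P i)) := by
      intro i
      have a1 := eval_hcj_smul a d (P i) (hP.deg_le i) w c
      rw [← hv, eval_hcj a d (P i) (hP.deg_le i) v haw'] at a1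
      rw [a1, inv_mul_cancel_left₀ (pow_ne_zero _ hc0)]
    calc ∑ i, Fv P a x r i * (sg i * eval w (hcj a d (P i))) = (c ^ d)⁻¹ * e r := by
          rw [he, Finset.mul_sum]
          apply Finset.sum_congr rfl
          intro i _
          rw [h5]
          ring
      _ = 0 := by rw [h4, mul_zero]

end Pool.Agent.Lib_helper49.Dang
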