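import Pool.Agent.Lib_helper49.Dang.GDefs
import Pool.Agent.Lib_helper97.Ebe.KP

/-!
# Blocks da24, da25, da32
-/

namespace Pool.Agent.Lib_helper49.Dang

open MvPolynomial Pool.Agent.Lib_helper26.Ebe Pool.Agent.Lib_helper26.SOS

variable {n N d : ℕ} {P : Fin (N + 1) → MvPolynomial (Fin n) ℂ}

theorem da24_eval_q (x w : Fin n → ℂ) : eval (Sum.elim x w) (q n) = ∑ i, x i * w i := by
  unfold q
  rw [map_sum]
  simp

/-- Block da24: polynomials vanishing on `x·w = 0`. -/
theorem q_dvd_of_vanish (hn : 2 ≤ n) (s : MvPolynomial (Fin n) ℂ) (hs : s ≠ 0) (f : A n)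
    (h : ∀ x w : Fin n → ℂ, ∑ i, x i * w i = 0 → eval w s ≠ 0 → eval (Sum.elim x w) f = 0) :
    q n ∣ f := by
  have hq := q_prime hn
  have hI : (Ideal.span {q n}).IsPrime := by
    rw [Ideal.span_singleton_prime hq.ne_zero]
    exact hq
  have hmem : f * rename Sum.inr s ∈ vanishingIdeal ℂ (zeroLocus ℂ (Ideal.span {q n})) := by
    rw [mem_vanishingIdeal_iff]
    intro p hp
    rw [mem_zeroLocus_iff] at hp
    have h1 := hp (q n) (Ideal.subset_span rfl)
    have e : p = Sum.elim (fun i => p (Sum.inl i)) (fun i => p (Sum.inr i)) := by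
      funext i
      rcases i with i | i <;> rfl
    rw [e] at h1 ⊢
    have h2 : ∀ g : A n, aeval (Sum.elim (fun i => p (Sum.inl i)) (fun i => p (Sum.inr i))) g =
        eval (Sum.elim (fun i => p (Sum.inl i)) (fun i => p (Sum.inr i))) g := by
      intro g
      exact DFunLike.congr_fun (MvPolynomial.coe_aeval_eq_eval _) g
    rw [h2] at h1 ⊢
    rw [da24_eval_q] at h1
    rw [map_mul]
    have h3 : eval (Sum.elim (fun i => p (Sum.inl i)) (fun i => p (Sum.inr i)))
        (rename Sum.inr s) = eval (fun i => p (Sum.inr i)) s := by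
      rw [eval_rename]
      rfl
    rw [h3]
    by_cases hs0 : eval (fun i => p (Sum.inr i)) s = 0
    · rw [hs0, mul_zero]
    · rw [h _ _ h1 hs0, zero_mul]
  rw [IsPrime.vanishingIdeal_zeroLocus, Ideal.mem_span_singleton] at hmem
  rcases hq.dvd_or_dvd hmem with h4 | h4
  · exact h4
  · exfalso
    obtain ⟨g, hg⟩ := h4
    obtain ⟨w, hw⟩ : ∃ w, eval w s ≠ 0 := by
      by_contra hc
      push Not at hc
      exact hs (MvPolynomial.funext fun w => by rw [hc w, map_zero])
    have h5 := congrArg (eval (Sum.elim (0 : Fin n → ℂ) w)) hg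
    rw [map_mul, da24_eval_q, eval_rename] at h5
    apply hw
    have h6 : (Sum.elim (0 : Fin n → ℂ) w) ∘ Sum.inr = w := rfl
    rw [h6] at h5
    rw [h5]
    simp

theorem da25_iter {R : Type*} [CommRing R] [Algebra ℂ R] (D : Derivation ℂ R R) (r l : R)
    (h1 : D r = l) (h2 : D l = 0) (j : ℕ) : ∀ b : R, ∃ c : R,
      (D^[j]) (r ^ j * b) = (j.factorial : R) * l ^ j * b + r * c := by
  induction j with
  | zero => exact fun b => ⟨0, by simp⟩
  | succ j ih =>
    intro b
    have e : D (r ^ (j + 1) * b) = r ^ j * (((j : R) + 1) * l * b + r * D b) := by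
      rw [Derivation.leibniz, Derivation.leibniz_pow, h1]
      simp only [smul_eq_mul, nsmul_eq_mul, Nat.add_sub_cancel]
      push_cast
      ring
    obtain ⟨c, hc⟩ := ih (((j : R) + 1) * l * b + r * D b)
    refine ⟨(j.factorial : R) * l ^ j * D b + c, ?_⟩
    rw [Function.iterate_succ_apply, e, hc, Nat.factorial_succ]
    push_cast
    ring

theorem da25_sum {R ι : Type*} [CommRing R] [Algebra ℂ R] (s : Finset ι)
    (D : ι → Derivation ℂ R R) (f : R) : (∑ j ∈ s, D j) f = ∑ j ∈ s, D j f := by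
  classical
  induction s using Finset.induction_on with
  | empty => simp
  | insert a s ha ih => rw [Finset.sum_insert ha, Finset.sum_insert ha, Derivation.add_apply, ih]

theorem da25_Da (y : Fin n → ℂ) (f : A n) : Da y f = ∑ j, C (y j) * pderiv (Sum.inl j) f := by
  unfold Da
  rw [da25_sum]
  rfl

theorem da25_Da_q (i : Fin n) : Da (Pi.single i 1) (q n) = X (Sum.inr i) := by
  rw [da25_Da]
  unfold q
  simp only [map_sum, Derivation.leibniz, pderiv_X, smul_eq_mul]
  rw [Finset.sum_eq_single i]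
  · rw [Finset.sum_eq_single i]
    · simp
    · intro b _ hb
      have h1 : (Sum.inl b : Fin n ⊕ Fin n) ≠ Sum.inl i := fun h => hb (Sum.inl_injective h)
      simp [Pi.single_apply, h1.symm, h1]
    · simp
  · intro b _ hb
    simp [hb]
  · simp

theorem da25_Da_X (i : Fin n) : Da (Pi.single i 1) (X (Sum.inr i) : A n) = 0 := by
  rw [da25_Da]
  apply Finset.sum_eq_zero
  intro j _
  rw [pderiv_X_of_ne (by simp), mul_zero]

/-- Block da25: divisibility by a power of `x·w`. -/
theorem q_pow_dvd (hn : 2 ≤ n) (m : ℕ) (B : A n)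
    (h : ∀ η : Fin n → ℂ, ∀ j ≤ m, q n ∣ ((Da η)^[j]) B) : q n ^ (m + 1) ∣ B := by
  have hq := q_prime hn
  set i : Fin n := ⟨0, by omega⟩ with hi
  set i' : Fin n := ⟨1, by omega⟩ with hi'
  have hne : i ≠ i' := by simp [hi, hi']
  have hX : ¬ q n ∣ (X (Sum.inr i) : A n) := by
    rintro ⟨g, hg⟩
    have h5 := congrArg (eval (Sum.elim (Pi.single i' (1 : ℂ)) (Pi.single i (1 : ℂ)))) hg
    rw [map_mul, da24_eval_q, eval_X] at h5
    have h6 : ∑ k, (Pi.single i' (1 : ℂ) : Fin n → ℂ) k * (Pi.single i (1 : ℂ) : Fin n → ℂ) k = 0 := by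
      apply Finset.sum_eq_zero
      intro k _
      by_cases hk : k = i
      · rw [hk, Pi.single_eq_of_ne hne, zero_mul]
      · rw [Pi.single_eq_of_ne hk, mul_zero]
    rw [h6, zero_mul] at h5
    simp at h5
  have key : ∀ j ≤ m + 1, q n ^ j ∣ B := by
    intro j
    induction j with
    | zero => intro _; simp
    | succ j ih =>
      intro hj
      obtain ⟨b, hb⟩ := ih (by omega)
      obtain ⟨c, hc⟩ := da25_iter (Da (Pi.single i 1)) (q n) (X (Sum.inr i)) (da25_Da_q i)
        (da25_Da_X i) j b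
      have h1 := h (Pi.single i 1) j (by omega)
      rw [hb, hc] at h1
      have h2 : q n ∣ ((j.factorial : A n)) * X (Sum.inr i) ^ j * b :=
        (dvd_add_left (dvd_mul_right _ _)).mp h1
      have h3 : q n ∣ b := by
        rcases hq.dvd_or_dvd h2 with h4 | h4
        · exfalso
          rcases hq.dvd_or_dvd h4 with h5 | h5
          · apply hq.not_isUnit
            apply isUnit_of_dvd_unit h5
            have : ((j.factorial : A n)) = C (j.factorial : ℂ) := by simp
            rw [this]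
            exact (IsUnit.mk0 _ (by exact_mod_cast j.factorial_ne_zero)).map C
          · exact hX (hq.dvd_of_dvd_pow h5)
        · exact h4
      obtain ⟨b', hb'⟩ := h3
      exact ⟨b', by rw [hb, hb']; ring⟩
  exact key (m + 1) le_rfl

/-- Block da32: arithmetic. -/
theorem sum_le_of_growth {n τ : ℕ} (hn : 1 ≤ n) (m : Fin τ → ℕ)
    (h : ∀ a, (n + m a - 1).choose (m a) ≤ τ) (M : ℕ) (hM : τ < (n + M - 1).choose M) :
    ∑ a, (m a + 1) ≤ M * τ := by
  obtain ⟨k, rfl⟩ : ∃ k, n = k + 1 := ⟨n - 1, by omega⟩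
  have hch : ∀ j, (k + 1 + j - 1).choose j = (k + j).choose k := by
    intro j
    rw [show k + 1 + j - 1 = k + j by omega, Nat.choose_symm_add]
  have hlt : ∀ a, m a + 1 ≤ M := by
    intro a
    by_contra hc
    have h1 := h a
    rw [hch] at h1 hM
    have h2 : (k + M).choose k ≤ (k + m a).choose k := Nat.choose_le_choose k (by omega)
    omega
  calc ∑ a, (m a + 1) ≤ ∑ _a : Fin τ, M := Finset.sum_le_sum fun a _ => hlt a
    _ = M * τ := by simp [mul_comm]

end Pool.Agent.Lib_helper49.Dang
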