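import Pool.Agent.Lib_helper49.Dang.GDefs
import Pool.Agent.Lib_helper97.Ebe.KP

/-! Block da26: growth. -/

namespace Pool.Agent.Lib_helper49.Dang

open MvPolynomial Pool.Agent.Lib_helper26.Ebe Pool.Agent.Lib_helper26.SOS

variable {n : ℕ}

/-! ### The derivations -/

theorem da26_Da_apply (y : Fin n → ℂ) (f : A n) :
    Da y f = ∑ j, C (y j) * pderiv (Sum.inl j) f := by
  unfold Da
  have h := congrArg (fun F : A n → A n => F f) (map_sum
    (Derivation.coeFnAddMonoidHom : Derivation ℂ (A n) (A n) →+ (A n → A n))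
    (fun j => (C (y j) : A n) • (pderiv (Sum.inl j))) Finset.univ)
  simp only [Finset.sum_apply] at h
  exact h

theorem da26_Da_inl (y : Fin n → ℂ) (i : Fin n) : Da y (X (Sum.inl i)) = C (y i) := by
  classical
  rw [da26_Da_apply, Finset.sum_eq_single i]
  · simp
  · intro j _ hj
    rw [pderiv_X_of_ne (fun h => hj (Sum.inl.inj h).symm), mul_zero]
  · simp

theorem da26_Da_inr (y : Fin n → ℂ) (i : Fin n) : Da y (X (Sum.inr i)) = 0 := by
  classical
  rw [da26_Da_apply, Finset.sum_eq_zero]
  intro j _
  rw [pderiv_X_of_ne (by simp), mul_zero]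

theorem da26_comm (y z : Fin n → ℂ) (f : A n) : Da y (Da z f) = Da z (Da y f) := by
  have h : ⁅Da y, Da z⁆ = 0 := by
    refine MvPolynomial.derivation_ext fun i => ?_
    rcases i with i | i
    · rw [Derivation.commutator_apply, da26_Da_inl, da26_Da_inl]
      simp
    · rw [Derivation.commutator_apply, da26_Da_inr, da26_Da_inr]
      simp
  have h1 := congrArg (fun D : Derivation ℂ (A n) (A n) => D f) h
  simp only [Derivation.commutator_apply] at h1
  exact sub_eq_zero.1 h1

theorem da26_add (y z : Fin n → ℂ) (t : ℂ) : Da (y + t • z) = Da y + t • Da z := by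
  refine MvPolynomial.derivation_ext fun i => ?_
  rcases i with i | i
  · rw [da26_Da_inl, Derivation.add_apply, Derivation.smul_apply, da26_Da_inl, da26_Da_inl]
    simp [MvPolynomial.smul_eq_C_mul]
  · rw [da26_Da_inr, Derivation.add_apply, Derivation.smul_apply, da26_Da_inr, da26_Da_inr]
    simp

theorem da26_q (i : Fin n) : Da (Pi.single i 1) (q n) = X (Sum.inr i) := by
  classical
  unfold q
  rw [map_sum, Finset.sum_eq_single i]
  · rw [Derivation.leibniz, da26_Da_inl, da26_Da_inr]
    simp
  · intro j _ hj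
    rw [Derivation.leibniz, da26_Da_inl, da26_Da_inr]
    simp [Pi.single_eq_of_ne hj]
  · simp

/-! ### Mixed derivatives -/

theorem da26_coeff {V : Type*} [AddCommGroup V] [Module ℂ V] (U : Submodule ℂ V) (N : ℕ)
    (v : ℕ → V) (h : ∀ t : ℂ, ∑ r ∈ Finset.range N, t ^ r • v r ∈ U) (r : ℕ) (hr : r < N) :
    v r ∈ U := by
  have h0 : ∀ φ : Module.Dual ℂ (V ⧸ U), φ (U.mkQ (v r)) = 0 := by
    intro φ
    have hP : (∑ r ∈ Finset.range N, Polynomial.C (φ (U.mkQ (v r))) * Polynomial.X ^ r :
        Polynomial ℂ) = 0 := by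
      refine Polynomial.funext fun t => ?_
      rw [Polynomial.eval_finsetSum, Polynomial.eval_zero]
      have h1 := (Submodule.Quotient.mk_eq_zero U).2 (h t)
      have h2 := congrArg φ h1
      rw [← Submodule.mkQ_apply, map_sum, map_sum, map_zero] at h2
      rw [← h2]
      refine Finset.sum_congr rfl fun r _ => ?_
      rw [map_smul, map_smul, smul_eq_mul, Polynomial.eval_mul, Polynomial.eval_C,
        Polynomial.eval_pow, Polynomial.eval_X, mul_comm]
    have h1 := congrArg (fun P : Polynomial ℂ => P.coeff r) hP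
    simp only [Polynomial.finsetSum_coeff, Polynomial.coeff_C_mul, Polynomial.coeff_X_pow,
      Polynomial.coeff_zero, mul_ite, mul_one, mul_zero, Finset.sum_ite_eq, Finset.mem_range,
      if_pos hr] at h1
    exact h1
  have h1 := (Module.forall_dual_apply_eq_zero_iff ℂ _).1 h0
  rwa [Submodule.mkQ_apply, Submodule.Quotient.mk_eq_zero] at h1

/-- composition of the derivations -/
noncomputable def da26_DL (L : List (Fin n)) (f : A n) : A n :=
  L.foldl (fun g i => Da (Pi.single i 1) g) f

theorem da26_step (U : Submodule ℂ (A n)) (j : ℕ) (B : A n) (y z : Fin n → ℂ)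
    (h : ∀ t : ℂ, (Da (y + t • z))^[j + 1] B ∈ U) : (Da y)^[j] (Da z B) ∈ U := by
  set S : Module.End ℂ (A n) := (Da y : A n →ₗ[ℂ] A n) with hS
  set T : Module.End ℂ (A n) := (Da z : A n →ₗ[ℂ] A n) with hT
  have hSf : ∀ f, S f = Da y f := fun f => rfl
  have hTf : ∀ f, T f = Da z f := fun f => rfl
  have hcomm : Commute T S := by
    show T * S = S * T
    refine LinearMap.ext fun f => ?_
    rw [Module.End.mul_apply, Module.End.mul_apply, hSf, hTf, hTf, hSf, da26_comm]
  have hcommt : ∀ t : ℂ, Commute (t • T) S := fun t => hcomm.smul_left t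
  have key : ∀ t : ℂ, (Da (y + t • z))^[j + 1] B
      = ∑ r ∈ Finset.range (j + 2), t ^ r • (((T ^ r * S ^ (j + 1 - r)) * ((j + 1).choose r : Module.End ℂ (A n))) B) := by
    intro t
    have h1 : (Da (y + t • z))^[j + 1] B = ((t • T + S) ^ (j + 1)) B := by
      have hfun : (⇑(Da (y + t • z)) : A n → A n) = ⇑(t • T + S) := by
        funext f
        rw [da26_add, LinearMap.add_apply, LinearMap.smul_apply, hSf, hTf, Derivation.add_apply,
          Derivation.smul_apply, add_comm]
      rw [Module.End.pow_apply, hfun]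
    rw [h1, (hcommt t).add_pow, LinearMap.sum_apply]
    refine Finset.sum_congr rfl fun r _ => ?_
    rw [smul_pow, smul_mul_assoc, smul_mul_assoc, LinearMap.smul_apply]
  have h2 := da26_coeff U (j + 2) _ (fun t => by rw [← key t]; exact h t) 1 (by omega)
  rw [pow_one, Nat.choose_one_right, Nat.add_sub_cancel, Module.End.mul_apply,
    Module.End.natCast_apply, map_nsmul, Module.End.mul_apply] at h2
  have h3 : T ((S ^ j) B) = (Da y)^[j] (Da z B) := by
    have h4 : T ((S ^ j) B) = (S ^ j) (T B) := by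
      have h5 := (hcomm.pow_right j).eq
      have h6 := congrArg (fun F : Module.End ℂ (A n) => F B) h5
      exact h6
    rw [h4, Module.End.pow_apply]
    rfl
  rw [h3] at h2
  have h7 : (Da y)^[j] (Da z B) = ((j + 1 : ℕ) : ℂ)⁻¹ • ((j + 1) • ((Da y)^[j] (Da z B))) := by
    rw [← Nat.cast_smul_eq_nsmul ℂ, smul_smul, inv_mul_cancel₀ (Nat.cast_ne_zero.2 (by omega)),
      one_smul]
  rw [h7]
  exact U.smul_mem _ h2

theorem da26_mixed (U : Submodule ℂ (A n)) : ∀ (L : List (Fin n)) (m : ℕ) (B : A n),
    (∀ y : Fin n → ℂ, ∀ j ≤ m, (Da y)^[j] B ∈ U) → L.length ≤ m → da26_DL L B ∈ U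
  | [], m, B, h, _ => h 0 0 (by omega)
  | a :: L, m, B, h, hL => by
    have h1 : da26_DL (a :: L) B = da26_DL L (Da (Pi.single a 1) B) := rfl
    rw [h1]
    rw [List.length_cons] at hL
    refine da26_mixed U L (m - 1) _ (fun y j hj => ?_) (by omega)
    exact da26_step U j B y _ fun t => h _ _ (by omega)

theorem da26_lead : ∀ (L : List (Fin n)) (k : ℕ) (b : A n), L.length ≤ k →
    ∃ c : A n, da26_DL L (q n ^ k * b) =
      (k.descFactorial L.length : A n) * q n ^ (k - L.length)
        * (L.map (fun i => (X (Sum.inr i) : A n))).prod * b + q n ^ (k - L.length + 1) * c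
  | [], k, b, _ => ⟨0, by simp [da26_DL]⟩
  | a :: L, k, b, hL => by
    obtain ⟨k, rfl⟩ : ∃ k', k = k' + 1 := ⟨k - 1, by rw [List.length_cons] at hL; omega⟩
    rw [List.length_cons] at hL
    have h1 : da26_DL (a :: L) (q n ^ (k + 1) * b)
        = da26_DL L (q n ^ k * (((k + 1 : ℕ) : A n) * X (Sum.inr a) * b
          + q n * Da (Pi.single a 1) b)) := by
      show da26_DL L (Da (Pi.single a 1) (q n ^ (k + 1) * b)) = _
      congr 1
      rw [Derivation.leibniz, Derivation.leibniz_pow, da26_q, Nat.add_sub_cancel]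
      simp only [smul_eq_mul, nsmul_eq_mul]
      ring
    obtain ⟨c, hc⟩ := da26_lead L k (((k + 1 : ℕ) : A n) * X (Sum.inr a) * b
          + q n * Da (Pi.single a 1) b) (by omega)
    rw [h1, hc]
    refine ⟨(k.descFactorial L.length : A n) * (L.map (fun i => (X (Sum.inr i) : A n))).prod
      * Da (Pi.single a 1) b + c, ?_⟩
    rw [List.length_cons, Nat.succ_descFactorial_succ, Nat.add_sub_add_right, List.map_cons,
      List.prod_cons]
    push_cast
    ring

/-! ### The point -/

theorem da26_point (hn : 2 ≤ n) (b : A n) (hb : ¬ q n ∣ b) (l : Fin n) :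
    ∃ x w : Fin n → ℂ, ∑ k, x k * w k = 0 ∧ eval (Sum.elim x w) b ≠ 0 ∧ x l ≠ 0 := by
  have hq : rename (Sum.swap : Fin n ⊕ Fin n → Fin n ⊕ Fin n) (q n) = q n := by
    unfold q
    rw [map_sum]
    refine Finset.sum_congr rfl fun i _ => ?_
    rw [map_mul, rename_X, rename_X, Sum.swap_inl, Sum.swap_inr, mul_comm]
  have hb' : ¬ q n ∣ rename (Sum.swap : Fin n ⊕ Fin n → Fin n ⊕ Fin n) b := by
    intro h
    apply hb
    have h1 := map_dvd (rename (Sum.swap : Fin n ⊕ Fin n → Fin n ⊕ Fin n)) h
    rw [hq, rename_rename] at h1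
    have h2 : (Sum.swap ∘ Sum.swap : Fin n ⊕ Fin n → Fin n ⊕ Fin n) = id := by
      funext s; simp
    rwa [h2, rename_id, AlgHom.id_apply] at h1
  obtain ⟨z, w, hzw, hev, hw⟩ := exists_point hn _ hb' l
  refine ⟨w, z, ?_, ?_, hw⟩
  · rw [← hzw]
    exact Finset.sum_congr rfl fun i _ => mul_comm _ _
  · rw [eval_rename] at hev
    have h2 : (Sum.elim z w ∘ Sum.swap : Fin n ⊕ Fin n → ℂ) = Sum.elim w z := by
      funext s; rcases s with s | s <;> rfl
    rwa [h2] at hev

/-! ### Triangular independence -/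

theorem da26_tri {E E' ι : Type*} [CommRing E] [IsDomain E] [Algebra ℂ E] [CommRing E']
    [IsDomain E'] [Algebra ℂ E'] [Fintype ι] (lam : E) (hlam : lam ≠ 0) (ρ : E →ₐ[ℂ] E')
    (hρ : ρ lam = 0) (β : E') (hβ : β ≠ 0) (dg : ι → ℕ) (k : ℕ) (hk : ∀ s, dg s ≤ k)
    (u : ι → ℂ) (hu : ∀ s, u s ≠ 0) (μ : ι → E') (hμ : LinearIndependent ℂ μ)
    (M c T : ι → E) (hM : ∀ s, ρ (M s) = μ s * β)
    (hT : ∀ s, T s = u s • (lam ^ (k - dg s) * M s) + lam ^ (k - dg s + 1) * c s) :
    LinearIndependent ℂ T := by
  classical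
  rw [Fintype.linearIndependent_iff]
  intro g hg
  by_contra hne
  push Not at hne
  obtain ⟨s1, hs1⟩ := hne
  obtain ⟨s0, hs0, hmax⟩ := Finset.exists_max_image (Finset.univ.filter fun s => g s ≠ 0) dg
    ⟨s1, by simpa using hs1⟩
  have hgs0 : g s0 ≠ 0 := (Finset.mem_filter.1 hs0).2
  set J := dg s0 with hJ
  have hterm : ∀ s, g s • T s = lam ^ (k - J) * (g s • (u s • (lam ^ (J - dg s) * M s)
      + lam ^ (J - dg s + 1) * c s)) := by
    intro s
    by_cases h0 : g s = 0
    · simp [h0]
    · have h1 : dg s ≤ J := hmax s (by simpa using h0)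
      have h2 := hk s0
      rw [hT]
      have e1 : k - dg s = (k - J) + (J - dg s) := by omega
      rw [e1, pow_add, show k - J + (J - dg s) + 1 = (k - J) + (J - dg s + 1) by omega,
        pow_add lam (k - J) (J - dg s + 1)]
      simp only [mul_smul_comm, mul_add, mul_assoc]
  simp_rw [hterm] at hg
  rw [← Finset.mul_sum] at hg
  have hg1 := (mul_eq_zero.1 hg).resolve_left (pow_ne_zero _ hlam)
  have hg2 := congrArg ρ hg1
  rw [map_sum, map_zero] at hg2
  have hg3 : (∑ s, (if dg s = J then g s * u s else 0) • μ s) * β = 0 := by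
    rw [← hg2, Finset.sum_mul]
    refine Finset.sum_congr rfl fun s _ => ?_
    by_cases h0 : g s = 0
    · simp [h0]
    · have h1 : dg s ≤ J := hmax s (by simpa using h0)
      rw [map_smul, map_add, map_mul, map_pow, hρ, map_smul, map_mul, map_pow, hρ, hM]
      by_cases h2 : dg s = J
      · rw [if_pos h2, h2, Nat.sub_self, pow_zero, zero_add, pow_one, one_mul, zero_mul, add_zero,
          smul_smul, smul_mul_assoc]
      · rw [if_neg h2, zero_pow (by omega), zero_pow (by omega)]
        simp
  have hg4 := (mul_eq_zero.1 hg3).resolve_right hβ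
  have hg5 := Fintype.linearIndependent_iff.1 hμ _ hg4 s0
  rw [if_pos rfl] at hg5
  exact mul_ne_zero hgs0 (hu s0) hg5

/-! ### The monomials -/

theorem da26_mon (l : Fin n) (m : ℕ) : LinearIndependent ℂ
    (fun s : Sym (Fin n) m => (((s : Multiset (Fin n)).filter (fun i => i ≠ l)).map
      (fun i => (X i : MvPolynomial (Fin n) ℂ))).prod) := by
  classical
  have h1 : ∀ s : Multiset (Fin n), (s.map (fun i => (X i : MvPolynomial (Fin n) ℂ))).prod
      = monomial (Multiset.toFinsupp s) 1 := by
    intro s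
    induction s using Multiset.induction_on with
    | empty => simp
    | cons a s ih =>
      rw [Multiset.map_cons, Multiset.prod_cons, ih, ← Multiset.singleton_add, map_add,
        Multiset.toFinsupp_singleton, X, monomial_mul, one_mul]
  simp_rw [h1]
  have h2 := (MvPolynomial.basisMonomials (Fin n) ℂ).linearIndependent
  have h3 : (fun s : Sym (Fin n) m => (monomial (Multiset.toFinsupp
      ((s : Multiset (Fin n)).filter (fun i => i ≠ l))) 1 : MvPolynomial (Fin n) ℂ))
      = (MvPolynomial.basisMonomials (Fin n) ℂ) ∘ (fun s : Sym (Fin n) m => Multiset.toFinsupp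
        ((s : Multiset (Fin n)).filter (fun i => i ≠ l))) := by
    funext s
    rw [Function.comp_apply, MvPolynomial.coe_basisMonomials]
  rw [h3]
  refine h2.comp _ fun s s' hss => ?_
  have h4 : (s : Multiset (Fin n)).filter (fun i => i ≠ l)
      = (s' : Multiset (Fin n)).filter (fun i => i ≠ l) := Multiset.toFinsupp.injective hss
  have hd : ∀ s : Multiset (Fin n), s = s.filter (fun i => i ≠ l)
      + Multiset.replicate (s.card - (s.filter (fun i => i ≠ l)).card) l := by
    intro s
    have h5 := Multiset.filter_add_not (fun i => i ≠ l) s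
    have h6 : s.filter (fun i => ¬ (i ≠ l)) = Multiset.replicate (s.count l) l := by
      rw [← Multiset.filter_eq']
      refine Multiset.filter_congr fun i _ => ?_
      simp
    rw [h6] at h5
    have h7 : s.card - (s.filter (fun i => i ≠ l)).card = s.count l := by
      have h8 := congrArg Multiset.card h5
      rw [Multiset.card_add, Multiset.card_replicate] at h8
      omega
    rw [h7]
    exact h5.symm
  apply Sym.coe_injective
  rw [hd (s : Multiset (Fin n)), hd (s' : Multiset (Fin n)), h4]
  simp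

/-! ### The theorem -/

theorem growth_alg (hn : 2 ≤ n) (m : ℕ) (B : A n) (hB : B ≠ 0) (h : q n ^ (m + 1) ∣ B) :
    ∃ x : Fin n → ℂ, ∀ W : Submodule ℂ (MvPolynomial (Fin n) ℂ), FiniteDimensional ℂ W →
      (∀ η : Fin n → ℂ, ∀ j ≤ m, sl x (((Da η)^[j]) B) ∈ W) →
      (n + m - 1).choose m ≤ Module.finrank ℂ W := by
  classical
  obtain ⟨k, b, hqb, rfl⟩ := WfDvdMonoid.max_power_factor hB (q_irreducible hn)
  have hqne : q n ≠ 0 := q_ne_zero (by omega)
  have hkm : m + 1 ≤ k := by
    by_contra hlt
    push Not at hlt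
    apply hqb
    have h1 : q n ^ k * q n ^ (m + 1 - k) ∣ q n ^ k * b := by
      rw [← pow_add, show k + (m + 1 - k) = m + 1 by omega]
      exact h
    have h2 := (mul_dvd_mul_iff_left (pow_ne_zero k hqne)).1 h1
    exact (dvd_pow_self (q n) (by omega : m + 1 - k ≠ 0)).trans h2
  let l : Fin n := ⟨0, by omega⟩
  obtain ⟨x, w, hxw, hev, hxl⟩ := da26_point hn b hqb l
  refine ⟨x, fun W hW hmem => ?_⟩
  set lam : MvPolynomial (Fin n) ℂ := ∑ i, C (x i) * X i with hlamdef
  have hslq : sl x (q n) = lam := by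
    unfold q sl
    rw [map_sum]
    refine Finset.sum_congr rfl fun i _ => ?_
    rw [map_mul, aeval_X, aeval_X]
    rfl
  have hlam : lam ≠ 0 := by
    intro h0
    have h1 := congrArg (eval (Pi.single l (1 : ℂ))) h0
    rw [hlamdef, map_sum, map_zero, Finset.sum_eq_single l] at h1
    · simp at h1
      exact hxl h1
    · intro j _ hj
      simp [Pi.single_eq_of_ne hj]
    · simp
  let ρ : MvPolynomial (Fin n) ℂ →ₐ[ℂ] MvPolynomial (Fin n) ℂ :=
    aeval (fun i => if i = l then -(C ((x l)⁻¹) * ∑ j ∈ Finset.univ.erase l, C (x j) * X j) else X i)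
  have hρX : ∀ i, i ≠ l → ρ (X i) = X i := by
    intro i hi
    show aeval _ (X i) = _
    rw [aeval_X, if_neg hi]
  have hρl : ρ (X l) = -(C ((x l)⁻¹) * ∑ j ∈ Finset.univ.erase l, C (x j) * X j) := by
    show aeval _ (X l) = _
    rw [aeval_X, if_pos rfl]
  have hρC : ∀ a : ℂ, ρ (C a) = C a := fun a => by
    show aeval _ (C a) = _
    rw [aeval_C]; rfl
  have hρ : ρ lam = 0 := by
    rw [hlamdef, ← Finset.add_sum_erase _ _ (Finset.mem_univ l), map_add, map_mul, hρl, hρC,
      map_sum]
    have h1 : ∑ j ∈ Finset.univ.erase l, ρ (C (x j) * X j)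
        = ∑ j ∈ Finset.univ.erase l, C (x j) * X j := by
      refine Finset.sum_congr rfl fun j hj => ?_
      rw [map_mul, hρC, hρX j (Finset.ne_of_mem_erase hj)]
    rw [h1, mul_neg, ← mul_assoc, ← C_mul, mul_inv_cancel₀ hxl, C_1, one_mul, neg_add_cancel]
  have hev2 : ∀ f, eval w (ρ f) = eval w f := by
    intro f
    have h1 : ((aeval w : MvPolynomial (Fin n) ℂ →ₐ[ℂ] ℂ).comp ρ) = aeval w := by
      refine MvPolynomial.algHom_ext fun i => ?_
      rw [AlgHom.comp_apply]
      by_cases hi : i = l
      · rw [hi, hρl, aeval_X, map_neg, map_mul, map_sum]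
        have h2 : ∑ j ∈ Finset.univ.erase l, (aeval w : MvPolynomial (Fin n) ℂ →ₐ[ℂ] ℂ) (C (x j) * X j)
            = - (x l * w l) := by
          rw [← Finset.add_sum_erase _ _ (Finset.mem_univ l)] at hxw
          have h3 : ∑ j ∈ Finset.univ.erase l, (aeval w : MvPolynomial (Fin n) ℂ →ₐ[ℂ] ℂ) (C (x j) * X j)
              = ∑ j ∈ Finset.univ.erase l, x j * w j := by
            refine Finset.sum_congr rfl fun j _ => ?_
            rw [map_mul, aeval_X, aeval_C]; rfl
          rw [h3]
          linear_combination hxw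
        rw [h2, aeval_C]
        simp only [Algebra.algebraMap_self, RingHom.id_apply]
        field_simp
      · rw [hρX i hi]
    have h2 := congrArg (fun F : MvPolynomial (Fin n) ℂ →ₐ[ℂ] ℂ => F f) h1
    simpa [aeval_eq_eval] using h2
  set b₀ := sl x b with hb₀
  have hevsl : ∀ f : A n, eval w (sl x f) = eval (Sum.elim x w) f := by
    intro f
    unfold sl
    induction f using MvPolynomial.induction_on with
    | C a => simp
    | add p q hp hq => rw [map_add, map_add, hp, hq, map_add]
    | mul_X p i hp =>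
      rw [map_mul, map_mul, hp, map_mul]
      rcases i with i | i <;> simp
  have hβ : ρ b₀ ≠ 0 := by
    intro h0
    have h1 := hev2 b₀
    rw [h0, map_zero, hevsl] at h1
    exact hev h1.symm
  -- the lists
  let L : Sym (Fin n) m → List (Fin n) := fun s =>
    ((s : Multiset (Fin n)).filter (fun i => i ≠ l)).toList
  have hLlen : ∀ s, (L s).length ≤ m := by
    intro s
    show (Multiset.toList _).length ≤ m
    rw [Multiset.length_toList]
    exact (Multiset.card_le_card (Multiset.filter_le _ _)).trans_eq s.2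
  have hlead : ∀ s, ∃ c : A n, da26_DL (L s) (q n ^ k * b) =
      (k.descFactorial (L s).length : A n) * q n ^ (k - (L s).length)
        * ((L s).map (fun i => (X (Sum.inr i) : A n))).prod * b
        + q n ^ (k - (L s).length + 1) * c := fun s =>
    da26_lead (L s) k b ((hLlen s).trans (by omega))
  choose c hc using hlead
  have hTW : ∀ s, sl x (da26_DL (L s) (q n ^ k * b)) ∈ W := by
    intro s
    exact da26_mixed (W.comap (sl x).toLinearMap) (L s) m _ (fun y j hj => hmem y j hj) (hLlen s)
  have hli : LinearIndependent ℂ (fun s : Sym (Fin n) m => sl x (da26_DL (L s) (q n ^ k * b))) := by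
    refine da26_tri lam hlam ρ hρ (ρ b₀) hβ (fun s => (L s).length) k
      (fun s => (hLlen s).trans (by omega)) (fun s => (k.descFactorial (L s).length : ℂ))
      (fun s => ?_) _ (da26_mon l m)
      (fun s => (((s : Multiset (Fin n)).filter (fun i => i ≠ l)).map
        (fun i => (X i : MvPolynomial (Fin n) ℂ))).prod * b₀) (fun s => sl x (c s)) _
      (fun s => ?_) (fun s => ?_)
    · rw [Nat.cast_ne_zero]
      intro h0
      rw [Nat.descFactorial_eq_zero_iff_lt] at h0
      have := hLlen s
      omega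
    · rw [map_mul, map_multiset_prod, Multiset.map_map]
      congr 2
      refine Multiset.map_congr rfl fun i hi => ?_
      exact hρX i (Multiset.mem_filter.1 hi).2
    · rw [hc, map_add, map_mul, map_mul, map_mul, map_mul, map_pow, map_pow, hslq, map_natCast]
      have h1 : sl x ((L s).map (fun i => (X (Sum.inr i) : A n))).prod
          = (((s : Multiset (Fin n)).filter (fun i => i ≠ l)).map
            (fun i => (X i : MvPolynomial (Fin n) ℂ))).prod := by
        rw [map_list_prod, List.map_map]
        conv_rhs => rw [← Multiset.coe_toList ((s : Multiset (Fin n)).filter (fun i => i ≠ l))]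
        rw [Multiset.map_coe, Multiset.prod_coe]
        congr 1
        refine List.map_congr_left fun i _ => ?_
        rw [Function.comp_apply]
        unfold sl
        rw [aeval_X]
        rfl
      rw [h1, MvPolynomial.smul_eq_C_mul]
      simp only [map_natCast]
      ring
  have hli2 : LinearIndependent ℂ (fun s : Sym (Fin n) m =>
      (⟨sl x (da26_DL (L s) (q n ^ k * b)), hTW s⟩ : W)) :=
    LinearIndependent.of_comp W.subtype hli
  have hcard := hli2.fintype_card_le_finrank
  rwa [Sym.card_sym_eq_choose, Fintype.card_fin] at hcard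

end Pool.Agent.Lib_helper49.Dang
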