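import Pool.Agent.Lib_helper49.Dang.GDefs
import Pool.Agent.Lib_helper97.Ebe.KP
import Pool.Agent.Lib_helper49.Dang.B01
import Pool.Agent.Lib_helper49.Dang.B04
import Pool.Agent.Lib_helper49.Dang.B07
import Pool.Agent.Lib_helper49.Dang.B18
import Pool.Agent.Lib_helper49.Dang.G23

/-!
# D'Angelo's degree problem: block da28
-/

namespace Pool.Agent.Lib_helper49.Dang

open MvPolynomial Pool.Agent.Lib_helper26.Ebe Pool.Agent.Lib_helper26.SOS

variable {n N d : ℕ} {P : Fin (N + 1) → MvPolynomial (Fin n) ℂ}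

theorem da28_hf_conj (u v : Fin (N + 1) → ℂ) : (starRingEnd ℂ) (hf u v) = hf v u := by
  simp only [hf, map_sub, map_sum, map_mul, RingHomCompTriple.comp_apply, RingHom.id_apply]
  congr 1
  · exact Finset.sum_congr rfl fun i _ => mul_comm _ _
  · exact mul_comm _ _

theorem da28_hf_sub_left (u v w : Fin (N + 1) → ℂ) : hf (u - v) w = hf u w - hf v w := by
  simp only [hf, Pi.sub_apply, sub_mul, Finset.sum_sub_distrib]
  ring

theorem da28_hf_smul_left (c : ℂ) (u w : Fin (N + 1) → ℂ) : hf (c • u) w = c * hf u w := by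
  simp only [hf, Pi.smul_apply, smul_eq_mul, mul_sub, Finset.mul_sum, mul_assoc]

theorem da28_eq_zero {w : Fin (N + 1) → ℂ} (h0 : w 0 = 0) (h : hf w w = 0) : w = 0 := by
  have h1 : hf w w = ((∑ i : Fin N, ‖w i.succ‖ ^ 2 : ℝ) : ℂ) := by
    simp only [hf, h0, zero_mul, sub_zero, Complex.mul_conj, Complex.normSq_eq_norm_sq]
    push_cast
    rfl
  rw [h1] at h
  have h2 : ∑ i : Fin N, ‖w i.succ‖ ^ 2 = 0 := by exact_mod_cast h
  rw [Finset.sum_eq_zero_iff_of_nonneg (fun i _ => sq_nonneg _)] at h2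
  funext i
  refine Fin.cases h0 (fun i => ?_) i
  simpa using h2 i (Finset.mem_univ i)

theorem da28_lorentz {u v : Fin (N + 1) → ℂ} (hu : hf u u = 0) (hv : hf v v = 0)
    (huv : hf v u = 0) (hu0 : u ≠ 0) : v ∈ Submodule.span ℂ {u} := by
  have h00 : u 0 ≠ 0 := fun h => hu0 (da28_eq_zero h hu)
  have huv' : hf u v = 0 := by rw [← da28_hf_conj, huv, map_zero]
  have hw : v - (v 0 / u 0) • u = 0 := by
    apply da28_eq_zero
    · simp [h00]
    · have h1 : ∀ w, hf w (v - (v 0 / u 0) • u) =
          (starRingEnd ℂ) (hf (v - (v 0 / u 0) • u) w) := fun w => (da28_hf_conj _ _).symm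
      rw [h1, da28_hf_sub_left, da28_hf_smul_left, h1, h1, da28_hf_sub_left,
        da28_hf_smul_left, da28_hf_sub_left, da28_hf_smul_left, hu, hv, huv, huv']
      simp
  rw [Submodule.mem_span_singleton]
  exact ⟨v 0 / u 0, (sub_eq_zero.1 hw).symm⟩

/-- A polynomial in `conj s` which vanishes identically has zero coefficients. -/
theorem da28_coeff (d : ℕ) (c : ℕ → ℂ)
    (h : ∀ s : ℂ, ∑ r ∈ Finset.range (d + 1), c r * s ^ r = 0) (r : ℕ) (hr : r ≤ d) :
    c r = 0 := by
  have h1 : (∑ r ∈ Finset.range (d + 1), Polynomial.monomial r (c r)) = 0 := by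
    apply Polynomial.funext
    intro s
    rw [Polynomial.eval_finsetSum, Polynomial.eval_zero, ← h s]
    exact Finset.sum_congr rfl fun r _ => by rw [Polynomial.eval_monomial]
  have h2 := congrArg (fun p => Polynomial.coeff p r) h1
  simp only [Polynomial.finsetSum_coeff, Polynomial.coeff_monomial, Polynomial.coeff_zero] at h2
  rw [Finset.sum_ite_eq' (Finset.range (d + 1)) r, if_pos (Finset.mem_range.2 (by omega))] at h2
  exact h2

theorem da28_eval_pra (a : Fin n → ℂ) (w : Fin n → ℂ) (ψ : Fin (N + 1) → ℂ) :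
    eval w (pra P a d ψ) = ∑ i, sg i * ψ i * eval w (hcj a d (P i)) := by
  simp only [pra, LinearMap.sum_apply, LinearMap.comp_apply, LinearMap.proj_apply,
    LinearMap.toSpanSingleton_apply, map_sum, smul_eval]
  exact Finset.sum_congr rfl fun i _ => by ring

theorem da28_hf_sum (u v : Fin (N + 1) → ℂ) :
    hf u v = ∑ i, sg i * u i * (starRingEnd ℂ) (v i) := by
  rw [Fin.sum_univ_succ]
  simp only [sg, if_true, Fin.succ_ne_zero, if_false, hf]
  rw [neg_mul, neg_mul]
  simp only [one_mul]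
  ring

/-- Block da28: the pairing is injective modulo `P(a)` at real points.
Uses da04, da07, da18 (Lorentz lemma), da23. -/
theorem mem_span_of_pra_eq_zero (hP : SMap n N d P) {a x : Fin n → ℂ} (ha : OnSphere a)
    (hx : ip x a = 0) (ψ : Fin (N + 1) → ℂ) (hψ : ψ ∈ Submodule.span ℂ (Set.range (Fv P a x)))
    (h : pra P a d ψ = 0) (h0 : Fv P a x 0 ≠ 0) : ψ ∈ Submodule.span ℂ {Fv P a x 0} := by
  have hax : ∑ j, a j * (starRingEnd ℂ) (x j) = 0 := by
    have h1 := congrArg (starRingEnd ℂ) hx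
    rw [map_zero, ip, map_sum] at h1
    rw [← h1]
    refine Finset.sum_congr rfl fun j _ => ?_
    rw [map_mul, RingHomCompTriple.comp_apply, RingHom.id_apply, mul_comm]
  have haa : ∑ j, a j * (starRingEnd ℂ) (a j) = 1 := by
    have h1 : ∑ j, a j * (starRingEnd ℂ) (a j) = ((∑ j, ‖a j‖ ^ 2 : ℝ) : ℂ) := by
      simp only [Complex.mul_conj, Complex.normSq_eq_norm_sq]
      push_cast
      rfl
    rw [h1, show ∑ j, ‖a j‖ ^ 2 = 1 from ha]
    norm_num
  have h1 : ∀ s : ℂ, hf ψ (fun i => eval (a + s • x) (P i)) = 0 := by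
    intro s
    let w : Fin n → ℂ := fun j => (starRingEnd ℂ) (a j + s * x j)
    have hw : ∑ j, a j * w j = 1 := by
      simp only [w, map_add, map_mul, mul_add, Finset.sum_add_distrib]
      rw [haa]
      have : ∑ j, a j * ((starRingEnd ℂ) s * (starRingEnd ℂ) (x j)) =
          (starRingEnd ℂ) s * ∑ j, a j * (starRingEnd ℂ) (x j) := by
        rw [Finset.mul_sum]
        exact Finset.sum_congr rfl fun j _ => by ring
      rw [this, hax, mul_zero, add_zero]
    have h2 : eval w (pra P a d ψ) = 0 := by rw [h, map_zero]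
    rw [da28_eval_pra] at h2
    rw [da28_hf_sum, ← h2]
    refine Finset.sum_congr rfl fun i _ => ?_
    have h9 : (fun j => (starRingEnd ℂ) (w j)) = a + s • x := by
      funext j
      simp [w]
    rw [eval_hcj a d (P i) (hP.deg_le i) w hw, h9]
  have h2 : ∀ r, hf ψ (Fv P a x r) = 0 := by
    intro r
    by_cases hr : r ≤ d
    · have h3 : ∀ s : ℂ, ∑ r ∈ Finset.range (d + 1), hf ψ (Fv P a x r) * s ^ r = 0 := by
        intro s
        have h4 := h1 ((starRingEnd ℂ) s)
        rw [da28_hf_sum] at h4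
        rw [← h4]
        have h5 : ∀ i, (starRingEnd ℂ) (eval (a + (starRingEnd ℂ) s • x) (P i)) =
            ∑ r ∈ Finset.range (d + 1), (starRingEnd ℂ) (Fv P a x r i) * s ^ r := by
          intro i
          rw [← sum_Fv hP.deg_le, map_sum]
          refine Finset.sum_congr rfl fun r _ => ?_
          rw [map_mul, map_pow, RingHomCompTriple.comp_apply, RingHom.id_apply]
        simp only [h5, da28_hf_sum, Finset.mul_sum, Finset.sum_mul]
        rw [Finset.sum_comm]
        refine Finset.sum_congr rfl fun i _ => Finset.sum_congr rfl fun r _ => ?_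
        ring
      exact da28_coeff d (fun r => hf ψ (Fv P a x r)) h3 r hr
    · have h3 : Fv P a x r = 0 := by
        funext i
        show eval (Sum.elim a x) (Fc P r i) = 0
        rw [Fc_eq_zero hP.deg_le (by omega), map_zero]
      rw [h3]
      simp [hf]
  have h3 : ∀ φ ∈ Submodule.span ℂ (Set.range (Fv P a x)), hf φ ψ = 0 := by
    intro φ hφ
    induction hφ using Submodule.span_induction with
    | mem y hy =>
      obtain ⟨r, rfl⟩ := hy
      rw [← da28_hf_conj, h2, map_zero]
    | zero => simp [hf]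
    | add y z _ _ hy hz =>
      have h4 : hf (y + z) ψ = hf y ψ + hf z ψ := by
        simp only [hf, Pi.add_apply, add_mul, Finset.sum_add_distrib]
        ring
      rw [h4, hy, hz, add_zero]
    | smul c y _ hy => rw [da28_hf_smul_left, hy, mul_zero]
  have h00 : Fv P a x 0 = Fv P a 0 0 := by
    funext i
    simp only [Fv, Fc_zero, eval_rename]
    rfl
  have hu : hf (Fv P a x 0) (Fv P a x 0) = 0 := by
    rw [h00]
    have h4 : ip (0 : Fin n → ℂ) a = 0 := by simp [ip]
    exact orth hP ha h4 h4 (by simp [ip]) 0 0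
  exact da28_lorentz hu (h3 ψ hψ) (h2 0) h0

end Pool.Agent.Lib_helper49.Dang
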