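import Pool.Agent.Lib_helper49.Dang.GDefs
import Pool.Agent.Lib_helper97.Ebe.KP

/-!
# D'Angelo's degree problem: block da29
-/

namespace Pool.Agent.Lib_helper49.Dang

open MvPolynomial Pool.Agent.Lib_helper26.Ebe Pool.Agent.Lib_helper26.SOS

variable {n N d : ℕ} {P : Fin (N + 1) → MvPolynomial (Fin n) ℂ}

theorem da29_independent {σ ι : Type*} [Fintype ι] [DecidableEq ι] {R : ℕ}
    (v : Fin R → ι → MvPolynomial σ ℂ) (b : σ → ℂ)
    (h : LinearIndependent ℂ (fun k i => eval b (v k i))) :
    LinearIndependent (FractionRing (MvPolynomial σ ℂ))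
      (fun k i => algebraMap (MvPolynomial σ ℂ) (FractionRing (MvPolynomial σ ℂ)) (v k i)) := by
  classical
  let M : Matrix (Fin R) ι (MvPolynomial σ ℂ) := Matrix.of v
  let Mb : Matrix (Fin R) ι ℂ := M.map (eval b)
  have hinj : Function.Injective (Matrix.vecMulLinear Mb) := by
    have h1 : LinearIndependent ℂ Mb.row := h
    exact Matrix.vecMul_injective_iff.2 h1
  obtain ⟨g, hg⟩ := LinearMap.exists_leftInverse_of_injective _ (LinearMap.ker_eq_bot.2 hinj)
  let B : Matrix ι (Fin R) ℂ := Matrix.of fun i => g (Pi.single i 1)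
  have hgB : ∀ y : ι → ℂ, g y = Matrix.vecMul y B := by
    intro y
    have h1 : y = ∑ i, y i • (Pi.single i (1 : ℂ) : ι → ℂ) := by
      funext j
      simp [Finset.sum_apply, Pi.single_apply]
    conv_lhs => rw [h1]
    rw [map_sum]
    funext j
    simp [Matrix.vecMul, dotProduct, B]
  have hMB : Mb * B = 1 := by
    apply Matrix.ext_of_single_vecMul
    intro k
    rw [← Matrix.vecMul_vecMul, ← hgB, Matrix.vecMul_one]
    exact congrArg (fun T => T (Pi.single k (1 : ℂ))) hg
  let D : Matrix (Fin R) (Fin R) (MvPolynomial σ ℂ) :=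
    Matrix.of fun k l => ∑ i, M k i * C (B i l)
  have hD : D.det ≠ 0 := by
    intro h0
    have h1 := congrArg (eval b) h0
    rw [map_zero, RingHom.map_det] at h1
    have h2 : (eval b).mapMatrix D = 1 := by
      rw [← hMB]
      ext i j
      simp [D, Mb, Matrix.mul_apply]
    rw [h2, Matrix.det_one] at h1
    exact one_ne_zero h1
  set K := FractionRing (MvPolynomial σ ℂ)
  let φ := algebraMap (MvPolynomial σ ℂ) K
  have hDK : (D.map φ).det ≠ 0 := by
    have h1 : (D.map φ).det = φ D.det := by
      rw [RingHom.map_det]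
      rfl
    rw [h1]
    intro h2
    apply hD
    apply IsFractionRing.injective (MvPolynomial σ ℂ) K
    rw [map_zero]
    exact h2
  have hinj2 : Function.Injective (M.map φ).vecMulLinear := by
    rw [injective_iff_map_eq_zero]
    intro y hy
    apply Matrix.eq_zero_of_vecMul_eq_zero hDK
    have h1 : D.map φ = M.map φ * (B.map C).map φ := by
      ext i j
      simp [D, Matrix.mul_apply]
    rw [h1, ← Matrix.vecMul_vecMul]
    have h2 : Matrix.vecMul y (M.map φ) = 0 := hy
    rw [h2, Matrix.zero_vecMul]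
  exact Matrix.vecMul_injective_iff.1 hinj2

/-- Block da29: the rank at a point is at most the generic rank. -/
theorem rank_le {τ : ℕ}
    (h : Module.finrank (FractionRing (A n)) (Submodule.span (FractionRing (A n))
        (Set.range fun (r : ℕ) (i : Fin (N + 1)) =>
          algebraMap (A n) (FractionRing (A n)) (Fc P r i))) = τ + 1) (a x : Fin n → ℂ) :
    Module.finrank ℂ (Submodule.span ℂ (Set.range (Fv P a x))) ≤ τ + 1 := by
  obtain ⟨f, hf, _, hli⟩ := Submodule.exists_fun_fin_finrank_span_eq ℂ (Set.range (Fv P a x))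
  choose r hr using hf
  have h1 : LinearIndependent ℂ (fun k i => eval (Sum.elim a x) (Fc P (r k) i)) := by
    have e : (fun k i => eval (Sum.elim a x) (Fc P (r k) i)) = f := funext fun k => hr k
    rw [e]
    exact hli
  have h2 := da29_independent (fun k => Fc P (r k)) (Sum.elim a x) h1
  have h3 := finrank_span_eq_card h2
  rw [Fintype.card_fin] at h3
  rw [← h3, ← h]
  apply Submodule.finrank_mono
  apply Submodule.span_mono
  rintro _ ⟨k, rfl⟩
  exact ⟨r k, rfl⟩

end Pool.Agent.Lib_helper49.Dang
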