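import Pool.Agent.Lib_helper49.Dang.GDefs
import Pool.Agent.Lib_helper97.Ebe.KP
import Pool.Agent.Lib_helper49.Dang.B01
import Pool.Agent.Lib_helper49.Dang.B04
import Pool.Agent.Lib_helper49.Dang.B05
import Pool.Agent.Lib_helper49.Dang.B07
import Pool.Agent.Lib_helper49.Dang.B14
import Pool.Agent.Lib_helper49.Dang.B18
import Pool.Agent.Lib_helper49.Dang.G23
import Pool.Agent.Lib_helper49.Dang.G24
import Pool.Agent.Lib_helper49.Dang.G26
import Pool.Agent.Lib_helper49.Dang.G28
import Pool.Agent.Lib_helper49.Dang.G29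

/-! Block da30: growth at a point. -/

namespace Pool.Agent.Lib_helper49.Dang

open MvPolynomial Pool.Agent.Lib_helper26.Ebe Pool.Agent.Lib_helper26.SOS

variable {n N d : ℕ} {P : Fin (N + 1) → MvPolynomial (Fin n) ℂ}

theorem da30_Da_apply (y : Fin n → ℂ) (f : A n) :
    Da y f = ∑ j, C (y j) * pderiv (Sum.inl j) f := by
  unfold Da
  have h := congrArg (fun F : A n → A n => F f) (map_sum
    (Derivation.coeFnAddMonoidHom : Derivation ℂ (A n) (A n) →+ (A n → A n))
    (fun j => (C (y j) : A n) • (pderiv (Sum.inl j))) Finset.univ)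
  simp only [Finset.sum_apply] at h
  exact h

theorem da30_Dx_apply (y : Fin n → ℂ) (f : A n) :
    Dx y f = ∑ j, C (y j) * pderiv (Sum.inr j) f := by
  unfold Dx
  have h := congrArg (fun F : A n → A n => F f) (map_sum
    (Derivation.coeFnAddMonoidHom : Derivation ℂ (A n) (A n) →+ (A n → A n))
    (fun j => (C (y j) : A n) • (pderiv (Sum.inr j))) Finset.univ)
  simp only [Finset.sum_apply] at h
  exact h

theorem da30_Da_inl (y : Fin n → ℂ) (i : Fin n) : Da y (X (Sum.inl i)) = C (y i) := by
  classical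
  rw [da30_Da_apply, Finset.sum_eq_single i]
  · simp
  · intro j _ hj
    rw [pderiv_X_of_ne (fun h => hj (Sum.inl.inj h).symm), mul_zero]
  · simp

theorem da30_Dx_inr (y : Fin n → ℂ) (i : Fin n) : Dx y (X (Sum.inr i)) = C (y i) := by
  classical
  rw [da30_Dx_apply, Finset.sum_eq_single i]
  · simp
  · intro j _ hj
    rw [pderiv_X_of_ne (fun h => hj (Sum.inr.inj h).symm), mul_zero]
  · simp

theorem da30_Dx_inl (y : Fin n → ℂ) (i : Fin n) : Dx y (X (Sum.inl i)) = 0 := by
  classical
  rw [da30_Dx_apply, Finset.sum_eq_zero]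
  intro j _
  rw [pderiv_X_of_ne (by simp), mul_zero]

theorem da30_Da_inr (y : Fin n → ℂ) (f : MvPolynomial (Fin n) ℂ) :
    Da y (rename Sum.inr f) = 0 := by
  classical
  induction f using MvPolynomial.induction_on with
  | C a => rw [rename_C]; exact Derivation.map_algebraMap _ _
  | add p q hp hq => rw [map_add, map_add, hp, hq, add_zero]
  | mul_X p i hp =>
    rw [map_mul, Derivation.leibniz, hp, rename_X]
    have : Da y (X (Sum.inr i)) = 0 := by
      rw [da30_Da_apply, Finset.sum_eq_zero]
      intro j _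
      rw [pderiv_X_of_ne (by simp), mul_zero]
    rw [this]; simp

theorem da30_ata (a y : Fin n → ℂ) (f : A n) : Da y (ata a f) = ata a (Dx y f) := by
  induction f using MvPolynomial.induction_on with
  | C c =>
    have h1 : ata a (C c) = C c := (ata a).commutes c
    rw [h1]
    have h2 : Da y (C c) = 0 := Derivation.map_algebraMap _ _
    have h3 : Dx y (C c) = 0 := Derivation.map_algebraMap _ _
    rw [h2, h3, map_zero]
  | add p q hp hq => rw [map_add, map_add, hp, hq, map_add, map_add]
  | mul_X p i hp =>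
    rw [map_mul, Derivation.leibniz, hp, Derivation.leibniz, map_add, smul_eq_mul, smul_eq_mul,
      smul_eq_mul, smul_eq_mul, map_mul, map_mul]
    congr 2
    rcases i with i | i
    · rw [da30_Dx_inl, map_zero]
      have : ata a (X (Sum.inl i)) = C (a i) := by
        unfold ata; rw [aeval_X]; rfl
      rw [this]
      exact Derivation.map_algebraMap _ _
    · rw [da30_Dx_inr]
      have : ata a (X (Sum.inr i)) = X (Sum.inl i) := by
        unfold ata; rw [aeval_X]; rfl
      rw [this, da30_Da_inl]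
      exact ((ata a).commutes _).symm

theorem da30_sl_ata (a x : Fin n → ℂ) (f : A n) :
    sl x (ata a f) = C (eval (Sum.elim a x) f) := by
  induction f using MvPolynomial.induction_on with
  | C c =>
    have h1 : ata a (C c) = C c := (ata a).commutes c
    rw [h1, eval_C]
    exact (sl x).commutes c
  | add p q hp hq => rw [map_add, map_add, hp, hq, map_add, map_add]
  | mul_X p i hp =>
    rw [map_mul, map_mul, hp, map_mul, map_mul, eval_X]
    congr 1
    rcases i with i | i
    · have h1 : ata a (X (Sum.inl i)) = C (a i) := by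
        unfold ata; rw [aeval_X]; rfl
      rw [h1]
      exact (sl x).commutes _
    · have h1 : ata a (X (Sum.inr i)) = X (Sum.inl i) := by
        unfold ata; rw [aeval_X]; rfl
      rw [h1]
      unfold sl
      rw [aeval_X]
      rfl

theorem da30_sl_inr (x : Fin n → ℂ) (f : MvPolynomial (Fin n) ℂ) :
    sl x (rename Sum.inr f) = f := by
  unfold sl
  rw [aeval_rename]
  have : (Sum.elim (fun j => C (x j)) X) ∘ Sum.inr = (X : Fin n → MvPolynomial (Fin n) ℂ) := rfl
  rw [this, aeval_X_left_apply]

theorem da30_eval_sl (x w : Fin n → ℂ) (f : A n) :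
    eval w (sl x f) = eval (Sum.elim x w) f := by
  unfold sl
  induction f using MvPolynomial.induction_on with
  | C a => simp
  | add p q hp hq => rw [map_add, map_add, hp, hq, map_add]
  | mul_X p i hp =>
    rw [map_mul, map_mul, hp, map_mul]
    rcases i with i | i <;> simp

theorem da30_pra (a : Fin n → ℂ) (v : Fin (N + 1) → ℂ) :
    pra P a d v = ∑ i, C (sg i) * C (v i) * hcj a d (P i) := by
  unfold pra
  rw [LinearMap.sum_apply]
  refine Finset.sum_congr rfl fun i _ => ?_
  rw [LinearMap.comp_apply, LinearMap.proj_apply, LinearMap.toSpanSingleton_apply,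
    MvPolynomial.smul_eq_C_mul, MvPolynomial.smul_eq_C_mul]
  ring

/-- the polynomial `B` -/
noncomputable def da30_B (P : Fin (N + 1) → MvPolynomial (Fin n) ℂ) (a : Fin n → ℂ) (d : ℕ)
    (f : Fin (N + 1) → A n) : A n :=
  ∑ i, C (sg i) * ata a (f i) * rename Sum.inr (hcj a d (P i))

theorem da30_Da_B (a y : Fin n → ℂ) (f : Fin (N + 1) → A n) :
    Da y (da30_B P a d f) = da30_B P a d (fun i => Dx y (f i)) := by
  unfold da30_B
  rw [map_sum]
  refine Finset.sum_congr rfl fun i _ => ?_
  rw [Derivation.leibniz, da30_Da_inr, Derivation.leibniz, da30_ata]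
  have h2 : Da y (C (sg i)) = 0 := Derivation.map_algebraMap _ _
  rw [h2]
  simp only [smul_eq_mul, mul_zero, add_zero, zero_add]
  ring

theorem da30_Da_B_iter (a y : Fin n → ℂ) (f : Fin (N + 1) → A n) (j : ℕ) :
    (Da y)^[j] (da30_B P a d f) = da30_B P a d (fun i => (Dx y)^[j] (f i)) := by
  induction j generalizing f with
  | zero => rfl
  | succ j ih => rw [Function.iterate_succ_apply, da30_Da_B, ih]; rfl

theorem da30_sl_B (a x : Fin n → ℂ) (f : Fin (N + 1) → A n) :
    sl x (da30_B P a d f) = pra P a d (fun i => eval (Sum.elim a x) (f i)) := by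
  rw [da30_pra]
  unfold da30_B
  rw [map_sum]
  refine Finset.sum_congr rfl fun i _ => ?_
  rw [map_mul, map_mul, da30_sl_ata, da30_sl_inr]
  congr 2
  exact (sl x).commutes _

theorem da30_phi (g : ℕ → A n) (a x : Fin n → ℂ) :
    (fun i => eval (Sum.elim a x) (phi (Fc P) d g i)) ∈
      Submodule.span ℂ (Set.range (Fv P a x)) := by
  have h1 : (fun i => eval (Sum.elim a x) (phi (Fc P) d g i))
      = ∑ r ∈ Finset.range d, (eval (Sum.elim a x) (g r)) • Fv P a x (r + 1) := by
    funext i
    unfold phi Fv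
    rw [map_sum, Finset.sum_apply]
    refine Finset.sum_congr rfl fun r _ => ?_
    rw [map_mul, Pi.smul_apply, smul_eq_mul]
  rw [h1]
  exact Submodule.sum_mem _ fun r _ => Submodule.smul_mem _ _ (Submodule.subset_span ⟨_, rfl⟩)

theorem da30_mem (hP : SMap n N d P) (m : ℕ) (g : ℕ → A n) (hg : g ∈ Lset (Fc P) d m)
    (a x y : Fin n → ℂ) (j : ℕ) (hj : j ≤ m) :
    (fun i => eval (Sum.elim a x) ((Dx y)^[j] (phi (Fc P) d g i))) ∈
      Submodule.span ℂ (Set.range (Fv P a x)) := by
  obtain ⟨h, c, hc⟩ := griffiths (Fc P) d (Dx y) (Da y) (fun k => Dx_Fc_zero y k)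
    (fun r k => Da_Fc y r k) (fun r hr => funext fun k => Fc_eq_zero hP.deg_le hr k) m g hg j hj
  have h1 : (fun i => eval (Sum.elim a x) ((Dx y)^[j] (phi (Fc P) d g i)))
      = (fun i => eval (Sum.elim a x) (phi (Fc P) d h i))
        + (eval (Sum.elim a x) c) • Fv P a x 0 := by
    funext i
    rw [hc i, map_add, map_mul, Pi.add_apply, Pi.smul_apply, smul_eq_mul]
    rfl
  rw [h1]
  exact Submodule.add_mem _ (da30_phi h a x)
    (Submodule.smul_mem _ _ (Submodule.subset_span ⟨0, rfl⟩))

theorem growth_point (hn : 2 ≤ n) (hP : SMap n N d P) {τ : ℕ}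
    (h : Module.finrank (FractionRing (A n)) (Submodule.span (FractionRing (A n))
        (Set.range fun (r : ℕ) (i : Fin (N + 1)) =>
          algebraMap (A n) (FractionRing (A n)) (Fc P r i))) = τ + 1)
    (m : ℕ) (g : ℕ → A n) (hg : g ∈ Lset (Fc P) d m) {a x : Fin n → ℂ} (ha : OnSphere a)
    (hx : ip x a = 0)
    (hφ : (fun i => eval (Sum.elim a x) (phi (Fc P) d g i)) ∉
      Submodule.span ℂ {Fv P a x 0}) (h0 : Fv P a x 0 ≠ 0) :
    (n + m - 1).choose m ≤ τ := by
  classical
  set s : MvPolynomial (Fin n) ℂ := ∑ j, C (a j) * X j with hs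
  have hevs : ∀ w, eval w s = ∑ j, a j * w j := by
    intro w
    rw [hs, map_sum]
    refine Finset.sum_congr rfl fun j _ => ?_
    rw [map_mul, eval_C, eval_X]
  have hane : a ≠ 0 := by
    intro h1
    apply h0
    subst h1
    exfalso
    unfold OnSphere at ha
    simp at ha
  have hsne : s ≠ 0 := by
    intro h1
    apply hane
    funext j
    have h2 := hevs (Pi.single j 1)
    rw [h1, map_zero, Finset.sum_eq_single j] at h2
    · simpa using h2.symm
    · intro k _ hk
      rw [Pi.single_eq_of_ne hk, mul_zero]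
    · simp
  set B : A n := da30_B P a d (phi (Fc P) d g) with hB
  have hvan : ∀ (x w : Fin n → ℂ), ∑ i, x i * w i = 0 → eval w s ≠ 0 →
      ∀ ψ ∈ Submodule.span ℂ (Set.range (Fv P a x)), eval w (pra P a d ψ) = 0 := by
    intro x w hxw haw ψ hψ
    rw [hevs] at haw
    induction hψ using Submodule.span_induction with
    | mem v hv =>
      obtain ⟨r, rfl⟩ := hv
      exact pra_vanish hP a x w hxw haw r
    | zero => rw [map_zero, map_zero]
    | add u v _ _ hu hv => rw [map_add, map_add, hu, hv, add_zero]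
    | smul c u _ hu => rw [map_smul, MvPolynomial.smul_eval, hu, mul_zero]
  have hdvd : ∀ y : Fin n → ℂ, ∀ j ≤ m, q n ∣ ((Da y)^[j]) B := by
    intro y j hj
    refine q_dvd_of_vanish hn s hsne _ fun x w hxw haw => ?_
    rw [← da30_eval_sl, hB, da30_Da_B_iter, da30_sl_B]
    exact hvan x w hxw haw _ (da30_mem hP m g hg a x y j hj)
  have hpow : q n ^ (m + 1) ∣ B := q_pow_dvd hn m B hdvd
  have hBne : B ≠ 0 := by
    intro h1
    have h2 : sl x B = 0 := by rw [h1, map_zero]
    rw [hB, da30_sl_B] at h2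
    exact hφ (mem_span_of_pra_eq_zero hP ha hx _ (da30_phi g a x) h2 h0)
  obtain ⟨x', hx'⟩ := growth_alg hn m B hBne hpow
  set V := Submodule.span ℂ (Set.range (Fv P a x')) with hV
  have h1 := hx' (V.map (pra P a d)) inferInstance (fun y j hj => by
    rw [hB, da30_Da_B_iter, da30_sl_B]
    exact Submodule.mem_map_of_mem (da30_mem hP m g hg a x' y j hj))
  have h2 := rank_le h a x'
  rw [← hV] at h2
  -- the kernel
  have hF0 : ∀ y : Fin n → ℂ, Fv P a y 0 = Fv P a 0 0 := by
    intro y
    funext i
    simp only [Fv, Fc_zero, eval_rename]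
    rfl
  have hpra0 : pra P a d (Fv P a x' 0) = 0 := by
    rw [hF0]
    have h3 : pra P a d (Fv P a 0 0) * s = 0 := by
      refine MvPolynomial.funext fun w => ?_
      rw [map_mul, map_zero]
      by_cases hw : eval w s = 0
      · rw [hw, mul_zero]
      · rw [hvan 0 w (by simp) hw _ (Submodule.subset_span ⟨0, rfl⟩), zero_mul]
    exact (mul_eq_zero.1 h3).resolve_right hsne
  have hrk := LinearMap.finrank_range_add_finrank_ker ((pra P a d).domRestrict V)
  rw [LinearMap.range_domRestrict] at hrk
  have hker : 1 ≤ Module.finrank ℂ (LinearMap.ker ((pra P a d).domRestrict V)) := by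
    rw [Submodule.one_le_finrank_iff]
    intro hbot
    have h4 : (⟨Fv P a x' 0, Submodule.subset_span ⟨0, rfl⟩⟩ : V)
        ∈ LinearMap.ker ((pra P a d).domRestrict V) := by
      rw [LinearMap.mem_ker, LinearMap.domRestrict_apply]
      exact hpra0
    rw [hbot, Submodule.mem_bot] at h4
    apply h0
    rw [hF0 x, ← hF0 x']
    exact congrArg Subtype.val h4
  omega

end Pool.Agent.Lib_helper49.Dang
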