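import Pool.Agent.Lib_helper49.Dang.GDefs
import Pool.Agent.Lib_helper97.Ebe.KP
import Pool.Agent.Lib_helper49.Dang.B04

/-!
# Block da31
-/

namespace Pool.Agent.Lib_helper49.Dang

open MvPolynomial Pool.Agent.Lib_helper26.Ebe Pool.Agent.Lib_helper26.SOS

variable {n N d : ℕ} {P : Fin (N + 1) → MvPolynomial (Fin n) ℂ}

/-- Block da31: the family `F_0, φ(g_a)` is independent at a generic point. -/
theorem gen_cons {τ : ℕ} (g : Fin τ → ℕ → A n) (δ : A n) (hδ : δ ≠ 0)
    (hd : ∀ r, d < r → Fc P r = 0)
    (hspan : ∀ r ≤ d, δ • Fc P r ∈ Submodule.span (A n)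
        (Set.range (Fin.cons (Fc P 0) (fun a => phi (Fc P) d (g a)) :
          Fin (τ + 1) → Fin (N + 1) → A n)))
    (h : Module.finrank (FractionRing (A n)) (Submodule.span (FractionRing (A n))
        (Set.range fun (r : ℕ) (i : Fin (N + 1)) =>
          algebraMap (A n) (FractionRing (A n)) (Fc P r i))) = τ + 1) :
    Gen (fun b : Fin n ⊕ Fin n → ℂ => LinearIndependent ℂ
      (fun (k : Fin (τ + 1)) (i : Fin (N + 1)) =>
        eval b ((Fin.cons (Fc P 0) (fun a => phi (Fc P) d (g a)) :
          Fin (τ + 1) → Fin (N + 1) → A n) k i))) := by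
  set v : Fin (τ + 1) → Fin (N + 1) → A n :=
    (Fin.cons (Fc P 0) (fun a => phi (Fc P) d (g a)) : Fin (τ + 1) → Fin (N + 1) → A n) with hv
  apply Pool.Agent.Lib_helper97.Ebe.gen_linearIndependent v
  set K := FractionRing (A n) with hK
  set v' : Fin (τ + 1) → Fin (N + 1) → K := fun k i => algebraMap (A n) K (v k i) with hv'
  rw [linearIndependent_iff_card_le_finrank_span, Fintype.card_fin]
  show τ + 1 ≤ Module.finrank K (Submodule.span K (Set.range v'))
  refine le_trans (le_of_eq h.symm) ?_
  have hδ' : algebraMap (A n) K δ ≠ 0 := by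
    intro h0
    exact hδ ((IsFractionRing.injective (A n) K) (by rw [h0, map_zero]))
  have hmap : ∀ u : Fin (N + 1) → A n, u ∈ Submodule.span (A n) (Set.range v) →
      (fun i => algebraMap (A n) K (u i)) ∈ Submodule.span K (Set.range v') := by
    intro u hu
    induction hu using Submodule.span_induction with
    | mem x hx =>
      obtain ⟨k, rfl⟩ := hx
      exact Submodule.subset_span ⟨k, rfl⟩
    | zero =>
      have : (fun i : Fin (N + 1) => algebraMap (A n) K ((0 : Fin (N + 1) → A n) i)) = 0 := by
        funext i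
        simp
      rw [this]
      exact Submodule.zero_mem _
    | add x y _ _ hx hy =>
      have : (fun i => algebraMap (A n) K ((x + y) i)) =
          (fun i => algebraMap (A n) K (x i)) + fun i => algebraMap (A n) K (y i) := by
        funext i
        simp
      rw [this]
      exact Submodule.add_mem _ hx hy
    | smul c x _ hx =>
      have : (fun i => algebraMap (A n) K ((c • x) i)) =
          algebraMap (A n) K c • fun i => algebraMap (A n) K (x i) := by
        funext i
        simp
      rw [this]
      exact Submodule.smul_mem _ _ hx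
  apply Submodule.finrank_mono
  rw [Submodule.span_le]
  rintro _ ⟨r, rfl⟩
  rcases lt_or_ge d r with hr | hr
  · have : (fun i : Fin (N + 1) => algebraMap (A n) K (Fc P r i)) = 0 := by
      funext i
      rw [hd r hr]
      simp
    show (fun i : Fin (N + 1) => algebraMap (A n) K (Fc P r i)) ∈ _
    rw [this]
    exact Submodule.zero_mem _
  · have h1 := hmap _ (hspan r hr)
    have h2 : (fun i => algebraMap (A n) K ((δ • Fc P r) i)) =
        algebraMap (A n) K δ • fun i => algebraMap (A n) K (Fc P r i) := by
      funext i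
      simp
    rw [h2] at h1
    have h3 := Submodule.smul_mem _ (algebraMap (A n) K δ)⁻¹ h1
    rw [smul_smul, inv_mul_cancel₀ hδ', one_smul] at h3
    exact h3

end Pool.Agent.Lib_helper49.Dang
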