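import Pool.Agent.Lib_helper49.Dang.G23
import Pool.Agent.Lib_helper49.Dang.G24
import Pool.Agent.Lib_helper49.Dang.G26
import Pool.Agent.Lib_helper49.Dang.G28
import Pool.Agent.Lib_helper49.Dang.G29
import Pool.Agent.Lib_helper49.Dang.G31
import Pool.Agent.Lib_helper49.Dang.G30
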