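import Pool.Agent.Lib_helper49.Dang.All
import Pool.Agent.Lib_helper49.Dang.GAll

/-!
# D'Angelo's degree problem: assembly of the growth theorem
-/

namespace Pool.Agent.Lib_helper49.Dang

open MvPolynomial Pool.Agent.Lib_helper26.Ebe Pool.Agent.Lib_helper26.SOS

variable {n N d : ℕ} {P : Fin (N + 1) → MvPolynomial (Fin n) ℂ}

theorem growth_main (hn : 2 ≤ n) (hP : SMap n N d P) :
    ∃ τ : ℕ, (n - 1) * τ + 1 ≤ N ∧ ∀ M, τ < (n + M - 1).choose M → d ≤ M * τ := by
  obtain ⟨τ, m, g, δ, hg, hm, hδ, hspan, hfin⟩ := adapted hP (by omega)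
  obtain ⟨Φ, hΦ0, hΦ⟩ := Pool.Agent.Lib_helper97.Ebe.gen_linearIndependent
    (fun (r : Fin (τ + 1)) (i : Fin (N + 1)) => Fc P r i) (osculation hP.deg_le hfin)
  obtain ⟨Ψ, hΨ0, hΨ⟩ := gen_cons g δ hδ
    (fun r hr => funext fun i => Fc_eq_zero hP.deg_le hr i) hspan hfin
  obtain ⟨a, x, ha, hx, h⟩ := exists_real hn (Φ * Ψ) (mul_ne_zero hΦ0 hΨ0)
  obtain ⟨b, hba, hb0, hbb, hb⟩ := exists_orthogonal hn (Φ * Ψ) a x ha hx h
  have hbΦ : ∀ k, eval (Sum.elim a (b k)) Φ ≠ 0 := fun k => by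
    have := hb k
    rw [map_mul] at this
    exact left_ne_zero_of_mul this
  have hli : ∀ k, LinearIndependent ℂ (fun r : Fin (τ + 1) => Fv P a (b k) r) :=
    fun k => hΦ _ (hbΦ k)
  have hF0 : ∀ y : Fin n → ℂ, Fv P a y 0 = Fv P a 0 0 := by
    intro y
    funext i
    simp only [Fv, Fc_zero, eval_rename]
    rfl
  refine ⟨τ, ?_, ?_⟩
  · refine dim_bound (Fv P a 0 0) (fun k r => Fv P a (b k) (r + 1)) ?_ (by omega) ?_ ?_ ?_
    · have h0 : ip (0 : Fin n → ℂ) a = 0 := by simp [ip]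
      exact orth hP ha h0 h0 (by simp [ip]) 0 0
    · intro k r
      have h0 : ip (0 : Fin n → ℂ) a = 0 := by simp [ip]
      exact orth hP ha (hba k) h0 (by simp [ip]) _ 0
    · intro k l hkl r s
      exact orth hP ha (hba k) (hba l) (hbb k l hkl) _ _
    · intro k
      have h1 := hli k
      convert h1 using 1
      funext r
      refine Fin.cases ?_ (fun r => ?_) r
      · simp [hF0 (b k)]
      · simp
  · intro M hM
    have hΨx : eval (Sum.elim a x) Ψ ≠ 0 := by
      rw [map_mul] at h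
      exact right_ne_zero_of_mul h
    have hli2 := hΨ _ hΨx
    rw [← hm]
    refine sum_le_of_growth (by omega) m (fun c => ?_) M hM
    have h00 : (fun (k : Fin (τ + 1)) (i : Fin (N + 1)) =>
        eval (Sum.elim a x) ((Fin.cons (Fc P 0) (fun a => phi (Fc P) d (g a)) :
          Fin (τ + 1) → Fin (N + 1) → A n) k i)) 0 = Fv P a x 0 := by
      funext i
      simp [Fv]
    refine growth_point hn hP hfin (m c) (g c) (hg c) ha hx ?_ ?_
    · intro hmem
      have h1 := hli2.notMem_span_image (s := {0}) (x := c.succ)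
        (by simp [Fin.succ_ne_zero])
      rw [Set.image_singleton] at h1
      apply h1
      have h2 : (fun i => eval (Sum.elim a x) ((Fin.cons (Fc P 0)
          (fun a => phi (Fc P) d (g a)) : Fin (τ + 1) → Fin (N + 1) → A n) 0 i)) =
          Fv P a x 0 := h00
      rw [h2]
      exact hmem
    · rw [← h00]
      exact hli2.ne_zero 0

/-- Two-sided bounds for the degrees of smooth CR maps between spheres. -/
theorem degree_growth (hn : 2 ≤ n) (hN : 1 ≤ N) :
    (N - 1) / (n - 1) ∈ degrees n N ∧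
    ∀ M, (N - 1) / (n - 1) < (n + M - 1).choose M →
      ∀ d ∈ degrees n N, d ≤ M * ((N - 1) / (n - 1)) := by
  refine ⟨whitney hn _ ?_, fun M hM d hd => ?_⟩
  · have := Nat.div_mul_le_self (N - 1) (n - 1)
    rw [mul_comm] at this
    omega
  · obtain ⟨f, hf, hfd⟩ := hd
    obtain ⟨P, hP⟩ := exists_SMap hf hfd
    obtain ⟨τ, h1, h2⟩ := growth_main hn hP
    have h3 : τ ≤ (N - 1) / (n - 1) := by
      rw [Nat.le_div_iff_mul_le (by omega)]
      rw [mul_comm] at h1
      omega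
    exact (h2 M (h3.trans_lt hM)).trans (Nat.mul_le_mul le_rfl h3)

/-- The exact value for `N ≤ n (n - 1)`. -/
theorem degree_exact (hn : 2 ≤ n) (hN : 1 ≤ N) (h : N ≤ n * (n - 1)) :
    IsGreatest (degrees n N) ((N - 1) / (n - 1)) := by
  obtain ⟨h1, h2⟩ := degree_growth hn hN
  refine ⟨h1, fun d hd => ?_⟩
  have := h2 1 (by
    rw [Nat.choose_one_right, Nat.div_lt_iff_lt_mul (by omega)]
    rw [show n + 1 - 1 = n by omega]
    omega) d hd
  omega

end Pool.Agent.Lib_helper49.Dang
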