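import Pool.Agent.Lib_helper49.Dang.Setup
import Pool.Agent.Lib_helper26.SOS.Lower

/-!
# D'Angelo's degree problem: definitions for the growth theorem
-/

namespace Pool.Agent.Lib_helper49.Dang

open MvPolynomial Pool.Agent.Lib_helper26.Ebe Pool.Agent.Lib_helper26.SOS

variable {n N d : ℕ} {P : Fin (N + 1) → MvPolynomial (Fin n) ℂ}

/-- `B(x, w) ↦ B(x₀, w)`, for polynomials in `x = inl`, `w = inr`. -/
noncomputable def sl (x : Fin n → ℂ) : A n →ₐ[ℂ] MvPolynomial (Fin n) ℂ :=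
  aeval (Sum.elim (fun j => C (x j)) X)

/-- `f(a, x) ↦ f(a₀, x)`, the variables `x` are renamed to `inl`. -/
noncomputable def ata (a : Fin n → ℂ) : A n →ₐ[ℂ] A n :=
  aeval (Sum.elim (fun j => C (a j)) (fun j => X (Sum.inl j)))

/-- The polynomial `(a·w)^d conj(f)(w / (a·w))`, `conj(f)` = conjugate coefficients. -/
noncomputable def hcj (a : Fin n → ℂ) (d : ℕ) (f : MvPolynomial (Fin n) ℂ) :
    MvPolynomial (Fin n) ℂ :=
  ∑ m ∈ f.support, C ((starRingEnd ℂ) (coeff m f)) *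
    (∑ j, C (a j) * X j) ^ (d - m.sum fun _ k => k) * monomial m 1

/-- The pairing of a vector with `P` conjugate, as a homogenized polynomial in `w`. -/
noncomputable def pra (P : Fin (N + 1) → MvPolynomial (Fin n) ℂ) (a : Fin n → ℂ) (d : ℕ) :
    (Fin (N + 1) → ℂ) →ₗ[ℂ] MvPolynomial (Fin n) ℂ :=
  ∑ i, (LinearMap.toSpanSingleton ℂ (MvPolynomial (Fin n) ℂ) (sg i • hcj a d (P i))) ∘ₗ
    (LinearMap.proj i)

end Pool.Agent.Lib_helper49.Dang
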