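import Pool.Agent.Lib_helper49.Dang.Defs
import Pool.Agent.Lib_helper97.Ebe.KP

/-!
# D'Angelo's degree problem: definitions used in the proof
-/

namespace Pool.Agent.Lib_helper49.Dang

open MvPolynomial Pool.Agent.Lib_helper26.Ebe

variable {n N : ℕ}

/-- The Hermitian form of signature `(N,1)` on `ℂ^(N+1)`. -/
noncomputable def hf (u v : Fin (N + 1) → ℂ) : ℂ :=
  (∑ i : Fin N, u i.succ * (starRingEnd ℂ) (v i.succ)) - u 0 * (starRingEnd ℂ) (v 0)

/-- The signs of the form `hf`. -/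
def sg (i : Fin (N + 1)) : ℂ := if i = 0 then -1 else 1

/-- The Hermitian inner product of `ℂ^n`. -/
noncomputable def ip (x y : Fin n → ℂ) : ℂ := ∑ i, x i * (starRingEnd ℂ) (y i)

/-- The vector `(q, p_1, ..., p_N)` of a rational sphere map `p / q` of degree `d`. -/
structure SMap (n N d : ℕ) (P : Fin (N + 1) → MvPolynomial (Fin n) ℂ) : Prop where
  null : ∀ z : Fin n → ℂ, OnSphere z → hf (fun i => eval z (P i)) (fun i => eval z (P i)) = 0
  coprime : ∀ r, (∀ i, r ∣ P i) → IsUnit r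
  deg_le : ∀ i, (P i).totalDegree ≤ d
  deg_eq : ∃ i, (P i).totalDegree = d

/-- The polynomial ring in `(a, x)`, `a = inl`, `x = inr`. -/
abbrev A (n : ℕ) := MvPolynomial (Fin n ⊕ Fin n) ℂ

/-- `f ↦ f(a + t x)` as a polynomial in `t` over `ℂ[a, x]`. -/
noncomputable def tay : MvPolynomial (Fin n) ℂ →ₐ[ℂ] Polynomial (A n) :=
  aeval fun i => Polynomial.C (X (Sum.inl i)) + Polynomial.C (X (Sum.inr i)) * Polynomial.X

/-- The Taylor coefficients: `P(a + t x) = ∑ r, Fc P r * t ^ r`. -/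
noncomputable def Fc (P : Fin (N + 1) → MvPolynomial (Fin n) ℂ) (r : ℕ) (i : Fin (N + 1)) : A n :=
  (tay (P i)).coeff r

/-- Their values at `(a, x)`. -/
noncomputable def Fv (P : Fin (N + 1) → MvPolynomial (Fin n) ℂ) (a x : Fin n → ℂ) (r : ℕ) :
    Fin (N + 1) → ℂ := fun i => eval (Sum.elim a x) (Fc P r i)

/-- The derivation `∑ y_j ∂/∂a_j`. -/
noncomputable def Da (y : Fin n → ℂ) : Derivation ℂ (A n) (A n) :=
  ∑ j, (C (y j) : A n) • (pderiv (Sum.inl j))

/-- The derivation `∑ y_j ∂/∂x_j`. -/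
noncomputable def Dx (y : Fin n → ℂ) : Derivation ℂ (A n) (A n) :=
  ∑ j, (C (y j) : A n) • (pderiv (Sum.inr j))

/-- The derivation `∑ x_j ∂/∂a_j`. -/
noncomputable def De (n : ℕ) : Derivation ℂ (A n) (A n) :=
  ∑ j, (X (Sum.inr j) : A n) • (pderiv (Sum.inl j))

/-- Restriction to the family `(a, x + u e)`, a polynomial in `u`. -/
noncomputable def lin (a x e : Fin n → ℂ) : A n →ₐ[ℂ] Polynomial ℂ :=
  aeval (Sum.elim (fun j => Polynomial.C (a j))
    (fun j => Polynomial.C (x j) + Polynomial.C (e j) * Polynomial.X))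

/-- Conjugate coefficients. -/
noncomputable def cjp : Polynomial ℂ →+* Polynomial ℂ := Polynomial.mapRingHom (starRingEnd ℂ)

/-- The sequences `g` with `∑_r g(r+t) F_r = 0` for `t < i`. -/
def Lset {R κ : Type*} [CommRing R] (F : ℕ → κ → R) (d i : ℕ) : Set (ℕ → R) :=
  {g | ∀ t < i, ∀ k, ∑ r ∈ Finset.range (d + 1), g (r + t) * F r k = 0}

/-- `φ(g) = ∑_{r<d} g(r) F_(r+1)`. -/
def phi {R κ : Type*} [CommRing R] (F : ℕ → κ → R) (d : ℕ) (g : ℕ → R) : κ → R :=
  fun k => ∑ r ∈ Finset.range d, g r * F (r + 1) k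

/-- The pairing `∑_k s_k α_k(u) β_k(v)`, a polynomial in `u` over `ℂ[v]`. -/
noncomputable def pr {κ : Type*} [Fintype κ] (s : κ → ℂ) (α β : κ → Polynomial ℂ) :
    Polynomial (Polynomial ℂ) :=
  ∑ k, (Polynomial.C (Polynomial.C (s k)) * (α k).map Polynomial.C * Polynomial.C (β k))

end Pool.Agent.Lib_helper49.Dang
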